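import Pool.Agent.Work.MP_680e5b_lc.Fml

/-!
# Substitution of variables and bounded quantifiers with a new variable
-/

namespace Pool.Agent.SigOne

open Cardinal Ordinal Set

/-- arbitrary substitutions of variables -/
lemma exists_subst (φ : Fml) : ∀ f : ℕ → ℕ, ∃ ψ : Fml, ∀ v, Sat ψ v ↔ Sat φ (v ∘ f) := by
  induction φ with
  | mem i j => exact fun f => ⟨.mem (f i) (f j), fun _ => Iff.rfl⟩
  | eq i j => exact fun f => ⟨.eq (f i) (f j), fun _ => Iff.rfl⟩
  | neg φ ih =>
    intro f
    obtain ⟨ψ, hψ⟩ := ih f
    exact ⟨.neg ψ, fun v => by simp only [Sat, hψ]⟩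
  | and φ χ ih1 ih2 =>
    intro f
    obtain ⟨ψ, hψ⟩ := ih1 f
    obtain ⟨ψ', hψ'⟩ := ih2 f
    exact ⟨.and ψ ψ', fun v => by simp only [Sat, hψ, hψ']⟩
  | ball i j φ ih =>
    intro f
    let p : ℕ := (∑ n ∈ Finset.range (bnd φ), f n) + f j + 1
    obtain ⟨ψ, hψ⟩ := ih (Function.update f i p)
    refine ⟨.ball p (f j) ψ, fun v => ?_⟩
    simp only [Sat, hψ, Function.comp_apply]
    refine forall₂_congr fun x _ => sat_congr fun n hn => ?_
    simp only [Function.comp_apply]
    by_cases h : n = i
    · subst h
      simp
    · rw [Function.update_of_ne h, Function.update_of_ne h, Function.update_of_ne,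
        Function.comp_apply]
      have : f n ≤ ∑ n ∈ Finset.range (bnd φ), f n :=
        Finset.single_le_sum (f := f) (fun _ _ => Nat.zero_le _) (Finset.mem_range.2 hn)
      simp only [p]
      omega

namespace IsD0

lemma subst {R : (ℕ → V) → Prop} (h : IsD0 R) (f : ℕ → ℕ) : IsD0 fun v => R (v ∘ f) := by
  obtain ⟨φ, hφ⟩ := h
  obtain ⟨ψ, hψ⟩ := exists_subst φ f
  exact ⟨ψ, fun v => by rw [hψ, hφ]⟩

/-- put `x` in front of a valuation -/
def cons (x : V) (v : ℕ → V) : ℕ → V
  | 0 => x
  | n + 1 => v n

/-- bounded quantifiers with a new variable -/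
lemma all (j : ℕ) {R : V → (ℕ → V) → Prop} (h : IsD0 fun v => R (v 0) fun n => v (n + 1)) :
    IsD0 fun v => ∀ x ∈ v j, R x v := by
  refine ((h.ball 0 (j + 1)).subst (fun n => n - 1)).congr fun v => ?_
  simp only [Function.comp_apply, Nat.add_sub_cancel]
  refine forall₂_congr fun x _ => ?_
  have h1 : Function.update (v ∘ fun n => n - 1) 0 x 0 = x := by simp
  have h2 : (fun n => Function.update (v ∘ fun n => n - 1) 0 x (n + 1)) = v := by
    funext n
    rw [Function.update_of_ne (by omega)]
    simp
  rw [h1, h2]

lemma ex (j : ℕ) {R : V → (ℕ → V) → Prop} (h : IsD0 fun v => R (v 0) fun n => v (n + 1)) :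
    IsD0 fun v => ∃ x ∈ v j, R x v :=
  ((all j (R := fun x v => ¬ R x v) h.not).not).congr fun v => by push Not; rfl

lemma iff' {R S : (ℕ → V) → Prop} (h : IsD0 R) (h' : IsD0 S) : IsD0 fun v => (R v ↔ S v) :=
  ((h.imp h').and (h'.imp h)).congr fun v => by tauto

/-- `v i = {v j}` -/
lemma sing (i j : ℕ) : IsD0 fun v => v i = {v j} := by
  refine (((mem j i).and (all i (R := fun x v => x = v j) (eq 0 (j + 1))))).congr fun v => ?_
  constructor
  · rintro ⟨h1, h2⟩
    ext z
    rw [ZFSet.mem_singleton]
    constructor
    · exact h2 z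
    · rintro rfl
      exact h1
  · intro h
    rw [h]
    simp

/-- `v i = {v j, v k}` -/
lemma upair (i j k : ℕ) : IsD0 fun v => v i = {v j, v k} := by
  refine ((((mem j i).and (mem k i)).and (all i (R := fun x v => x = v j ∨ x = v k)
    ((eq 0 (j + 1)).or (eq 0 (k + 1)))))).congr fun v => ?_
  constructor
  · rintro ⟨⟨h1, h2⟩, h3⟩
    ext z
    rw [ZFSet.mem_pair]
    constructor
    · exact h3 z
    · rintro (rfl | rfl)
      · exact h1
      · exact h2
  · intro h
    rw [h]
    simp

/-- `v i = (v j, v k)` -/
lemma opair (i j k : ℕ) : IsD0 fun v => v i = ZFSet.pair (v j) (v k) := by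
  have h1 : IsD0 fun v => ∃ s ∈ v i, ∃ t ∈ v i, (s = {v j} ∧ t = {v j, v k}) ∧
      ∀ y ∈ v i, y = s ∨ y = t := by
    refine ex i (R := fun s v => ∃ t ∈ v i, (s = {v j} ∧ t = {v j, v k}) ∧
      ∀ y ∈ v i, y = s ∨ y = t) ?_
    refine ex (i + 1) (R := fun t v => (v 0 = {v (j + 1)} ∧ t = {v (j + 1), v (k + 1)}) ∧
      ∀ y ∈ v (i + 1), y = v 0 ∨ y = t) ?_
    refine ((sing 1 (j + 2)).and (upair 0 (j + 2) (k + 2))).and ?_
    exact all (i + 2) (R := fun y v => y = v 1 ∨ y = v 0) ((eq 0 2).or (eq 0 1))
  refine h1.congr fun v => ?_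
  constructor
  · rintro ⟨s, hs, t, ht, ⟨rfl, rfl⟩, h⟩
    ext z
    unfold ZFSet.pair
    rw [ZFSet.mem_pair]
    constructor
    · exact h z
    · rintro (rfl | rfl)
      · exact hs
      · exact ht
  · intro h
    rw [h]
    unfold ZFSet.pair
    exact ⟨_, by simp, _, by simp, ⟨rfl, rfl⟩, fun y hy => by simpa using hy⟩

/-- `(v j, v k) ∈ v i` -/
lemma pmem (i j k : ℕ) : IsD0 fun v => ZFSet.pair (v j) (v k) ∈ v i := by
  refine (ex i (R := fun p v => p = ZFSet.pair (v j) (v k)) (opair 0 (j + 1) (k + 1))).congr
    fun v => ?_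
  constructor
  · rintro ⟨p, hp, rfl⟩
    exact hp
  · intro h
    exact ⟨_, h, rfl⟩

lemma ballAll {b : ℕ} {R : ℕ → (ℕ → V) → Prop} (h : ∀ j, IsD0 (R j)) :
    IsD0 fun v => ∀ j < b, R j v := by
  induction b with
  | zero => exact (eq 0 0).congr fun v => by simp
  | succ b ih =>
    refine (ih.and (h b)).congr fun v => ?_
    constructor
    · rintro ⟨h1, h2⟩ j hj
      rcases Nat.lt_succ_iff_lt_or_eq.1 hj with h | rfl
      · exact h1 j h
      · exact h2
    · intro h1
      exact ⟨fun j hj => h1 j (by omega), h1 b (by omega)⟩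

/-- put the first `b` values of `f` in front of a valuation -/
def app (b : ℕ) (f v : ℕ → V) : ℕ → V := fun n => if n < b then f n else v (n - b)

/-- a block of bounded existential quantifiers -/
lemma exs (b j : ℕ) {R : (ℕ → V) → Prop} (h : IsD0 R) :
    IsD0 fun v => ∃ f : ℕ → V, (∀ i < b, f i ∈ v j) ∧ R (app b f v) := by
  induction b generalizing R with
  | zero =>
    refine h.congr fun v => ?_
    have : ∀ f : ℕ → V, app 0 f v = v := fun f => by
      funext n
      simp [app]
    simp [this]
  | succ b ih =>
    -- first choose the value number `b`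
    have h1 := ih (R := fun v => ∃ x ∈ v (j + b), R (fun n => if n < b then v n else
      if n = b then x else v (n - 1))) (by
        refine ex (j + b) (R := fun x v => R (fun n => if n < b then v n else
          if n = b then x else v (n - 1))) ?_
        refine (h.subst (fun n => if n < b then n + 1 else if n = b then 0 else n)).congr
          fun v => ?_
        have : (v ∘ fun n => if n < b then n + 1 else if n = b then 0 else n) =
            (fun n => if n < b then v (n + 1) else if n = b then v 0 else v (n - 1 + 1)) := by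
          funext n
          simp only [Function.comp_apply]
          by_cases h1 : n < b
          · simp [h1]
          · by_cases h2 : n = b
            · simp [h2]
            · simp only [h1, h2, if_false]
              congr 1
              omega
        rw [this])
    refine h1.congr fun v => ?_
    constructor
    · rintro ⟨f, h2, x, h3, h4⟩
      refine ⟨fun n => if n < b then f n else x, fun i hi => ?_, ?_⟩
      · by_cases hib : i < b
        · simp only [hib, if_true]
          exact h2 i hib
        · simp only [hib, if_false]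
          have : app b f v (j + b) = v j := by simp [app]
          rwa [this] at h3
      · convert h4 using 1
        funext n
        unfold app
        by_cases h5 : n < b
        · simp [h5, show n < b + 1 by omega]
        · by_cases h6 : n = b
          · simp [h6]
          · simp only [h5, h6, show ¬ n < b + 1 by omega, show ¬ n - 1 < b by omega, if_false]
            congr 1
            omega
    · rintro ⟨f, h2, h3⟩
      refine ⟨f, fun i hi => h2 i (by omega), f b, ?_, ?_⟩
      · have : app b f v (j + b) = v j := by simp [app]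
        rw [this]
        exact h2 b (by omega)
      · convert h3 using 1
        funext n
        unfold app
        by_cases h5 : n < b
        · simp [h5, show n < b + 1 by omega]
        · by_cases h6 : n = b
          · simp [h6]
          · simp only [h5, h6, show ¬ n < b + 1 by omega, show ¬ n - 1 < b by omega, if_false]
            congr 1
            omega

end IsD0

end Pool.Agent.SigOne
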