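import Pool.Agent.Work.MP_680e5b_lc.PartA
import Pool.Agent.Work.MP_680e5b_lc.Subst

/-!
# Closure properties of the definable clubs
-/

namespace Pool.Agent.SigOne

open Cardinal Ordinal Set

namespace IsD0

lemma satval (φ : Fml) (i j : ℕ) (g : ℕ → ℕ) :
    IsD0 fun v => Sat φ (val (v i) (v j) (fun n => v (g n))) := by
  have h : IsD0 fun v => Sat φ v := ⟨φ, fun _ => Iff.rfl⟩
  refine (h.subst (fun n => match n with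
    | 0 => i
    | 1 => j
    | n + 2 => g n)).congr fun v => ?_
  have : (v ∘ fun n => match n with
    | 0 => i
    | 1 => j
    | n + 2 => g n) = val (v i) (v j) (fun n => v (g n)) := by
    funext n
    match n with
    | 0 => rfl
    | 1 => rfl
    | n + 2 => rfl
  rw [this]

end IsD0

lemma code_inter (C D : Set Ordinal.{0}) (hC : ∀ α ∈ C, α < ω_ ω) (hD : ∀ α ∈ D, α < ω_ ω)
    {z : V} : z ∈ code (C ∩ D) ↔ z ∈ code C ∧ z ∈ code D := by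
  rw [mem_code hC, mem_code hD, mem_code (fun α h => hC α h.1)]
  constructor
  · rintro ⟨ξ, ⟨h1, h2⟩, rfl⟩
    exact ⟨⟨ξ, h1, rfl⟩, ξ, h2, rfl⟩
  · rintro ⟨⟨ξ, h1, rfl⟩, ζ, h2, h3⟩
    rw [Ordinal.toZFSet_injective h3] at h2
    exact ⟨ξ, ⟨h1, h2⟩, rfl⟩

/-- interleave two sequences -/
def mix (v v' : ℕ → V) : ℕ → V := fun n => if n % 2 = 0 then v (n / 2) else v' (n / 2)

lemma mix_even (v v' : ℕ → V) (n : ℕ) : mix v v' (2 * n) = v n := by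
  unfold mix
  rw [if_pos (by omega)]
  congr 1
  omega

lemma mix_odd (v v' : ℕ → V) (n : ℕ) : mix v v' (2 * n + 1) = v' n := by
  unfold mix
  rw [if_neg (by omega)]
  congr 1
  omega

/-- the formula for an intersection -/
lemma isD0_inter (φ ψ : Fml) : IsD0 fun v => ∃ c ∈ v 1, ∃ u ∈ v 1, ∃ c' ∈ v 1, ∃ u' ∈ v 1,
    Sat φ (val c u fun n => v (2 * n + 2)) ∧ Sat ψ (val c' u' fun n => v (2 * n + 3)) ∧
      (∀ z ∈ v 0, z ∈ c ∧ z ∈ c') ∧ ∀ z ∈ c, z ∈ c' → z ∈ v 0 := by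
  refine IsD0.ex 1 (R := fun c v => ∃ u ∈ v 1, ∃ c' ∈ v 1, ∃ u' ∈ v 1,
    Sat φ (val c u fun n => v (2 * n + 2)) ∧ Sat ψ (val c' u' fun n => v (2 * n + 3)) ∧
      (∀ z ∈ v 0, z ∈ c ∧ z ∈ c') ∧ ∀ z ∈ c, z ∈ c' → z ∈ v 0) ?_
  refine IsD0.ex 2 (R := fun u v => ∃ c' ∈ v 2, ∃ u' ∈ v 2,
    Sat φ (val (v 0) u fun n => v (2 * n + 3)) ∧ Sat ψ (val c' u' fun n => v (2 * n + 4)) ∧
      (∀ z ∈ v 1, z ∈ v 0 ∧ z ∈ c') ∧ ∀ z ∈ v 0, z ∈ c' → z ∈ v 1) ?_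
  refine IsD0.ex 3 (R := fun c' v => ∃ u' ∈ v 3,
    Sat φ (val (v 1) (v 0) fun n => v (2 * n + 4)) ∧ Sat ψ (val c' u' fun n => v (2 * n + 5)) ∧
      (∀ z ∈ v 2, z ∈ v 1 ∧ z ∈ c') ∧ ∀ z ∈ v 1, z ∈ c' → z ∈ v 2) ?_
  refine IsD0.ex 4 (R := fun u' v =>
    Sat φ (val (v 2) (v 1) fun n => v (2 * n + 5)) ∧
      Sat ψ (val (v 0) u' fun n => v (2 * n + 6)) ∧
      (∀ z ∈ v 3, z ∈ v 2 ∧ z ∈ v 0) ∧ ∀ z ∈ v 2, z ∈ v 0 → z ∈ v 3) ?_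
  refine (IsD0.satval φ 3 2 (fun n => 2 * n + 6)).and
    ((IsD0.satval ψ 1 0 (fun n => 2 * n + 7)).and (IsD0.and ?_ ?_))
  · exact IsD0.all 4 (R := fun z v => z ∈ v 3 ∧ z ∈ v 1) ((IsD0.mem 0 4).and (IsD0.mem 0 2))
  · exact IsD0.all 3 (R := fun z v => z ∈ v 1 → z ∈ v 4) ((IsD0.mem 0 2).imp (IsD0.mem 0 5))

lemma def_inter {φ ψ : Fml} {v v' : ℕ → V} {C D : Set Ordinal.{0}}
    (hC : ∀ α ∈ C, α < ω_ ω) (hD : ∀ α ∈ D, α < ω_ ω) (h : Def φ v (code C))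
    (h' : Def ψ v' (code D)) : ∃ χ, Def χ (mix v v') (code (C ∩ D)) := by
  obtain ⟨χ, hχ⟩ := isD0_inter φ ψ
  refine ⟨χ, fun y => ?_⟩
  have hval : ∀ w, Sat χ (val y w (mix v v')) ↔ ∃ c ∈ w, ∃ u ∈ w, ∃ c' ∈ w, ∃ u' ∈ w,
    Sat φ (val c u v) ∧ Sat ψ (val c' u' v') ∧
      (∀ z ∈ y, z ∈ c ∧ z ∈ c') ∧ ∀ z ∈ c, z ∈ c' → z ∈ y := by
    intro w
    rw [hχ]
    change (∃ c ∈ w, ∃ u ∈ w, ∃ c' ∈ w, ∃ u' ∈ w,
      Sat φ (val c u fun n => mix v v' (2 * n)) ∧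
      Sat ψ (val c' u' fun n => mix v v' (2 * n + 1)) ∧
      (∀ z ∈ y, z ∈ c ∧ z ∈ c') ∧ ∀ z ∈ c, z ∈ c' → z ∈ y) ↔ _
    simp only [mix_even, mix_odd]
  constructor
  · rintro ⟨w, hw⟩
    obtain ⟨c, -, u, -, c', -, u', -, h1, h2, h3, h4⟩ := (hval w).1 hw
    have h5 := (h c).1 ⟨u, h1⟩
    have h6 := (h' c').1 ⟨u', h2⟩
    subst h5 h6
    ext z
    rw [code_inter C D hC hD]
    exact ⟨h3 z, fun h7 => h4 z h7.1 h7.2⟩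
  · rintro rfl
    obtain ⟨u, hu⟩ := (h (code C)).2 rfl
    obtain ⟨u', hu'⟩ := (h' (code D)).2 rfl
    refine ⟨{code C, u, code D, u'}, (hval _).2 ⟨code C, by simp, u, by simp, code D, by simp,
      u', by simp, hu, hu', ?_, ?_⟩⟩
    · intro z hz
      exact (code_inter C D hC hD).1 hz
    · intro z h1 h2
      exact (code_inter C D hC hD).2 ⟨h1, h2⟩

/-- a closed set that contains almost all `ω_n` is a club -/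
lemma club_of_omega {C : Set Ordinal.{0}} (h1 : ∀ α ∈ C, α < ω_ ω)
    (h2 : ∀ α < ω_ ω, α ≠ 0 → (∀ β < α, ∃ γ ∈ C, β < γ ∧ γ < α) → α ∈ C)
    (h3 : ∃ n₀ : ℕ, ∀ n ≥ n₀, (ω_ (n : ℕ) : Ordinal.{0}) ∈ C) : Club (ω_ ω) C := by
  refine ⟨h1, fun α hα => ?_, h2⟩
  obtain ⟨n₀, hn₀⟩ := h3
  obtain ⟨m, hm⟩ := exists_lt_omega hα
  refine ⟨_, hn₀ (max n₀ m) (le_max_left _ _), hm.trans_le ?_⟩
  rw [Ordinal.omega_le_omega]
  exact_mod_cast le_max_right _ _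

lemma sigClub_mem (hJ : IsJonsson (ℵ_ ω)) {C : Set Ordinal.{0}} (hC : SigClub C) :
    ∃ n₀ : ℕ, ∀ n ≥ n₀, (ω_ (n : ℕ) : Ordinal.{0}) ∈ C := by
  obtain ⟨m₀, hm₀⟩ := exists_core hJ
  obtain ⟨hC, ψ, v', hv', hψ⟩ := hC
  obtain ⟨k₂, hk₂⟩ := exists_level (bnd ψ) hv'
  refine ⟨max m₀ k₂ + 1, fun n hn => ?_⟩
  obtain ⟨k, rfl⟩ : ∃ k, n = k + 1 := ⟨n - 1, by omega⟩
  exact hm₀ k (by omega) ψ _ C (hk₂ k (by omega)) hC (def_trunc hψ)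

theorem SigClub.inter (hJ : IsJonsson (ℵ_ ω)) {C D : Set Ordinal.{0}} (hC : SigClub C)
    (hD : SigClub D) : SigClub (C ∩ D) := by
  obtain ⟨n₁, hn₁⟩ := sigClub_mem hJ hC
  obtain ⟨n₂, hn₂⟩ := sigClub_mem hJ hD
  obtain ⟨hC, φ, v, hv, hφ⟩ := hC
  obtain ⟨hD, ψ, v', hv', hψ⟩ := hD
  refine ⟨club_of_omega (fun α h => hC.lt α h.1) ?_ ⟨max n₁ n₂, fun n hn =>
    ⟨hn₁ n ((le_max_left _ _).trans hn), hn₂ n ((le_max_right _ _).trans hn)⟩⟩, ?_⟩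
  · intro α hα h0 h
    refine ⟨hC.closed α hα h0 fun β hβ => ?_, hD.closed α hα h0 fun β hβ => ?_⟩
    · obtain ⟨γ, h1, h2⟩ := h β hβ
      exact ⟨γ, h1.1, h2⟩
    · obtain ⟨γ, h1, h2⟩ := h β hβ
      exact ⟨γ, h1.2, h2⟩
  · obtain ⟨χ, hχ⟩ := def_inter hC.lt hD.lt hφ hψ
    refine ⟨χ, mix v v', fun n => ?_, hχ⟩
    unfold mix
    split
    · exact hv _
    · exact hv' _

/-- the ordinals between `ρ` and `ω_ω` -/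
lemma inP_ord {ρ : Ordinal.{0}} (hρ : ρ < ω_ ω) : InP ρ.toZFSet := by
  left
  refine ⟨ρ.toZFSet, (ZFSet.isOrdinal_toZFSet ρ).isTransitive, fun x hx => hx, ?_⟩
  rw [Ordinal.card_toZFSet, ← Cardinal.lt_omega_iff_card_lt]
  exact hρ

theorem sigClub_Ioo {ρ : Ordinal.{0}} (hρ : ρ < ω_ ω) : SigClub (Ioo ρ (ω_ ω)) := by
  have hlim : Order.IsSuccLimit (ω_ ω : Ordinal.{0}) := Cardinal.isSuccLimit_omega _
  refine ⟨⟨fun α h => h.2, fun α hα => ?_, fun α hα h0 h => ?_⟩, ?_⟩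
  · refine ⟨max α ρ + 1, ⟨?_, ?_⟩, ?_⟩
    · exact (le_max_right α ρ).trans_lt (lt_add_one _)
    · rw [← Order.succ_eq_add_one]
      exact hlim.succ_lt (max_lt hα hρ)
    · exact (le_max_left α ρ).trans_lt (lt_add_one _)
  · obtain ⟨γ, h1, h2, h3⟩ := h 0 (pos_iff_ne_zero.2 h0)
    exact ⟨h1.1.trans h3, hα⟩
  · have h1 : IsD0 fun v => (∀ z ∈ v 0, z ∈ v 2 ∧ v 3 ∈ z) ∧ ∀ z ∈ v 2, v 3 ∈ z → z ∈ v 0 := by
      refine IsD0.and ?_ ?_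
      · exact IsD0.all 0 (R := fun z v => z ∈ v 2 ∧ v 3 ∈ z) ((IsD0.mem 0 3).and (IsD0.mem 4 0))
      · exact IsD0.all 2 (R := fun z v => v 3 ∈ z → z ∈ v 0) ((IsD0.mem 4 0).imp (IsD0.mem 0 1))
    obtain ⟨χ, hχ⟩ := h1
    refine ⟨χ, fun n => if n = 0 then Om else ρ.toZFSet, fun n => ?_, fun y => ?_⟩
    · by_cases hn : n = 0
      · simp only [hn, if_true]
        exact Or.inr rfl
      · simp only [hn, if_false]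
        exact inP_ord hρ
    · have hlt : ∀ α ∈ Ioo ρ (ω_ ω), α < ω_ ω := fun α h => h.2
      have hc : ∀ z, z ∈ code (Ioo ρ (ω_ ω)) ↔ z ∈ Om ∧ ρ.toZFSet ∈ z := by
        intro z
        rw [mem_code hlt, mem_Om]
        constructor
        · rintro ⟨ξ, h, rfl⟩
          exact ⟨⟨ξ, h.2, rfl⟩, Ordinal.toZFSet_mem_toZFSet_iff.2 h.1⟩
        · rintro ⟨⟨ξ, h, rfl⟩, h'⟩
          exact ⟨ξ, ⟨Ordinal.toZFSet_mem_toZFSet_iff.1 h', h⟩, rfl⟩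
      have hval : ∀ w, Sat χ (val y w fun n => if n = 0 then Om else ρ.toZFSet) ↔
          (∀ z ∈ y, z ∈ Om ∧ ρ.toZFSet ∈ z) ∧ ∀ z ∈ Om, ρ.toZFSet ∈ z → z ∈ y := by
        intro w
        rw [hχ]
        rfl
      constructor
      · rintro ⟨w, hw⟩
        obtain ⟨h2, h3⟩ := (hval w).1 hw
        ext z
        rw [hc]
        exact ⟨h2 z, fun h => h3 z h.1 h.2⟩
      · rintro rfl
        exact ⟨∅, (hval _).2 ⟨fun z hz => (hc z).1 hz, fun z h2 h3 => (hc z).2 ⟨h2, h3⟩⟩⟩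

end Pool.Agent.SigOne
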