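import Pool.Agent.Work.MP_680e5b_lc.Jon

/-!
# Jónsson submodels containing a given small set
-/

namespace Pool.Agent.SigOne

open Cardinal Ordinal Set

universe v

lemma exists_bound {k : ℕ} {S : Set Ordinal.{0}} (hS : #S ≤ ℵ_ k)
    (h : ∀ ξ ∈ S, ξ < ω_ (k + 1 : ℕ)) :
    ∃ β < (ω_ (k + 1 : ℕ) : Ordinal.{0}), ∀ ξ ∈ S, ξ < β := by
  refine ⟨sSup ((· + 1) '' S), Ordinal.sSup_add_one_lt_of_lt_cof ?_ h, fun ξ hξ => ?_⟩
  · rw [Ordinal.lift_omega]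
    push_cast
    rw [Ordinal.lift_add, Ordinal.lift_natCast, Ordinal.lift_one, Cardinal.cof_omega_add_one]
    refine hS.trans_lt ?_
    rw [Cardinal.aleph_lt_aleph]
    exact lt_add_one _
  · refine lt_of_lt_of_le (lt_add_one ξ) (le_csSup ?_ (Set.mem_image_of_mem _ hξ))
    refine ⟨ω_ (k + 1 : ℕ), ?_⟩
    rintro _ ⟨ζ, hζ, rfl⟩
    exact Order.add_one_le_iff.2 (h ζ hζ)

/-- the ordinals of `X` -/
def ordPart {N : Type 1} (ι : O → N) (X : Set N) : Set Ordinal.{0} :=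
  {ξ | ∃ h : ξ < ω_ ω, ι ⟨ξ, h⟩ ∈ X}

lemma card_ordPart {N : Type 1} (ι : O → N) (X : Set N) : #(ordPart ι X) = #(ι ⁻¹' X) := by
  refine Cardinal.mk_congr ⟨fun ξ => ⟨⟨ξ.1, ξ.2.1⟩, ξ.2.2⟩, fun ξ => ⟨ξ.1.1, ξ.1.2, ξ.2⟩,
    fun ξ => rfl, fun ξ => rfl⟩

open Classical in
/-- the three operations on ordinals -/
noncomputable def T3 : ℕ → List O → O := fun i l => match i, l with
  | 0, [α, ξ] => if h : bij α.1 ξ.1 < ω_ ω then ⟨_, h⟩ else α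
  | 1, [α, ξ] => if h : inv α.1 ξ.1 < ω_ ω then ⟨_, h⟩ else α
  | 2, [α] => if h : ∃ n : ℕ, α.1 = n + 1 then
      ⟨(h.choose : Ordinal), (Ordinal.natCast_lt_omega0 _).trans_le
        ((Ordinal.omega0_le_omega ω))⟩ else α
  | _, _ => ⟨0, Ordinal.omega_pos _⟩

lemma gd_of_closed {N : Type 1} {ι : O → N} {X : Set N}
    (h : ∀ i (l : List O), (∀ ξ ∈ l, ι ξ ∈ X) → ι (T3 i l) ∈ X) : Gd (ordPart ι X) := by
  refine ⟨?_, ?_, ?_⟩
  · rintro α ⟨hα, hα'⟩ ξ ⟨hξ, hξ'⟩ hlt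
    have h1 : bij α ξ < ω_ ω :=
      ((bij_lt hlt).trans_le (Cardinal.ord_card_le α)).trans hα
    have h2 := h 0 [⟨α, hα⟩, ⟨ξ, hξ⟩] (by simp [hα', hξ'])
    have h3 : T3 0 [⟨α, hα⟩, ⟨ξ, hξ⟩] = ⟨bij α ξ, h1⟩ := dif_pos h1
    rw [h3] at h2
    exact ⟨h1, h2⟩
  · rintro α ⟨hα, hα'⟩ ξ hlt ⟨hξ, hξ'⟩
    have h2 := h 1 [⟨α, hα⟩, ⟨bij α ξ, hξ⟩] (by simp [hα', hξ'])
    have h1 : inv α (bij α ξ) < ω_ ω := by
      rw [inv_bij hlt]
      exact hlt.trans hα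
    have h3 : T3 1 [⟨α, hα⟩, ⟨bij α ξ, hξ⟩] = ⟨inv α (bij α ξ), h1⟩ := dif_pos h1
    rw [h3] at h2
    refine ⟨hlt.trans hα, ?_⟩
    convert h2 using 2
    exact Subtype.ext (inv_bij hlt).symm
  · rintro n ⟨hn, hn'⟩
    have h2 := h 2 [⟨((n + 1 : ℕ) : Ordinal), hn⟩] (by simpa using hn')
    have hex : ∃ m : ℕ, ((n + 1 : ℕ) : Ordinal.{0}) = m + 1 := ⟨n, by push_cast; rfl⟩
    have h3 : T3 2 [⟨((n + 1 : ℕ) : Ordinal), hn⟩] = ⟨(hex.choose : Ordinal),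
        (Ordinal.natCast_lt_omega0 _).trans_le ((Ordinal.omega0_le_omega ω))⟩ := dif_pos hex
    have h4 : hex.choose = n := by
      have h5 := hex.choose_spec
      have h6 : ((n + 1 : ℕ) : Ordinal.{0}) = ((hex.choose + 1 : ℕ) : Ordinal.{0}) :=
        h5.trans (by push_cast; rfl)
      have h7 := Nat.cast_injective h6
      omega
    rw [h3] at h2
    refine ⟨(Ordinal.natCast_lt_omega0 _).trans_le ((Ordinal.omega0_le_omega ω)), ?_⟩
    convert h2 using 3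
    rw [h4]

/-- the operations `F` together with the three operations on ordinals -/
noncomputable def comb {N : Type 1} (ι : O → N) (F : ℕ → List N → N) : ℕ → List N → N :=
  fun i l => if i < 3 then ι (T3 i (l.map (@Function.invFun _ _ ⟨⟨0, Ordinal.omega_pos _⟩⟩ ι)))
    else F (i - 3) l

lemma cl_of_comb {N : Type 1} {ι : O → N} {F : ℕ → List N → N} {X : Set N}
    (h : Cl (comb ι F) X) : Cl F X := by
  intro i l hl
  have := h (i + 3) l hl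
  unfold comb at this
  simpa using this

lemma gd_of_comb {N : Type 1} {ι : O → N} (hι : Function.Injective ι) {F : ℕ → List N → N}
    {X : Set N} (h : Cl (comb ι F) X) : Gd (ordPart ι X) := by
  apply gd_of_closed
  intro i l hl
  by_cases hi : i < 3
  · have h1 := h i (l.map ι) (by
      intro x hx
      obtain ⟨ξ, hξ, rfl⟩ := List.mem_map.1 hx
      exact hl ξ hξ)
    unfold comb at h1
    rw [if_pos hi, List.map_map] at h1
    have h2 : (@Function.invFun _ _ ⟨⟨0, Ordinal.omega_pos _⟩⟩ ι) ∘ ι = id := by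
      exact funext (@Function.leftInverse_invFun _ _ ⟨⟨0, Ordinal.omega_pos _⟩⟩ _ hι)
    rw [h2, List.map_id] at h1
    exact h1
  · have h1 := h 2 [] (by simp)
    have h2 : comb ι F 2 [] = ι ⟨0, Ordinal.omega_pos _⟩ := by
      unfold comb
      rw [if_pos (by norm_num)]
      rfl
    rw [h2] at h1
    have h3 : T3 i l = ⟨0, Ordinal.omega_pos _⟩ := by
      match i, hi with
      | (i + 3), _ => rfl
    rw [h3]
    exact h1

/-- projections `Ξ → Ξ` such that every finite sequence is the sequence of projections -/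
lemma exists_proj (Ξ : Type 1) [Infinite Ξ] : ∃ π : ℕ → Ξ → Ξ, ∀ l : List Ξ, ∃ ξ : Ξ,
    ∀ (j : ℕ) (h : j < l.length), π j ξ = l[j] := by
  have h1 : #(List Ξ) ≤ #Ξ := (Cardinal.mk_list_eq_mk Ξ).le
  obtain ⟨e⟩ := Cardinal.le_def _ _ |>.1 h1
  have hne : Nonempty Ξ := inferInstance
  refine ⟨fun j ξ => (Function.invFun e ξ).getD j (Classical.arbitrary Ξ), fun l => ⟨e l, ?_⟩⟩
  intro j h
  dsimp only
  rw [Function.leftInverse_invFun e.injective]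
  simp [h]

theorem good (hJ : IsJonsson (ℵ_ ω)) : ∃ m₀ : ℕ, ∀ k : ℕ, m₀ ≤ k + 1 → ∀ {N : Type 1}
    (ι : O → N) (_ : Function.Injective ι) (F : ℕ → List N → N) (A : Set N)
    (_ : #A ≤ ℵ_ k), ∃ X : Set N, Cl F X ∧ A ⊆ X ∧ Gd (ordPart ι X) ∧ #(ordPart ι X) = ℵ_ ω ∧
      (∀ ξ < ω_ k, ξ ∈ ordPart ι X) ∧
      (∃ χ < (ω_ (k + 1 : ℕ) : Ordinal.{0}), ∀ ξ < ω_ (k + 1 : ℕ), ξ ∈ ordPart ι X ↔ ξ < χ) ∧
      ∀ m : ℕ, k + 1 ≤ m → #(ordPart ι X ∩ Iio (ω_ m) : Set Ordinal.{0}) < ℵ_ m := by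
  obtain ⟨m₀, hm₀⟩ := exists_X hJ
  refine ⟨m₀, fun k hk {N} ι hι F₀ A hA => ?_⟩
  have hO : Nonempty O := ⟨⟨0, Ordinal.omega_pos _⟩⟩
  have hN : Nonempty N := hO.map ι
  -- the index set of the sequences
  let Ξ : Type 1 := {ξ : Ordinal.{0} // ξ < ω_ k}
  have hΞ : #Ξ = ℵ_ k := card_Iio_omega k
  have hΞinf : Infinite Ξ := by
    rw [Cardinal.infinite_iff, hΞ]
    exact Cardinal.aleph0_le_aleph _
  obtain ⟨π, hπ⟩ := exists_proj Ξ
  -- the enumeration of `A`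
  obtain ⟨a, ha⟩ : ∃ a : Ξ → N, A ⊆ range a := by
    rw [← hΞ] at hA
    obtain ⟨e⟩ := Cardinal.le_def _ _ |>.1 hA
    by_cases hAe : Nonempty A
    · refine ⟨fun ξ => (Function.invFun e ξ).1, fun x hx => ⟨e ⟨x, hx⟩, ?_⟩⟩
      dsimp only
      rw [Function.leftInverse_invFun e.injective]
    · refine ⟨fun _ => Classical.arbitrary N, fun x hx => (hAe ⟨⟨x, hx⟩⟩).elim⟩
  have hklt : ∀ ξ : Ξ, ξ.1 < ω_ ω := fun ξ => ξ.2.trans (omega_lt k)
  let F := comb ι F₀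
  -- bounds
  have hbd : ∀ f : Ξ → N, ∃ β < (ω_ (k + 1 : ℕ) : Ordinal.{0}),
      ∀ ξ (h : ξ < ω_ ω), ξ < ω_ (k + 1 : ℕ) → (∃ ζ, f ζ = ι ⟨ξ, h⟩) → ξ < β := by
    intro f
    let S : Set Ordinal.{0} :=
      {ξ | ∃ h : ξ < ω_ ω, ξ < ω_ (k + 1 : ℕ) ∧ ∃ ζ, f ζ = ι ⟨ξ, h⟩}
    have hS : #S ≤ ℵ_ k := by
      rw [← hΞ]
      refine Cardinal.mk_le_of_injective (f := fun x : S => x.2.2.2.choose) ?_
      intro x y hxy
      have h1 := x.2.2.2.choose_spec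
      have h2 := y.2.2.2.choose_spec
      have h3 : f (x.2.2.2.choose) = f (y.2.2.2.choose) := congrArg f hxy
      rw [h1, h2] at h3
      have h4 : x.1 = y.1 := Subtype.mk.inj (hι h3)
      exact Subtype.ext h4
    obtain ⟨β, hβ, hβ'⟩ := exists_bound hS (fun ξ hξ => hξ.2.1)
    exact ⟨β, hβ, fun ξ h1 h2 h3 => hβ' ξ ⟨h1, h2, h3⟩⟩
  choose bd hbd1 hbd2 using hbd
  have hbd3 : ∀ f, bd f < ω_ ω := fun f => (hbd1 f).trans (omega_lt _)
  -- the operations on functions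
  let G : ℕ → List (Ξ → N) → (Ξ → N) := fun i l => match i with
    | 0 => a
    | 1 => fun ξ => ι ⟨ξ.1, hklt ξ⟩
    | 2 => match l with
      | [f] => fun _ => ι ⟨bd f, hbd3 f⟩
      | _ => a
    | i + 3 => fun ξ => F i (l.mapIdx (fun j f => f (π j ξ)))
  let c : O → (Ξ → N) := fun ξ _ => ι ξ
  have hne : Nonempty Ξ := inferInstance
  have hc : Function.Injective c := fun x y hxy => hι (congrFun hxy (Classical.arbitrary Ξ))
  obtain ⟨Φ, hΦ1, hΦ2, hΦ3⟩ := exists_hull G (range c) (mk_O ▸ Cardinal.mk_range_le)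
  have hΦc : ∀ ξ, c ξ ∈ Φ := fun ξ => hΦ1 ⟨ξ, rfl⟩
  let c' : O → Φ := fun ξ => ⟨c ξ, hΦc ξ⟩
  have hc' : Function.Injective c' := fun x y hxy => hc (congrArg Subtype.val hxy)
  have hΦ4 : #Φ = ℵ_ ω := le_antisymm hΦ3 (by
    rw [← mk_O]
    exact Cardinal.mk_le_of_injective hc')
  let G' : ℕ → List Φ → Φ := fun i l => ⟨G i (l.map Subtype.val), hΦ2 i _ (by
    intro x hx
    obtain ⟨y, _, rfl⟩ := List.mem_map.1 hx
    exact y.2)⟩
  obtain ⟨Y, hY1, hY2, ξ₀, hξ₀, hξ₀'⟩ := hm₀ hΦ4 c' hc' (comb c' G')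
  have hYG := cl_of_comb hY1
  have hYgd := gd_of_comb hc' hY1
  have hYcard : ∀ m : ℕ, m₀ ≤ m → #(ordPart c' Y ∩ Iio (ω_ m) : Set Ordinal.{0}) < ℵ_ m := by
    intro m hm
    refine lt_of_le_of_ne ?_ ?_
    · rw [← card_Iio_omega]
      exact Cardinal.mk_le_mk_of_subset Set.inter_subset_right
    · intro h
      have h1 := stepA hYgd m h
      have h2 : ξ₀.1 < ω_ m := hξ₀.trans_le (by
        rw [Ordinal.omega_le_omega]
        exact_mod_cast hm)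
      obtain ⟨h3, h4⟩ := h1 h2
      exact hξ₀' h4
  -- the submodel
  let X : Set N := {n | ∃ f ∈ Y, ∃ ζ : Ξ, f.1 ζ = n}
  have hXF : Cl F X := by
    intro i l hl
    have hΦne : Nonempty Φ := hO.map c'
    choose! f hf ζ hζ using hl
    obtain ⟨ξ, hξ⟩ := hπ (l.map ζ)
    refine ⟨_, hYG (i + 3) (l.map f) ?_, ξ, ?_⟩
    · intro x hx
      obtain ⟨y, hy, rfl⟩ := List.mem_map.1 hx
      exact hf y hy
    · change F i ((((l.map f).map Subtype.val)).mapIdx (fun j g => g (π j ξ))) = F i l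
      congr 1
      apply List.ext_getElem
      · simp
      · intro j h1 h2
        have h3 : π j ξ = ζ l[j] := by
          rw [hξ j (by simpa using h2)]
          simp
        simp only [List.getElem_mapIdx, List.getElem_map, h3]
        exact hζ _ (List.getElem_mem h2)
  have hXgd := gd_of_comb hι hXF
  have hYX : ordPart c' Y ⊆ ordPart ι X := by
    rintro ξ ⟨h1, h2⟩
    exact ⟨h1, _, h2, Classical.arbitrary Ξ, rfl⟩
  have hklow : ∀ ξ < ω_ k, ξ ∈ ordPart ι X := by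
    intro ξ hξ
    exact ⟨hξ.trans (omega_lt k), _, hYG 1 [] (by simp), ⟨ξ, hξ⟩, rfl⟩
  -- bounded in `ω_{k+1}`
  obtain ⟨β, hβ1, hβ2⟩ : ∃ β < (ω_ (k + 1 : ℕ) : Ordinal.{0}),
      ∀ ξ ∈ (ordPart c' Y ∩ Iio (ω_ (k + 1 : ℕ)) : Set Ordinal.{0}), ξ < β := by
    refine exists_bound ?_ (fun ξ hξ => hξ.2)
    have h1 := hYcard (k + 1) hk
    push_cast at h1 ⊢
    rwa [← Cardinal.succ_aleph, Order.lt_succ_iff] at h1
  have hXβ : ∀ ξ ∈ ordPart ι X, ξ < ω_ (k + 1 : ℕ) → ξ < β := by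
    rintro ξ ⟨h1, f, hf, ζ, h2⟩ h3
    have h4 := hbd2 f.1 ξ h1 h3 ⟨ζ, h2⟩
    have h5 : bd f.1 ∈ ordPart c' Y := ⟨hbd3 f.1, hYG 2 [f] (by simpa using hf)⟩
    exact h4.trans (hβ2 _ ⟨h5, hbd1 f.1⟩)
  have hdown : ∀ ξ ∈ ordPart ι X, ξ < ω_ (k + 1 : ℕ) → ∀ ζ < ξ, ζ ∈ ordPart ι X := by
    intro ξ h1 h2 ζ h3
    refine hXgd.inv ξ h1 ζ h3 (hklow _ ((bij_lt h3).trans_le ?_))
    rw [← Cardinal.ord_aleph, Cardinal.ord_le_ord]
    have h4 : ξ.card < ℵ_ (k + 1 : ℕ) := by rwa [← Cardinal.lt_omega_iff_card_lt]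
    push_cast at h4
    rwa [← Cardinal.succ_aleph, Order.lt_succ_iff] at h4
  have hβX : β ∉ ordPart ι X := fun h => lt_irrefl _ (hXβ β h hβ1)
  let χ : Ordinal.{0} := sInf {γ | γ ∉ ordPart ι X}
  have hχ1 : χ ∉ ordPart ι X := csInf_mem (s := {γ | γ ∉ ordPart ι X}) ⟨β, hβX⟩
  have hχ2 : χ ≤ β := csInf_le' hβX
  have hχ3 : ∀ ξ < ω_ (k + 1 : ℕ), ξ ∈ ordPart ι X ↔ ξ < χ := by
    intro ξ hξ
    constructor
    · intro h
      by_contra h1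
      rcases (not_lt.1 h1).lt_or_eq with h2 | h2
      · exact hχ1 (hdown ξ h hξ χ h2)
      · exact hχ1 (h2 ▸ h)
    · intro h
      by_contra h1
      exact absurd (csInf_le' (s := {γ | γ ∉ ordPart ι X}) h1) (not_le.2 h)
  refine ⟨X, cl_of_comb hXF, ?_, hXgd, ?_, hklow, ⟨χ, hχ2.trans_lt hβ1, hχ3⟩, ?_⟩
  · intro x hx
    obtain ⟨ζ, hζ⟩ := ha hx
    exact ⟨_, hYG 0 [] (by simp), ζ, hζ⟩
  · apply le_antisymm
    · rw [card_ordPart, ← mk_O]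
      exact Cardinal.mk_set_le _
    · rw [← hY2, ← card_ordPart]
      exact Cardinal.mk_le_mk_of_subset hYX
  · intro m hm
    refine lt_of_le_of_ne ?_ ?_
    · rw [← card_Iio_omega]
      exact Cardinal.mk_le_mk_of_subset Set.inter_subset_right
    · intro h
      have h1 := stepA hXgd m h
      refine hχ1 (h1 (Set.mem_Iio.2 ((hχ2.trans_lt hβ1).trans_le ?_)))
      rw [Ordinal.omega_le_omega]
      exact_mod_cast hm

end Pool.Agent.SigOne
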