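import Pool.Agent.Work.MP_680e5b_lc.Fml
import Pool.Agent.Work.MP_680e5b_lc.GoodSub

/-!
# The transitive collapse of a class of sets closed under Skolem functions
-/

namespace Pool.Agent.SigOne

open Cardinal Ordinal Set

instance smallInter (X : Set V) (x : V) : Small.{0} {y : V // y ∈ x ∧ y ∈ X} := by
  have : Small.{0} x := ZFSet.small_coe x
  refine small_of_injective (β := x)
    (f := fun y : {y : V // y ∈ x ∧ y ∈ X} => (⟨y.1, y.2.1⟩ : x)) ?_
  intro y y' h
  exact Subtype.ext (Subtype.mk.inj h)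

/-- the collapse of `X` -/
noncomputable def coll (X : Set V) : V → V :=
  ZFSet.mem_wf.fix fun x ih => ZFSet.range (fun y : {y : V // y ∈ x ∧ y ∈ X} => ih y.1 y.2.1)

lemma mem_coll {X : Set V} {x z : V} : z ∈ coll X x ↔ ∃ y ∈ x, y ∈ X ∧ coll X y = z := by
  unfold coll
  rw [ZFSet.mem_wf.fix_eq, ZFSet.mem_range]
  constructor
  · rintro ⟨y, hy⟩
    exact ⟨y.1, y.2.1, y.2.2, hy⟩
  · rintro ⟨y, h1, h2, h3⟩
    exact ⟨⟨y, h1, h2⟩, h3⟩

lemma coll_mem {X : Set V} {x y : V} (h : y ∈ x) (hy : y ∈ X) : coll X y ∈ coll X x :=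
  mem_coll.2 ⟨y, h, hy, rfl⟩

/-- two different elements of `X` are separated by an element of `X` -/
def Ext (X : Set V) : Prop := ∀ x ∈ X, ∀ y ∈ X, (∀ z ∈ X, z ∈ x ↔ z ∈ y) → x = y

lemma coll_inj {X : Set V} (hX : Ext X) : ∀ x ∈ X, ∀ y ∈ X, coll X x = coll X y → x = y := by
  intro x
  induction x using ZFSet.inductionOn with
  | h x ih =>
    intro hx y hy hxy
    refine hX x hx y hy fun z hz => ⟨fun h => ?_, fun h => ?_⟩
    · have h1 : coll X z ∈ coll X y := hxy ▸ coll_mem h hz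
      obtain ⟨w, hw1, hw2, hw3⟩ := mem_coll.1 h1
      rw [ih z h hz w hw2 hw3.symm]
      exact hw1
    · have h1 : coll X z ∈ coll X x := hxy ▸ coll_mem h hz
      obtain ⟨w, hw1, hw2, hw3⟩ := mem_coll.1 h1
      rw [← ih w hw1 hw2 z hz hw3]
      exact hw1

lemma coll_mem_iff {X : Set V} (hX : Ext X) {x y : V} (hx : x ∈ X) :
    coll X x ∈ coll X y ↔ x ∈ y := by
  refine ⟨fun h => ?_, fun h => coll_mem h hx⟩
  obtain ⟨w, hw1, hw2, hw3⟩ := mem_coll.1 h
  rw [← coll_inj hX w hw2 x hx hw3]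
  exact hw1

/-- `X` contains counterexamples for the bounded quantifier of `ball i j φ` -/
def Wit (X : Set V) (φ : Fml) : Prop := ∀ i j χ, Fml.ball i j χ ∈ subs φ → ∀ v : ℕ → V,
  (∀ n, v n ∈ X) → (∃ x ∈ v j, ¬ Sat χ (Function.update v i x)) →
    ∃ x ∈ X, x ∈ v j ∧ ¬ Sat χ (Function.update v i x)

lemma Wit.mono {X : Set V} {φ ψ : Fml} (h : Wit X φ) (h' : ψ ∈ subs φ) : Wit X ψ :=
  fun i j χ hχ => h i j χ (subs_trans h' _ hχ)

lemma sat_coll {X : Set V} (hX : Ext X) {φ : Fml} (hφ : Wit X φ) {v : ℕ → V}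
    (hv : ∀ n, v n ∈ X) : Sat φ (coll X ∘ v) ↔ Sat φ v := by
  induction φ generalizing v with
  | mem i j => exact coll_mem_iff hX (hv i)
  | eq i j => exact ⟨coll_inj hX _ (hv i) _ (hv j), fun h => congrArg (coll X) h⟩
  | neg φ ih =>
    simp only [Sat]
    rw [ih (hφ.mono (by simp [subs, self_mem_subs])) hv]
  | and φ ψ ih1 ih2 =>
    simp only [Sat]
    rw [ih1 (hφ.mono (by simp [subs, self_mem_subs])) hv,
      ih2 (hφ.mono (by simp [subs, self_mem_subs])) hv]
  | ball i j φ ih =>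
    have hupd : ∀ x, coll X ∘ Function.update v i x = Function.update (coll X ∘ v) i (coll X x) := by
      intro x
      funext n
      by_cases hn : n = i
      · subst hn
        simp
      · simp [Function.update_of_ne hn]
    have hvx : ∀ x ∈ X, ∀ n, Function.update v i x n ∈ X := by
      intro x hx n
      by_cases hn : n = i
      · subst hn
        simpa using hx
      · rw [Function.update_of_ne hn]
        exact hv n
    have hφ' : Wit X φ := hφ.mono (by simp [subs, self_mem_subs])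
    simp only [Sat, Function.comp_apply]
    constructor
    · intro h
      by_contra h1
      push Not at h1
      obtain ⟨x, hx, hxj, hx'⟩ := hφ i j φ (self_mem_subs _) v hv h1
      have h2 := h _ (coll_mem hxj hx)
      rw [← hupd, ih hφ' (hvx x hx)] at h2
      exact hx' h2
    · intro h y hy
      obtain ⟨x, hx1, hx2, rfl⟩ := mem_coll.1 hy
      rw [← hupd, ih hφ' (hvx x hx2)]
      exact h x hx1

lemma coll_eq_self {X : Set V} {t : V} (ht : t.IsTransitive) (htX : ∀ x ∈ t, x ∈ X) :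
    ∀ x ∈ t, coll X x = x := by
  intro x
  induction x using ZFSet.inductionOn with
  | h x ih =>
    intro hx
    ext z
    rw [mem_coll]
    constructor
    · rintro ⟨y, h1, h2, rfl⟩
      rw [ih y h1 (ht.subset_of_mem hx h1)]
      exact h1
    · intro hz
      have h1 := ht.subset_of_mem hx hz
      exact ⟨z, hz, htX z h1, ih z hz h1⟩

lemma coll_eq_self' {X : Set V} {t : V} (ht : t.IsTransitive) (htX : ∀ x ∈ t, x ∈ X) :
    coll X t = t := by
  ext z
  rw [mem_coll]
  constructor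
  · rintro ⟨y, h1, h2, rfl⟩
    rw [coll_eq_self ht htX y h1]
    exact h1
  · intro hz
    exact ⟨z, hz, htX z hz, coll_eq_self ht htX z hz⟩

lemma isOrdinal_coll {X : Set V} (x : V) (hx : x.IsOrdinal) : (coll X x).IsOrdinal := by
  induction x using ZFSet.inductionOn with
  | h x ih =>
    rw [ZFSet.isOrdinal_iff_forall_mem_isOrdinal]
    refine ⟨?_, ?_⟩
    · intro z hz w hw
      obtain ⟨y, h1, h2, rfl⟩ := mem_coll.1 hz
      obtain ⟨y', h3, h4, rfl⟩ := mem_coll.1 hw
      exact mem_coll.2 ⟨y', hx.mem_trans h3 h1, h4, rfl⟩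
    · intro z hz
      obtain ⟨y, h1, h2, rfl⟩ := mem_coll.1 hz
      exact ih y h1 (hx.mem h1)

lemma rank_coll_le {X : Set V} (x : V) : (coll X x).rank ≤ x.rank := by
  induction x using ZFSet.inductionOn with
  | h x ih =>
    rw [ZFSet.rank_le_iff]
    intro z hz
    obtain ⟨y, h1, h2, rfl⟩ := mem_coll.1 hz
    exact (ih y h1).trans_lt (ZFSet.rank_lt_of_mem h1)

/-- the cardinality of the collapse of an element -/
lemma card_coll {X : Set V} (hX : Ext X) (x : V) :
    Cardinal.lift.{1} (coll X x).card = #{y : V // y ∈ x ∧ y ∈ X} := by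
  rw [← ZFSet.cardinalMk_coe_sort]
  symm
  refine Cardinal.mk_congr (Equiv.ofBijective
    (fun y => (⟨coll X y.1, coll_mem y.2.1 y.2.2⟩ : {z // z ∈ coll X x})) ⟨?_, ?_⟩)
  · intro y y' hyy
    exact Subtype.ext (coll_inj hX _ y.2.2 _ y'.2.2 (congrArg Subtype.val hyy))
  · rintro ⟨z, hz⟩
    obtain ⟨y, h1, h2, h3⟩ := mem_coll.1 hz
    exact ⟨⟨y, h1, h2⟩, Subtype.ext h3⟩

end Pool.Agent.SigOne
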