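import Pool.Agent.Work.MP_680e5b_lc.Coll

/-!
# Every club definable by a `Σ₁`-formula contains almost all `ω_n`
-/

namespace Pool.Agent.SigOne

open Cardinal Ordinal Set

/-- the set `ω_ω` -/
noncomputable def Om : V := (ω_ ω : Ordinal.{0}).toZFSet

/-- sets that belong to a transitive set of size at most `ℵ_k` -/
def Hs (k : ℕ) : Set V := {x | ∃ T : V, T.IsTransitive ∧ x ∈ T ∧ T.card ≤ ℵ_ k}

/-- the valuation `x_0 ↦ y, x_1 ↦ w, x_(n+2) ↦ v n` -/
def val (y w : V) (v : ℕ → V) : ℕ → V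
  | 0 => y
  | 1 => w
  | n + 2 => v n

/-- `x` is the unique set with `∃ w, φ (x, w, v)` -/
def Def (φ : Fml) (v : ℕ → V) (x : V) : Prop := ∀ y, (∃ w, Sat φ (val y w v)) ↔ y = x

/-- the set of ordinals below `ω_ω` in `C` -/
noncomputable def code (C : Set Ordinal.{0}) : V :=
  ZFSet.sep (fun x => ∃ ξ ∈ C, ξ.toZFSet = x) Om

/-- closed unbounded subsets of the ordinal `κ` -/
structure Club (κ : Ordinal.{0}) (C : Set Ordinal.{0}) : Prop where
  lt : ∀ α ∈ C, α < κ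
  unbounded : ∀ α < κ, ∃ β ∈ C, α < β
  closed : ∀ α < κ, α ≠ 0 → (∀ β < α, ∃ γ ∈ C, β < γ ∧ γ < α) → α ∈ C

/-- an element that distinguishes two sets -/
noncomputable def dif (x y : V) : V := by
  classical exact if h : ∃ z, ¬ (z ∈ x ↔ z ∈ y) then h.choose else ∅

/-- a counterexample for a bounded quantifier -/
noncomputable def wop (i j : ℕ) (χ : Fml) (l : List V) : V := by
  classical exact if h : ∃ x ∈ l.getD j ∅, ¬ Sat χ (Function.update (fun n => l.getD n ∅) i x)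
    then h.choose else ∅

/-- the operations for the formula `φ` -/
noncomputable def ops (φ : Fml) : ℕ → List V → V := fun n l => match n with
  | 0 => match l with
    | [x, y] => dif x y
    | _ => ∅
  | n + 1 => match (subs φ)[n]? with
    | some (.ball i j χ) => wop i j χ l
    | _ => ∅

lemma ext_of_cl {φ : Fml} {X : Set V} (h : Cl (ops φ) X) : Ext X := by
  intro x hx y hy hxy
  by_contra hne
  have h1 : ∃ z, ¬ (z ∈ x ↔ z ∈ y) := by
    by_contra h2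
    push Not at h2
    exact hne (ZFSet.ext h2)
  have h2 := h 0 [x, y] (by simp [hx, hy])
  have h3 : ops φ 0 [x, y] = h1.choose := by
    change dif x y = _
    unfold dif
    rw [dif_pos h1]
  rw [h3] at h2
  exact h1.choose_spec (hxy _ h2)

lemma wit_of_cl {φ : Fml} {X : Set V} (h : Cl (ops φ) X) : Wit X φ := by
  intro i j χ hχ v hv hex
  obtain ⟨n, hn, hn'⟩ := List.getElem_of_mem hχ
  have hb := bnd_le hχ
  simp only [bnd] at hb
  let l : List V := (List.range (bnd φ)).map v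
  have hl : ∀ m < bnd φ, l.getD m ∅ = v m := by
    intro m hm
    simp [l, hm]
  have h1 : ∀ x, Sat χ (Function.update (fun n => l.getD n ∅) i x) ↔
      Sat χ (Function.update v i x) := by
    intro x
    refine sat_congr fun m hm => ?_
    by_cases hmi : m = i
    · subst hmi
      simp
    · rw [Function.update_of_ne hmi, Function.update_of_ne hmi]
      exact hl m (by omega)
  have h2 : ∃ x ∈ l.getD j ∅, ¬ Sat χ (Function.update (fun n => l.getD n ∅) i x) := by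
    obtain ⟨x, hx, hx'⟩ := hex
    refine ⟨x, ?_, fun h => hx' ((h1 x).1 h)⟩
    rw [hl j (by omega)]
    exact hx
  have h3 := h (n + 1) l (by
    intro x hx
    obtain ⟨m, _, rfl⟩ := List.mem_map.1 hx
    exact hv m)
  have h4 : ops φ (n + 1) l = wop i j χ l := by
    unfold ops
    simp only [List.getElem?_eq_getElem hn, hn']
  have h5 : wop i j χ l = h2.choose := by
    unfold wop
    rw [dif_pos h2]
  rw [h4, h5] at h3
  obtain ⟨z, hz, hz1, hz2⟩ : ∃ z, z = h2.choose ∧ z ∈ l.getD j ∅ ∧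
      ¬ Sat χ (Function.update (fun n => l.getD n ∅) i z) :=
    ⟨_, rfl, h2.choose_spec.1, h2.choose_spec.2⟩
  rw [← hz] at h3
  rw [hl j (by omega)] at hz1
  exact ⟨z, h3, hz1, fun h => hz2 ((h1 _).2 h)⟩

/-- the ordinals below `ω_ω` as sets -/
noncomputable def io : O → V := fun ξ => ξ.1.toZFSet

lemma io_inj : Function.Injective io := fun _ _ h => Subtype.ext (Ordinal.toZFSet_injective h)

lemma mem_Om {x : V} : x ∈ Om ↔ ∃ ξ < ω_ ω, ξ.toZFSet = x := Ordinal.mem_toZFSet_iff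

lemma mem_code {C : Set Ordinal.{0}} (hC : ∀ α ∈ C, α < ω_ ω) {x : V} :
    x ∈ code C ↔ ∃ ξ ∈ C, ξ.toZFSet = x := by
  unfold code
  rw [ZFSet.mem_sep, mem_Om]
  constructor
  · rintro ⟨_, h⟩
    exact h
  · rintro ⟨ξ, h, rfl⟩
    exact ⟨⟨ξ, hC ξ h, rfl⟩, ξ, h, rfl⟩

lemma toZFSet_mem_code {C : Set Ordinal.{0}} (hC : ∀ α ∈ C, α < ω_ ω) {ξ : Ordinal.{0}} :
    ξ.toZFSet ∈ code C ↔ ξ ∈ C := by
  rw [mem_code hC]
  constructor
  · rintro ⟨ζ, h, h'⟩
    rwa [← Ordinal.toZFSet_injective h']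
  · intro h
    exact ⟨ξ, h, rfl⟩

/-- the cardinality of the collapse of an ordinal -/
lemma card_coll_ord {X : Set V} (hX : Ext X) {α : Ordinal.{0}} (hα : α ≤ ω_ ω) :
    Cardinal.lift.{1} (coll X α.toZFSet).card = #(ordPart io X ∩ Iio α : Set Ordinal.{0}) := by
  rw [card_coll hX]
  symm
  refine Cardinal.mk_congr (Equiv.ofBijective
    (fun ξ => (⟨ξ.1.toZFSet, Ordinal.toZFSet_mem_toZFSet_iff.2 ξ.2.2, ξ.2.1.2⟩ :
      {y : V // y ∈ α.toZFSet ∧ y ∈ X})) ⟨?_, ?_⟩)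
  · intro ξ ζ h
    exact Subtype.ext (Ordinal.toZFSet_injective (congrArg Subtype.val h))
  · rintro ⟨y, h1, h2⟩
    obtain ⟨ξ, h3, rfl⟩ := Ordinal.mem_toZFSet_iff.1 h1
    exact ⟨⟨ξ, ⟨h3.trans_le hα, h2⟩, h3⟩, rfl⟩

lemma coll_ord {X : Set V} (α : Ordinal.{0}) : ∃ τ ≤ α, coll X α.toZFSet = τ.toZFSet := by
  have h := isOrdinal_coll (X := X) _ (ZFSet.isOrdinal_toZFSet α)
  obtain ⟨τ, hτ⟩ := ZFSet.isOrdinal_iff_mem_range_toZFSet.1 h
  refine ⟨τ, ?_, hτ.symm⟩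
  have h1 := rank_coll_le (X := X) α.toZFSet
  rwa [← hτ, Ordinal.rank_toZFSet, Ordinal.rank_toZFSet] at h1

/-- the main lemma: a club that is definable with parameters in `H(ℵ_(k+1)) ∪ {ω_ω}` contains
`ω_(k+1)` -/
theorem exists_core (hJ : IsJonsson (ℵ_ ω)) : ∃ m₀ : ℕ, ∀ k : ℕ, m₀ ≤ k + 1 →
    ∀ (φ : Fml) (v : ℕ → V) (C : Set Ordinal.{0}), (∀ n, v n ∈ Hs k ∨ v n = Om) →
      Club (ω_ ω) C → Def φ v (code C) → (ω_ (k + 1 : ℕ) : Ordinal.{0}) ∈ C := by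
  obtain ⟨m₀, hm₀⟩ := good hJ
  refine ⟨m₀, fun k hk φ v C hv hC hD => ?_⟩
  by_contra hcon
  have hklt : (ω_ (k + 1 : ℕ) : Ordinal.{0}) < ω_ ω := omega_lt (k + 1)
  -- a bound for `C ∩ ω_(k+1)`
  obtain ⟨γ, hγ, hγ'⟩ : ∃ γ < (ω_ (k + 1 : ℕ) : Ordinal.{0}), ∀ c ∈ C,
      c < ω_ (k + 1 : ℕ) → c ≤ γ := by
    by_contra h
    push Not at h
    refine hcon (hC.closed _ hklt (Ordinal.omega_pos _).ne' fun β hβ => ?_)
    obtain ⟨c, h1, h2, h3⟩ := h β hβ
    exact ⟨c, h1, h3, h2⟩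
  -- the next element of `C`
  have hne : {δ | δ ∈ C ∧ ω_ (k + 1 : ℕ) < δ}.Nonempty := by
    obtain ⟨β, h1, h2⟩ := hC.unbounded _ hklt
    exact ⟨β, h1, h2⟩
  set δ := sInf {δ | δ ∈ C ∧ ω_ (k + 1 : ℕ) < δ} with hδ
  obtain ⟨hδC, hδk⟩ : δ ∈ C ∧ ω_ (k + 1 : ℕ) < δ := csInf_mem hne
  have hδmin : ∀ c ∈ C, ω_ (k + 1 : ℕ) < c → δ ≤ c := fun c h1 h2 => csInf_le' ⟨h1, h2⟩
  have hδlt : δ < ω_ ω := hC.lt δ hδC
  obtain ⟨w, hw⟩ := (hD (code C)).2 rfl
  -- the transitive sets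
  have hT : ∀ n, ∃ T : V, T.IsTransitive ∧ (v n ∈ T ∨ v n = Om) ∧ T.card ≤ ℵ_ k := by
    intro n
    rcases hv n with ⟨T, h1, h2, h3⟩ | h
    · exact ⟨T, h1, Or.inl h2, h3⟩
    · exact ⟨∅, ZFSet.isTransitive_empty, Or.inr h, by simp⟩
  choose T hT1 hT2 hT3 using hT
  let B : Set V := {code C, w, Om, (ω_ (k + 1 : ℕ) : Ordinal.{0}).toZFSet, γ.toZFSet, δ.toZFSet}
  let A : Set V := (⋃ n, {y | y ∈ T n}) ∪ B
  have hA : #A ≤ ℵ_ k := by
    refine (Cardinal.mk_union_le _ _).trans ?_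
    refine (add_le_add (b := ℵ_ k) (d := ℵ_ k) ?_ ?_).trans_eq
      (Cardinal.add_eq_self (Cardinal.aleph0_le_aleph _))
    · have h1 : ∀ n, #{y | y ∈ T n} ≤ ℵ_ k := by
        intro n
        have h2 := ZFSet.cardinalMk_coe_sort (x := T n)
        have h3 := Cardinal.lift_le.{1}.2 (hT3 n)
        rw [← h2, Cardinal.lift_aleph] at h3
        simpa using h3
      have h2 := Cardinal.mk_iUnion_le_lift (fun n => {y | y ∈ T n})
      have h3 : (⨆ n, Cardinal.lift.{0} #{y | y ∈ T n}) ≤ ℵ_ k :=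
        ciSup_le' fun n => (Cardinal.lift_uzero _).trans_le (h1 n)
      have h4 := h2.trans (mul_le_mul' (le_refl _) h3)
      rw [Cardinal.mk_nat, Cardinal.lift_aleph0, Cardinal.lift_uzero] at h4
      refine h4.trans ?_
      exact (Cardinal.aleph0_mul_eq (Cardinal.aleph0_le_aleph _)).le
    · refine le_trans ?_ (Cardinal.aleph0_le_aleph _)
      exact Cardinal.mk_le_aleph0_iff.2 (Set.Countable.to_subtype (by simp [B]))
  obtain ⟨X, hX1, hX2, hX3, hX4, hX5, ⟨χ, hχ, hX6⟩, hX7⟩ := hm₀ k hk io io_inj (ops φ) A hA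
  have hext := ext_of_cl hX1
  have hwit := wit_of_cl hX1
  have hBX : ∀ x ∈ B, x ∈ X := fun x hx => hX2 (Or.inr hx)
  have hTX : ∀ n, ∀ x ∈ T n, x ∈ X := fun n x hx => hX2 (Or.inl (Set.mem_iUnion.2 ⟨n, hx⟩))
  have hCX : code C ∈ X := hBX _ (by simp [B])
  have hwX : w ∈ X := hBX _ (by simp [B])
  have hOX : Om ∈ X := hBX _ (by simp [B])
  have hkX : (ω_ (k + 1 : ℕ) : Ordinal.{0}).toZFSet ∈ X := hBX _ (by simp [B])
  have hγX : γ.toZFSet ∈ X := hBX _ (by simp [B])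
  have hδX : δ.toZFSet ∈ X := hBX _ (by simp [B])
  -- `ω_ω` is fixed
  have hOm : coll X Om = Om := by
    obtain ⟨τ, hτ1, hτ2⟩ := coll_ord (X := X) (ω_ ω)
    have h1 := card_coll_ord hext (le_refl (ω_ ω : Ordinal.{0}))
    have h2 : (ordPart io X ∩ Iio (ω_ ω) : Set Ordinal.{0}) = ordPart io X := by
      apply Set.inter_eq_left.2
      rintro ξ ⟨h, _⟩
      exact h
    rw [h2, hX4, hτ2, Ordinal.card_toZFSet] at h1
    have h3 : τ.card = ℵ_ ω := by
      have h4 : Cardinal.lift.{1} τ.card = Cardinal.lift.{1} (ℵ_ ω : Cardinal.{0}) := by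
        rw [h1, Cardinal.lift_aleph, Ordinal.lift_omega0]
      exact Cardinal.lift_injective h4
    have h4 : τ = ω_ ω := by
      apply le_antisymm hτ1
      by_contra h5
      rw [not_le, Cardinal.lt_omega_iff_card_lt, h3] at h5
      exact lt_irrefl _ h5
    rw [h4] at hτ2
    exact hτ2
  have hvX : ∀ n, v n ∈ X := by
    intro n
    rcases hT2 n with h | h
    · exact hTX n _ h
    · rw [h]
      exact hOX
  have hvfix : ∀ n, coll X (v n) = v n := by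
    intro n
    rcases hT2 n with h | h
    · exact coll_eq_self (hT1 n) (hTX n) _ h
    · rw [h]
      exact hOm
  have hvalX : ∀ n, val (code C) w v n ∈ X := by
    intro n
    match n with
    | 0 => exact hCX
    | 1 => exact hwX
    | n + 2 => exact hvX n
  -- `C` is fixed
  have hCfix : coll X (code C) = code C := by
    rw [← hD]
    refine ⟨coll X w, ?_⟩
    have h1 := (sat_coll hext hwit hvalX).2 hw
    have h2 : coll X ∘ val (code C) w v = val (coll X (code C)) (coll X w) v := by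
      funext n
      match n with
      | 0 => rfl
      | 1 => rfl
      | n + 2 => exact hvfix n
    rwa [h2] at h1
  -- the collapse of `ω_(k+1)`
  have hχX : ∀ x ∈ χ.toZFSet, x ∈ X := by
    intro x hx
    obtain ⟨ξ, h1, rfl⟩ := Ordinal.mem_toZFSet_iff.1 hx
    exact ((hX6 ξ (h1.trans hχ)).2 h1).2
  have hχk : coll X (ω_ (k + 1 : ℕ) : Ordinal.{0}).toZFSet = χ.toZFSet := by
    ext z
    rw [mem_coll]
    constructor
    · rintro ⟨y, h1, h2, rfl⟩
      obtain ⟨ξ, h3, rfl⟩ := Ordinal.mem_toZFSet_iff.1 h1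
      have h4 : ξ < χ := (hX6 ξ h3).1 ⟨h3.trans hklt, h2⟩
      have h5 := Ordinal.toZFSet_mem_toZFSet_iff.2 h4
      rw [coll_eq_self (ZFSet.isOrdinal_toZFSet χ).isTransitive hχX _ h5]
      exact h5
    · intro hz
      have h1 := coll_eq_self (ZFSet.isOrdinal_toZFSet χ).isTransitive hχX _ hz
      obtain ⟨ξ, h2, rfl⟩ := Ordinal.mem_toZFSet_iff.1 hz
      exact ⟨_, Ordinal.toZFSet_mem_toZFSet_iff.2 (h2.trans hχ), hχX _ hz, h1⟩
  -- the collapse of `δ`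
  obtain ⟨τ, hτ1, hτ2⟩ := coll_ord (X := X) δ
  have hτC : τ ∈ C := by
    rw [← toZFSet_mem_code hC.lt, ← hτ2, ← hCfix]
    exact coll_mem ((toZFSet_mem_code hC.lt).2 hδC) hδX
  have hχτ : χ < τ := by
    rw [← Ordinal.toZFSet_mem_toZFSet_iff, ← hτ2, ← hχk]
    exact coll_mem (Ordinal.toZFSet_mem_toZFSet_iff.2 hδk) hkX
  have hγχ : γ < χ := (hX6 γ hγ).1 ⟨hγ.trans hklt, hγX⟩
  have hkτ : ω_ (k + 1 : ℕ) < τ := by
    rcases lt_trichotomy τ (ω_ (k + 1 : ℕ)) with h | h | h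
    · exact absurd (hγ' τ hτC h) (not_le.2 (hγχ.trans hχτ))
    · exact absurd (h ▸ hτC) hcon
    · exact h
  have hτδ : τ = δ := le_antisymm hτ1 (hδmin τ hτC hkτ)
  rw [hτδ] at hτ2
  -- no fixed points
  have hcard := card_coll_ord hext hδlt.le
  rw [hτ2, Ordinal.card_toZFSet] at hcard
  obtain ⟨m, hm, hm1, hm2⟩ : ∃ m : ℕ, k + 1 ≤ m ∧ ω_ m ≤ δ ∧ δ < ω_ (m + 1 : ℕ) := by
    classical
    have h1 : ∃ m : ℕ, δ < ω_ m := exists_lt_omega hδlt
    have h2 := Nat.find_spec h1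
    have h3 : k + 1 < Nat.find h1 := by
      by_contra h4
      have h5 : (ω_ (Nat.find h1 : ℕ) : Ordinal.{0}) ≤ ω_ (k + 1 : ℕ) := by
        rw [Ordinal.omega_le_omega]
        exact_mod_cast not_lt.1 h4
      exact lt_irrefl _ ((hδk.trans h2).trans_le h5)
    obtain ⟨m, hm⟩ : ∃ m, Nat.find h1 = m + 1 := ⟨Nat.find h1 - 1, by omega⟩
    refine ⟨m, by omega, ?_, hm ▸ h2⟩
    exact not_lt.1 (Nat.find_min h1 (by omega))
  have hδO : δ ∈ ordPart io X := ⟨hδlt, hδX⟩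
  have hle : δ.card.ord ≤ ω_ m := by
    rw [← Cardinal.ord_aleph, Cardinal.ord_le_ord]
    have h1 : δ.card < ℵ_ (m + 1 : ℕ) := by rwa [← Cardinal.lt_omega_iff_card_lt]
    push_cast at h1
    rwa [← Cardinal.succ_aleph, Order.lt_succ_iff] at h1
  have h1 : #(ordPart io X ∩ Iio δ : Set Ordinal.{0}) ≤
      #(ordPart io X ∩ Iio (ω_ m) : Set Ordinal.{0}) := by
    refine Cardinal.mk_le_of_injective (f := fun x : (ordPart io X ∩ Iio δ : Set Ordinal.{0}) =>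
      (⟨bij δ x.1, hX3.bij δ hδO x.1 x.2.1 x.2.2,
        lt_of_lt_of_le (bij_lt x.2.2) hle⟩ : (ordPart io X ∩ Iio (ω_ m) : Set Ordinal.{0}))) ?_
    intro x y hxy
    have h3 : bij δ x.1 = bij δ y.1 := congrArg Subtype.val hxy
    apply Subtype.ext
    rw [← inv_bij x.2.2, ← inv_bij y.2.2, h3]
  have h2 : ℵ_ m ≤ #(ordPart io X ∩ Iio δ : Set Ordinal.{0}) := by
    rw [← hcard]
    have h3 : ℵ_ m ≤ δ.card := by
      rw [← Ordinal.card_omega]
      exact Ordinal.card_le_card hm1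
    have h4 := Cardinal.lift_le.{1}.2 h3
    rw [Cardinal.lift_aleph] at h4
    simpa using h4
  exact absurd (hX7 m hm) (not_lt.2 (h2.trans h1))

end Pool.Agent.SigOne
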