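import Pool.Agent.Work.MP_680e5b_lc.Clo

/-!
# The number of sets in `H(ℵ_(k+1))`
-/

namespace Pool.Agent.SigOne

open Cardinal Ordinal Set

lemma mk_mem_le {k : ℕ} {T : V} (h : T.card ≤ ℵ_ k) : #{y : V // y ∈ T} ≤ ℵ_ k := by
  have h2 := ZFSet.cardinalMk_coe_sort (x := T)
  have h3 := Cardinal.lift_le.{1}.2 h
  rw [← h2, Cardinal.lift_aleph] at h3
  simpa using h3

/-- sets of sets of size at most `ℵ_k` give elements of `Hs k` -/
lemma hs_of_set {k : ℕ} {x : V} (S : Set V) (hS : #S ≤ ℵ_ k) (hx : x ∈ S)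
    (ht : ∀ y ∈ S, ∀ z ∈ y, z ∈ S) : x ∈ Hs k := by
  have hsm : Small.{0} S := by
    rw [← card_Iio_omega] at hS
    obtain ⟨e⟩ := Cardinal.le_def _ _ |>.1 hS
    exact small_of_injective (f := e) e.injective
  let T : V := ZFSet.range (Subtype.val : S → V)
  have hT : ∀ z, z ∈ T ↔ z ∈ S := by
    intro z
    rw [ZFSet.mem_range]
    constructor
    · rintro ⟨y, rfl⟩
      exact y.2
    · intro h
      exact ⟨⟨z, h⟩, rfl⟩
  refine ⟨T, fun y hy z hz => (hT z).2 (ht y ((hT y).1 hy) z hz), (hT x).2 hx, ?_⟩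
  have h1 : #{z : V // z ∈ T} = #S :=
    Cardinal.mk_congr (Equiv.subtypeEquivRight hT)
  have h2 : Cardinal.lift.{1} T.card ≤ Cardinal.lift.{1} (ℵ_ k : Cardinal.{0}) := by
    rw [← ZFSet.cardinalMk_coe_sort, h1, Cardinal.lift_aleph]
    simpa using hS
  exact Cardinal.lift_le.1 h2

lemma hs_count {k m : ℕ} (h : (2 : Cardinal.{0}) ^ (ℵ_ k : Cardinal.{0}) ≤ ℵ_ m) :
    #(Hs k) ≤ ℵ_ m := by
  -- choose transitive sets and injections
  have hch : ∀ x : Hs k, ∃ T : V, T.IsTransitive ∧ x.1 ∈ T ∧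
      Nonempty ({y : V // y ∈ T} ↪ Iio (ω_ k : Ordinal.{0})) := by
    rintro ⟨x, T, h1, h2, h3⟩
    refine ⟨T, h1, h2, ?_⟩
    have h4 := mk_mem_le h3
    rw [← card_Iio_omega] at h4
    exact Cardinal.le_def _ _ |>.1 h4
  choose T hT1 hT2 hT3 using hch
  let g : ∀ x : Hs k, {y : V // y ∈ T x} ↪ Iio (ω_ k : Ordinal.{0}) := fun x => (hT3 x).some
  let c : Hs k → Iio (ω_ k : Ordinal.{0}) ×
      Set (Iio (ω_ k : Ordinal.{0}) × Iio (ω_ k : Ordinal.{0})) := fun x =>
    (g x ⟨x.1, hT2 x⟩, {p | ∃ y z : {y : V // y ∈ T x}, y.1 ∈ z.1 ∧ p = (g x y, g x z)})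
  have hc : Function.Injective c := by
    intro x x' hxx
    have h1 : g x ⟨x.1, hT2 x⟩ = g x' ⟨x'.1, hT2 x'⟩ := congrArg Prod.fst hxx
    have h2 : {p | ∃ y z : {y : V // y ∈ T x}, y.1 ∈ z.1 ∧ p = (g x y, g x z)} =
      {p | ∃ y z : {y : V // y ∈ T x'}, y.1 ∈ z.1 ∧ p = (g x' y, g x' z)} :=
      congrArg Prod.snd hxx
    have h3 : ∀ y : V, ∀ (hy : y ∈ T x) (y' : {y : V // y ∈ T x'}),
        g x ⟨y, hy⟩ = g x' y' → y = y'.1 := by
      intro y
      induction y using ZFSet.inductionOn with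
      | h y ih =>
        intro hy y' hyy
        ext z
        constructor
        · intro hz
          have hzT : z ∈ T x := (hT1 x).mem_trans hz hy
          have h4 : (g x ⟨z, hzT⟩, g x ⟨y, hy⟩) ∈
              {p | ∃ y z : {y : V // y ∈ T x}, y.1 ∈ z.1 ∧ p = (g x y, g x z)} :=
            ⟨_, _, hz, rfl⟩
          rw [h2] at h4
          obtain ⟨a, b, h5, h6⟩ := h4
          have h7 : g x ⟨z, hzT⟩ = g x' a := congrArg Prod.fst h6
          have h8 : g x ⟨y, hy⟩ = g x' b := congrArg Prod.snd h6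
          rw [ih z hz hzT a h7, (g x').injective (hyy.symm.trans h8)]
          exact h5
        · intro hz
          have hzT : z ∈ T x' := (hT1 x').mem_trans hz y'.2
          have h4 : (g x' ⟨z, hzT⟩, g x' y') ∈
              {p | ∃ y z : {y : V // y ∈ T x'}, y.1 ∈ z.1 ∧ p = (g x' y, g x' z)} :=
            ⟨_, _, hz, rfl⟩
          rw [← h2] at h4
          obtain ⟨a, b, h5, h6⟩ := h4
          have h7 : g x' ⟨z, hzT⟩ = g x a := congrArg Prod.fst h6
          have h8 : g x' y' = g x b := congrArg Prod.snd h6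
          have h9 : b = ⟨y, hy⟩ := (g x).injective (h8.symm.trans hyy.symm)
          have h10 : a.1 ∈ y := by
            rw [h9] at h5
            exact h5
          have h11 : a.1 = z := ih a.1 h10 a.2 ⟨z, hzT⟩ h7.symm
          rw [← h11]
          exact h10
    exact Subtype.ext (h3 x.1 (hT2 x) _ h1)
  have h4 := Cardinal.mk_le_of_injective hc
  have h5 := Cardinal.lift_le.{1}.2 h
  rw [Cardinal.lift_power, Cardinal.lift_two, Cardinal.lift_aleph, Cardinal.lift_aleph] at h5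
  simp only [Ordinal.lift_natCast] at h5
  refine h4.trans ?_
  simp only [Cardinal.mk_prod, Cardinal.lift_id, Cardinal.mk_set, card_Iio_omega]
  rw [Cardinal.mul_eq_self (Cardinal.aleph0_le_aleph _)]
  refine (mul_le_mul' ((Cardinal.cantor _).le.trans h5) h5).trans ?_
  exact (Cardinal.mul_eq_self (Cardinal.aleph0_le_aleph _)).le

/-- enumerations of the parameters -/
lemma exists_enum {k m : ℕ} (b : ℕ) (h : (2 : Cardinal.{0}) ^ (ℵ_ k : Cardinal.{0}) ≤ ℵ_ m) :
    ∃ e : Ordinal.{0} → ℕ → V, (∀ i n, e i n ∈ Hs k ∨ e i n = Om) ∧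
      ∀ v : ℕ → V, (∀ n, v n ∈ Hs k ∨ v n = Om) → ∃ i < ω_ m, ∀ n < b, e i n = v n := by
  let Y : Set V := {x | x ∈ Hs k ∨ x = Om}
  have hY : #Y ≤ ℵ_ m := by
    have h1 : Y = Hs k ∪ {Om} := by
      ext x
      simp only [Y, Set.mem_setOf_eq, Set.mem_union, Set.mem_singleton_iff]
    rw [h1]
    refine (Cardinal.mk_union_le _ _).trans ?_
    refine (add_le_add (b := ℵ_ m) (d := ℵ_ m) (hs_count h) ?_).trans_eq
      (Cardinal.add_eq_self (Cardinal.aleph0_le_aleph _))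
    rw [Cardinal.mk_singleton]
    exact Cardinal.one_le_aleph0.trans (Cardinal.aleph0_le_aleph _)
  have hF : #(Fin b → Y) ≤ #(Iio (ω_ m : Ordinal.{0})) := by
    rw [card_Iio_omega]
    have h1 : #(Fin b → Y) = #Y ^ (b : Cardinal.{1}) := by
      simp
    rw [h1]
    refine (Cardinal.power_le_power_right hY).trans ?_
    exact Cardinal.power_nat_le (Cardinal.aleph0_le_aleph _)
  obtain ⟨j⟩ := Cardinal.le_def _ _ |>.1 hF
  have hne : Nonempty (Fin b → Y) := ⟨fun _ => ⟨Om, Or.inr rfl⟩⟩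
  classical
  refine ⟨fun i n => if hi : i < ω_ m then (if hn : n < b then
    (Function.invFun j ⟨i, hi⟩ ⟨n, hn⟩).1 else Om) else Om, fun i n => ?_, fun v hv => ?_⟩
  · by_cases hi : i < ω_ m
    · by_cases hn : n < b
      · simp only [hi, hn, dite_true]
        exact (Function.invFun j ⟨i, hi⟩ ⟨n, hn⟩).2
      · simp only [hi, hn, dite_true, dite_false, or_true]
    · simp only [hi, dite_false, or_true]
  · refine ⟨(j fun n => ⟨v n, hv n⟩).1, (j _).2, fun n hn => ?_⟩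
    have hi : (j fun n => ⟨v n, hv n⟩).1 < ω_ m := (j _).2
    simp only [hi, hn, dite_true]
    have h1 : Function.invFun j ⟨(j fun n => ⟨v n, hv n⟩).1, hi⟩ = fun n => ⟨v n, hv n⟩ :=
      Function.leftInverse_invFun j.injective _
    rw [h1]

end Pool.Agent.SigOne
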