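import Pool.Agent.Work.MP_680e5b_lc.Fam

/-!
# The intersection of all clubs defined by one formula with small parameters
-/

namespace Pool.Agent.SigOne

open Cardinal Ordinal Set

/-- the intersection of all clubs that are defined by `φ` with parameters in `H(ℵ_(k+1))` or
`ω_ω` -/
def Ek (φ : Fml) (k : ℕ) : Set Ordinal.{0} := {δ | δ < ω_ ω ∧
  ∀ (v : ℕ → V) (C : Set Ordinal.{0}), (∀ n, v n ∈ Hs k ∨ v n = Om) → Club (ω_ ω) C →
    Def φ v (code C) → δ ∈ C}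

/-- small classes are sets -/
lemma exists_set {m : ℕ} (S : Set V) (hS : #S ≤ ℵ_ m) : ∃ T : V, (∀ z, z ∈ T ↔ z ∈ S) ∧
    T.card ≤ ℵ_ m := by
  have hsm : Small.{0} S := by
    rw [← card_Iio_omega] at hS
    obtain ⟨e⟩ := Cardinal.le_def _ _ |>.1 hS
    exact small_of_injective (f := e) e.injective
  let T : V := ZFSet.range (Subtype.val : S → V)
  have hT : ∀ z, z ∈ T ↔ z ∈ S := by
    intro z
    rw [ZFSet.mem_range]
    constructor
    · rintro ⟨y, rfl⟩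
      exact y.2
    · intro h
      exact ⟨⟨z, h⟩, rfl⟩
  refine ⟨T, hT, ?_⟩
  have h1 : #{z : V // z ∈ T} = #S :=
    Cardinal.mk_congr (Equiv.subtypeEquivRight hT)
  have h2 : Cardinal.lift.{1} T.card ≤ Cardinal.lift.{1} (ℵ_ m : Cardinal.{0}) := by
    rw [← ZFSet.cardinalMk_coe_sort, h1, Cardinal.lift_aleph]
    simpa using hS
  exact Cardinal.lift_le.1 h2

lemma card_union_le {m : ℕ} {S T : Set V} (hS : #S ≤ ℵ_ m) (hT : #T ≤ ℵ_ m) :
    #(S ∪ T : Set V) ≤ ℵ_ m := by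
  refine (Cardinal.mk_union_le _ _).trans ?_
  exact (add_le_add (b := ℵ_ m) (d := ℵ_ m) hS hT).trans_eq
    (Cardinal.add_eq_self (Cardinal.aleph0_le_aleph _))

lemma card_image_Iio {m : ℕ} (g : Ordinal.{0} → V) :
    #(g '' Iio (ω_ m) : Set V) ≤ ℵ_ m := by
  have h := Cardinal.mk_image_le (f := g) (s := Iio (ω_ m : Ordinal.{0}))
  rwa [card_Iio_omega] at h

lemma card_iUnion_Iio {m : ℕ} (g : Ordinal.{0} → Set V) (hg : ∀ i, #(g i) ≤ ℵ_ m) :
    #({x | ∃ i < ω_ m, x ∈ g i} : Set V) ≤ ℵ_ m := by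
  have h1 : ({x | ∃ i < ω_ m, x ∈ g i} : Set V) = ⋃ i : Iio (ω_ m : Ordinal.{0}), g i.1 := by
    ext x
    constructor
    · rintro ⟨i, hi, hx⟩
      exact Set.mem_iUnion.2 ⟨⟨i, hi⟩, hx⟩
    · intro h
      obtain ⟨i, hi⟩ := Set.mem_iUnion.1 h
      exact ⟨i.1, i.2, hi⟩
  rw [h1]
  refine (Cardinal.mk_iUnion_le _).trans ?_
  rw [card_Iio_omega]
  have h2 : (⨆ i : Iio (ω_ m : Ordinal.{0}), #(g i.1)) ≤ ℵ_ m := ciSup_le' fun i => hg i.1
  refine (mul_le_mul' (le_refl _) h2).trans ?_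
  exact (Cardinal.mul_eq_self (Cardinal.aleph0_le_aleph _)).le

/-- functions from `ω_m` to `H(ℵ_(k+1))` belong to `P` -/
lemma inP_graph {k m : ℕ} (hkm : k ≤ m) (g : Ordinal.{0} → V) : ∃ F : V, InP F ∧
    ∀ z, z ∈ F ↔ ∃ i < ω_ m, g i ∈ Hs k ∧ z = ZFSet.pair i.toZFSet (g i) := by
  have hT : ∀ i, ∃ T : V, T.IsTransitive ∧ (g i ∈ Hs k → g i ∈ T) ∧ T.card ≤ ℵ_ m := by
    intro i
    by_cases h : g i ∈ Hs k
    · obtain ⟨T, h1, h2, h3⟩ := h
      refine ⟨T, h1, fun _ => h2, h3.trans ?_⟩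
      rw [Cardinal.aleph_le_aleph]
      exact_mod_cast hkm
    · exact ⟨∅, ZFSet.isTransitive_empty, fun h' => absurd h' h, by simp⟩
  choose T hT1 hT2 hT3 using hT
  have hgr : #({z | ∃ i < ω_ m, g i ∈ Hs k ∧ z = ZFSet.pair i.toZFSet (g i)} : Set V) ≤ ℵ_ m := by
    refine (Cardinal.mk_le_mk_of_subset ?_).trans
      (card_image_Iio (m := m) fun i : Ordinal.{0} => ZFSet.pair i.toZFSet (g i))
    rintro z ⟨i, h1, _, h3⟩
    exact ⟨i, h1, h3.symm⟩
  obtain ⟨F, hF, -⟩ := exists_set _ hgr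
  refine ⟨F, ?_, hF⟩
  -- a transitive set
  let S : Set V := (((({x | ∃ i < (ω_ m : Ordinal.{0}), x ∈ {x | x ∈ T i}} : Set V) ∪
    (fun i : Ordinal.{0} => i.toZFSet) '' Iio (ω_ m)) ∪
    (fun i : Ordinal.{0} => ({i.toZFSet} : V)) '' Iio (ω_ m)) ∪
    {z | ∃ i < ω_ m, g i ∈ Hs k ∧ z = {i.toZFSet, g i}}) ∪
    {z | ∃ i < ω_ m, g i ∈ Hs k ∧ z = ZFSet.pair i.toZFSet (g i)}
  have hS : #S ≤ ℵ_ m := by
    refine card_union_le (card_union_le (card_union_le (card_union_le ?_ (card_image_Iio _))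
      (card_image_Iio _)) ?_) hgr
    · exact card_iUnion_Iio (fun i => {x | x ∈ T i}) fun i => mk_mem_le (hT3 i)
    · refine (Cardinal.mk_le_mk_of_subset ?_).trans
        (card_image_Iio (m := m) fun i : Ordinal.{0} => ({i.toZFSet, g i} : V))
      rintro z ⟨i, h1, _, h3⟩
      exact ⟨i, h1, h3.symm⟩
  obtain ⟨U, hU, hU'⟩ := exists_set S hS
  left
  refine ⟨U, ?_, ?_, ?_⟩
  · intro y hy z hz
    rw [hU] at hy ⊢
    have hord : ∀ i < (ω_ m : Ordinal.{0}), i.toZFSet ∈ S := fun i hi =>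
      Or.inl (Or.inl (Or.inl (Or.inr ⟨i, hi, rfl⟩)))
    have hval : ∀ i < (ω_ m : Ordinal.{0}), g i ∈ Hs k → g i ∈ S := fun i hi h =>
      Or.inl (Or.inl (Or.inl (Or.inl ⟨i, hi, hT2 i h⟩)))
    rcases hy with (((⟨i, hi, hy⟩ | ⟨i, hi, rfl⟩) | ⟨i, hi, rfl⟩) | ⟨i, hi, hg, rfl⟩) |
      ⟨i, hi, hg, rfl⟩
    · exact Or.inl (Or.inl (Or.inl (Or.inl ⟨i, hi, (hT1 i).mem_trans hz hy⟩)))
    · obtain ⟨ξ, h1, rfl⟩ := Ordinal.mem_toZFSet_iff.1 hz
      exact hord ξ (h1.trans hi)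
    · rw [ZFSet.mem_singleton] at hz
      subst hz
      exact hord i hi
    · rw [ZFSet.mem_pair] at hz
      rcases hz with rfl | rfl
      · exact hord i hi
      · exact hval i hi hg
    · unfold ZFSet.pair at hz
      rw [ZFSet.mem_pair] at hz
      rcases hz with rfl | rfl
      · exact Or.inl (Or.inl (Or.inr ⟨i, hi, rfl⟩))
      · exact Or.inl (Or.inr ⟨i, hi, hg, rfl⟩)
  · intro z hz
    rw [hU]
    exact Or.inr ((hF z).1 hz)
  · refine hU'.trans_lt ?_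
    rw [Cardinal.aleph_lt_aleph]
    exact Ordinal.natCast_lt_omega0 m

/-- subsets of `ω_m` belong to `P` -/
lemma inP_subset {m : ℕ} (Q : Ordinal.{0} → Prop) : ∃ I : V, InP I ∧
    ∀ z, z ∈ I ↔ ∃ i < ω_ m, Q i ∧ z = i.toZFSet := by
  let I : V := ZFSet.sep (fun z => ∃ i < (ω_ m : Ordinal.{0}), Q i ∧ z = i.toZFSet)
    (ω_ m : Ordinal.{0}).toZFSet
  refine ⟨I, Or.inl ⟨(ω_ m : Ordinal.{0}).toZFSet, (ZFSet.isOrdinal_toZFSet _).isTransitive,
    fun z hz => (ZFSet.mem_sep.1 hz).1, ?_⟩, fun z => ?_⟩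
  · rw [Ordinal.card_toZFSet, Ordinal.card_omega, Cardinal.aleph_lt_aleph]
    exact Ordinal.natCast_lt_omega0 m
  · rw [ZFSet.mem_sep]
    constructor
    · exact fun h => h.2
    · rintro ⟨i, h1, h2, rfl⟩
      exact ⟨Ordinal.toZFSet_mem_toZFSet_iff.2 h1, i, h1, h2, rfl⟩

lemma le_of_pow {k m : ℕ} (h : (2 : Cardinal.{0}) ^ (ℵ_ k : Cardinal.{0}) ≤ ℵ_ m) : k ≤ m := by
  have h1 : (ℵ_ k : Cardinal.{0}) < ℵ_ m := (Cardinal.cantor _).trans_le h
  rw [Cardinal.aleph_lt_aleph] at h1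
  have h2 : k < m := by exact_mod_cast h1
  exact h2.le

lemma def_congr {φ : Fml} {v v' : ℕ → V} {x : V} (h : ∀ n < bnd φ, v n = v' n) :
    Def φ v x ↔ Def φ v' x := by
  refine forall_congr' fun y => iff_congr (exists_congr fun w => sat_congr fun n hn => ?_) Iff.rfl
  match n with
  | 0 => rfl
  | 1 => rfl
  | n + 2 => exact h n (by omega)

lemma code_inj {C D : Set Ordinal.{0}} (hC : ∀ α ∈ C, α < ω_ ω) (hD : ∀ α ∈ D, α < ω_ ω)
    (h : code C = code D) : C = D := by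
  ext ξ
  rw [← toZFSet_mem_code hC, ← toZFSet_mem_code hD, h]

/-- **The intersection of all clubs defined by `φ` with parameters in `H(ℵ_(k+1)) ∪ {ω_ω}` is a
definable club**, if `2^(ℵ_k) < ℵ_ω`. -/
theorem sigClub_Ek (hJ : IsJonsson (ℵ_ ω)) (φ : Fml) (k : ℕ)
    (h : ∃ m : ℕ, (2 : Cardinal.{0}) ^ (ℵ_ k : Cardinal.{0}) ≤ ℵ_ m) : SigClub (Ek φ k) := by
  obtain ⟨m, hm⟩ := h
  have hkm := le_of_pow hm
  obtain ⟨e, he, he'⟩ := exists_enum (bnd φ) hm
  have hElt : ∀ α ∈ Ek φ k, α < ω_ ω := fun α h => h.1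
  refine ⟨club_of_omega hElt ?_ ?_, ?_⟩
  · intro α hα h0 hlim
    refine ⟨hα, fun v C hv hC hD => hC.closed α hα h0 fun β hβ => ?_⟩
    obtain ⟨γ, h1, h2, h3⟩ := hlim β hβ
    exact ⟨γ, h1.2 v C hv hC hD, h2, h3⟩
  · obtain ⟨m₀, hm₀⟩ := exists_core hJ
    refine ⟨max m₀ k + 1, fun n hn => ⟨omega_lt n, fun v C hv hC hD => ?_⟩⟩
    obtain ⟨l, rfl⟩ : ∃ l, n = l + 1 := ⟨n - 1, by omega⟩
    exact hm₀ l (by omega) φ v C (fun n => (hv n).imp_left fun h => Hs_mono (by omega) h) hC hD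
  · let P : Ordinal.{0} → Prop := fun i => ∃ C, Club (ω_ ω) C ∧ Def φ (e i) (code C)
    obtain ⟨I, hI, hI'⟩ := inP_subset (m := m) P
    have hF := fun j => inP_graph (m := m) hkm (fun i => e i j)
    choose F hF hF' using hF
    have hG := fun j => inP_subset (m := m) (fun i => e i j = Om)
    choose G hG hG' using hG
    obtain ⟨χ, hχ⟩ := isD0_fam φ
    refine ⟨χ, fun n => if n = 0 then Om else if n = 1 then I else mix F G (n - 2), ?_, ?_⟩
    · intro n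
      by_cases h0 : n = 0
      · simp only [h0, if_true]
        exact Or.inr rfl
      · by_cases h1 : n = 1
        · simp only [h1, if_true]
          exact hI
        · simp only [h0, h1, if_false]
          unfold mix
          split
          · exact hF _
          · exact hG _
    -- decoding
    have hdec : ∀ i < (ω_ m : Ordinal.{0}), ∀ C, Def φ (e i) (code C) → ∀ W c u,
        Dec φ W i.toZFSet c u F G → c = code C := by
      rintro i hi C hD W c u ⟨f, h1, h2, h3⟩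
      have hf : ∀ j < bnd φ, f j = e i j := by
        intro j hj
        rcases h2 j hj with h4 | ⟨h4, h5⟩
        · obtain ⟨i', _, _, h6⟩ := (hF' j _).1 h4
          obtain ⟨h7, h8⟩ := ZFSet.pair_injective h6
          rw [h8, Ordinal.toZFSet_injective h7]
        · obtain ⟨i', _, h6, h7⟩ := (hG' j _).1 h4
          rw [h5, Ordinal.toZFSet_injective h7, h6]
      refine (hD c).1 ⟨u, (sat_congr fun n hn => ?_).1 h3⟩
      match n with
      | 0 => rfl
      | 1 => rfl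
      | n + 2 => exact hf n (by omega)
    intro y
    constructor
    · rintro ⟨W, hW⟩
      obtain ⟨h1, h2, h3⟩ := (hχ y W I F G).1 hW
      ext z
      constructor
      · intro hz
        obtain ⟨ξ, hξ, rfl⟩ := mem_Om.1 (h1 z hz)
        rw [toZFSet_mem_code hElt]
        refine ⟨hξ, fun v C hv hC hD => ?_⟩
        obtain ⟨i, hi, hiv⟩ := he' v hv
        have hD' : Def φ (e i) (code C) := (def_congr hiv).2 hD
        obtain ⟨c, _, u, _, hd, hz'⟩ := h2 i.toZFSet ((hI' _).2 ⟨i, hi, ⟨C, hC, hD'⟩, rfl⟩)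
        have hc := hdec i hi C hD' _ _ _ hd
        rw [hc] at hz'
        exact (toZFSet_mem_code hC.lt).1 (hz' _ hz)
      · intro hz
        obtain ⟨ξ, hξ, rfl⟩ := (mem_code hElt).1 hz
        rcases h3 _ (mem_Om.2 ⟨ξ, hξ.1, rfl⟩) with h | ⟨i', hi', c, _, u, _, hd, hzc⟩
        · exact h
        · exfalso
          obtain ⟨i, hi, ⟨C, hC, hD⟩, rfl⟩ := (hI' _).1 hi'
          have hc := hdec i hi C hD _ _ _ hd
          rw [hc] at hzc
          exact hzc ((toZFSet_mem_code hC.lt).2 (hξ.2 (e i) C (he i) hC hD))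
    · rintro rfl
      have hcu : ∀ i, ∃ c u : V, P i → (∃ C, Club (ω_ ω) C ∧ Def φ (e i) (code C) ∧
          c = code C) ∧ Sat φ (val c u (e i)) := by
        intro i
        by_cases hP : P i
        · obtain ⟨C, hC, hD⟩ := hP
          obtain ⟨u, hu⟩ := (hD (code C)).2 rfl
          exact ⟨code C, u, fun _ => ⟨⟨C, hC, hD, rfl⟩, hu⟩⟩
        · exact ⟨∅, ∅, fun h => absurd h hP⟩
      choose c u hcu using hcu
      obtain ⟨W, hW, -⟩ := exists_set _ (card_iUnion_Iio (m := m)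
        (fun i => insert (c i) (insert (u i) (range (e i)))) fun i =>
          (Cardinal.mk_le_aleph0_iff.2 (Set.Countable.to_subtype
            (((Set.countable_range _).insert _).insert _))).trans (Cardinal.aleph0_le_aleph _))
      have hDec : ∀ i < (ω_ m : Ordinal.{0}), P i → c i ∈ W ∧ u i ∈ W ∧
          Dec φ W i.toZFSet (c i) (u i) F G := by
        intro i hi hP
        refine ⟨(hW _).2 ⟨i, hi, by simp⟩, (hW _).2 ⟨i, hi, by simp⟩, e i, fun j _ =>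
          (hW _).2 ⟨i, hi, by simp⟩, fun j _ => ?_, (hcu i hP).2⟩
        exact (he i j).imp (fun h => (hF' j _).2 ⟨i, hi, h, rfl⟩)
          (fun h => ⟨(hG' j _).2 ⟨i, hi, h, rfl⟩, h⟩)
      refine ⟨W, (hχ _ W I F G).2 ⟨?_, ?_, ?_⟩⟩
      · intro z hz
        obtain ⟨ξ, hξ, rfl⟩ := (mem_code hElt).1 hz
        exact mem_Om.2 ⟨ξ, hξ.1, rfl⟩
      · intro i' hi'
        obtain ⟨i, hi, hP, rfl⟩ := (hI' _).1 hi'
        obtain ⟨h1, h2, h3⟩ := hDec i hi hP
        refine ⟨c i, h1, u i, h2, h3, fun z hz => ?_⟩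
        obtain ⟨ξ, hξ, rfl⟩ := (mem_code hElt).1 hz
        obtain ⟨⟨C, hC, hD, hc⟩, -⟩ := hcu i hP
        rw [hc, toZFSet_mem_code hC.lt]
        exact hξ.2 (e i) C (he i) hC hD
      · intro z hz
        obtain ⟨ξ, hξ, rfl⟩ := mem_Om.1 hz
        by_cases hE : ξ ∈ Ek φ k
        · exact Or.inl ((toZFSet_mem_code hElt).2 hE)
        · right
          have h1 : ∃ (v : ℕ → V) (C : Set Ordinal.{0}), (∀ n, v n ∈ Hs k ∨ v n = Om) ∧
              Club (ω_ ω) C ∧ Def φ v (code C) ∧ ξ ∉ C := by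
            by_contra hcon
            push Not at hcon
            exact hE ⟨hξ, hcon⟩
          obtain ⟨v, C, hv, hC, hD, hξC⟩ := h1
          obtain ⟨i, hi, hiv⟩ := he' v hv
          have hD' : Def φ (e i) (code C) := (def_congr hiv).2 hD
          have hP : P i := ⟨C, hC, hD'⟩
          obtain ⟨h1, h2, h3⟩ := hDec i hi hP
          refine ⟨i.toZFSet, (hI' _).2 ⟨i, hi, hP, rfl⟩, c i, h1, u i, h2, h3, ?_⟩
          rw [hdec i hi C hD' _ _ _ h3, toZFSet_mem_code hC.lt]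
          exact hξC

end Pool.Agent.SigOne
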