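import Pool.Agent.Work.MP_680e5b_lc.Count

/-!
# Intersections of families of definable clubs
-/

namespace Pool.Agent.SigOne

open Cardinal Ordinal Set

namespace IsD0

/-- `f` is decoded from the index `v i₀` -/
lemma dec (φ : Fml) (k₀ i₀ s o c₀ u₀ : ℕ) : IsD0 fun v => ∃ f : ℕ → V,
    (∀ j < bnd φ, f j ∈ v k₀) ∧ (∀ j < bnd φ, ZFSet.pair (v i₀) (f j) ∈ v (s + 2 * j) ∨
      (v i₀ ∈ v (s + 2 * j + 1) ∧ f j = v o)) ∧ Sat φ (val (v c₀) (v u₀) f) := by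
  set b := bnd φ with hb
  have hR : IsD0 fun v => (∀ j < b, ZFSet.pair (v (b + i₀)) (v j) ∈ v (b + (s + 2 * j)) ∨
      (v (b + i₀) ∈ v (b + (s + 2 * j + 1)) ∧ v j = v (b + o))) ∧
      Sat φ (val (v (b + c₀)) (v (b + u₀)) v) := by
    refine IsD0.and (IsD0.ballAll (b := b) (R := fun j v =>
      ZFSet.pair (v (b + i₀)) (v j) ∈ v (b + (s + 2 * j)) ∨
      (v (b + i₀) ∈ v (b + (s + 2 * j + 1)) ∧ v j = v (b + o))) fun j => ?_) ?_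
    · exact (pmem _ _ _).or ((mem _ _).and (eq _ _))
    · exact satval φ (b + c₀) (b + u₀) (fun n => n)
  refine (exs b k₀ (R := fun v =>
    (∀ j < b, ZFSet.pair (v (b + i₀)) (v j) ∈ v (b + (s + 2 * j)) ∨
      (v (b + i₀) ∈ v (b + (s + 2 * j + 1)) ∧ v j = v (b + o))) ∧
      Sat φ (val (v (b + c₀)) (v (b + u₀)) v)) hR).congr fun v => ?_
  refine exists_congr fun f => and_congr Iff.rfl ?_
  have e1 : ∀ n, app b f v (b + n) = v n := by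
    intro n
    simp [app]
  have e2 : ∀ n < b, app b f v n = f n := by
    intro n hn
    simp [app, hn]
  simp only [e1]
  refine and_congr (forall₂_congr fun j hj => ?_) (sat_congr fun n hn => ?_)
  · rw [e2 j hj]
  · match n with
    | 0 => rfl
    | 1 => rfl
    | n + 2 => exact e2 n (by omega)

end IsD0

/-- the index `i` decodes to the sequence `f` -/
def Dec (φ : Fml) (W i c u : V) (F G : ℕ → V) : Prop := ∃ f : ℕ → V,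
    (∀ j < bnd φ, f j ∈ W) ∧ (∀ j < bnd φ, ZFSet.pair i (f j) ∈ F j ∨
      (i ∈ G j ∧ f j = Om)) ∧ Sat φ (val c u f)

/-- the formula for the intersection of a family -/
lemma isD0_fam (φ : Fml) : ∃ χ : Fml, ∀ (y W I : V) (F G : ℕ → V),
    Sat χ (val y W (fun n => if n = 0 then Om else if n = 1 then I else mix F G (n - 2))) ↔
      (∀ z ∈ y, z ∈ Om) ∧
      (∀ i ∈ I, ∃ c ∈ W, ∃ u ∈ W, Dec φ W i c u F G ∧ ∀ z ∈ y, z ∈ c) ∧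
      ∀ z ∈ Om, z ∈ y ∨ ∃ i ∈ I, ∃ c ∈ W, ∃ u ∈ W, Dec φ W i c u F G ∧ z ∉ c := by
  have h1 : IsD0 fun v => (∀ z ∈ v 0, z ∈ v 2) ∧
      (∀ i ∈ v 3, ∃ c ∈ v 1, ∃ u ∈ v 1, (∃ f : ℕ → V,
        (∀ j < bnd φ, f j ∈ v 1) ∧ (∀ j < bnd φ, ZFSet.pair i (f j) ∈ v (4 + 2 * j) ∨
          (i ∈ v (4 + 2 * j + 1) ∧ f j = v 2)) ∧ Sat φ (val c u f)) ∧ ∀ z ∈ v 0, z ∈ c) ∧
      ∀ z ∈ v 2, z ∈ v 0 ∨ ∃ i ∈ v 3, ∃ c ∈ v 1, ∃ u ∈ v 1, (∃ f : ℕ → V,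
        (∀ j < bnd φ, f j ∈ v 1) ∧ (∀ j < bnd φ, ZFSet.pair i (f j) ∈ v (4 + 2 * j) ∨
          (i ∈ v (4 + 2 * j + 1) ∧ f j = v 2)) ∧ Sat φ (val c u f)) ∧ z ∉ c := by
    refine IsD0.and ?_ (IsD0.and ?_ ?_)
    · exact IsD0.all 0 (R := fun z v => z ∈ v 2) (IsD0.mem 0 3)
    · refine IsD0.all 3 (R := fun i v => ∃ c ∈ v 1, ∃ u ∈ v 1, (∃ f : ℕ → V,
        (∀ j < bnd φ, f j ∈ v 1) ∧ (∀ j < bnd φ, ZFSet.pair i (f j) ∈ v (4 + 2 * j) ∨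
          (i ∈ v (4 + 2 * j + 1) ∧ f j = v 2)) ∧ Sat φ (val c u f)) ∧ ∀ z ∈ v 0, z ∈ c) ?_
      refine IsD0.ex 2 (R := fun c v => ∃ u ∈ v 2, (∃ f : ℕ → V,
        (∀ j < bnd φ, f j ∈ v 2) ∧ (∀ j < bnd φ, ZFSet.pair (v 0) (f j) ∈ v (4 + 2 * j + 1) ∨
          (v 0 ∈ v (4 + 2 * j + 1 + 1) ∧ f j = v 3)) ∧ Sat φ (val c u f)) ∧
            ∀ z ∈ v 1, z ∈ c) ?_
      refine IsD0.ex 3 (R := fun u v => (∃ f : ℕ → V,
        (∀ j < bnd φ, f j ∈ v 3) ∧ (∀ j < bnd φ, ZFSet.pair (v 1) (f j) ∈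
          v (4 + 2 * j + 1 + 1) ∨ (v 1 ∈ v (4 + 2 * j + 1 + 1 + 1) ∧ f j = v 4)) ∧
            Sat φ (val (v 0) u f)) ∧ ∀ z ∈ v 2, z ∈ v 0) ?_
      refine IsD0.and ?_ ?_
      · refine (IsD0.dec φ 4 2 7 5 1 0).congr fun v => ?_
        refine exists_congr fun f => and_congr Iff.rfl (and_congr (forall₂_congr fun j _ => ?_)
          Iff.rfl)
        rw [show 7 + 2 * j = 4 + 2 * j + 1 + 1 + 1 by ring,
          show 4 + 2 * j + 1 + 1 + 1 + 1 = 4 + 2 * j + 1 + 1 + 1 + 1 from rfl]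
      · exact IsD0.all 3 (R := fun z v => z ∈ v 1) (IsD0.mem 0 2)
    · refine IsD0.all 2 (R := fun z v => z ∈ v 0 ∨ ∃ i ∈ v 3, ∃ c ∈ v 1, ∃ u ∈ v 1,
        (∃ f : ℕ → V, (∀ j < bnd φ, f j ∈ v 1) ∧
          (∀ j < bnd φ, ZFSet.pair i (f j) ∈ v (4 + 2 * j) ∨
          (i ∈ v (4 + 2 * j + 1) ∧ f j = v 2)) ∧ Sat φ (val c u f)) ∧ z ∉ c) ?_
      refine (IsD0.mem 0 1).or ?_
      refine IsD0.ex 4 (R := fun i v => ∃ c ∈ v 2, ∃ u ∈ v 2,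
        (∃ f : ℕ → V, (∀ j < bnd φ, f j ∈ v 2) ∧
          (∀ j < bnd φ, ZFSet.pair i (f j) ∈ v (4 + 2 * j + 1) ∨
          (i ∈ v (4 + 2 * j + 1 + 1) ∧ f j = v 3)) ∧ Sat φ (val c u f)) ∧ v 0 ∉ c) ?_
      refine IsD0.ex 3 (R := fun c v => ∃ u ∈ v 3,
        (∃ f : ℕ → V, (∀ j < bnd φ, f j ∈ v 3) ∧
          (∀ j < bnd φ, ZFSet.pair (v 0) (f j) ∈ v (4 + 2 * j + 1 + 1) ∨
          (v 0 ∈ v (4 + 2 * j + 1 + 1 + 1) ∧ f j = v 4)) ∧ Sat φ (val c u f)) ∧ v 1 ∉ c) ?_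
      refine IsD0.ex 4 (R := fun u v =>
        (∃ f : ℕ → V, (∀ j < bnd φ, f j ∈ v 4) ∧
          (∀ j < bnd φ, ZFSet.pair (v 1) (f j) ∈ v (4 + 2 * j + 1 + 1 + 1) ∨
          (v 1 ∈ v (4 + 2 * j + 1 + 1 + 1 + 1) ∧ f j = v 5)) ∧ Sat φ (val (v 0) u f)) ∧
            v 2 ∉ v 0) ?_
      refine IsD0.and ?_ (IsD0.mem 3 1).not
      refine (IsD0.dec φ 5 2 8 6 1 0).congr fun v => ?_
      refine exists_congr fun f => and_congr Iff.rfl (and_congr (forall₂_congr fun j _ => ?_)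
        Iff.rfl)
      rw [show 8 + 2 * j = 4 + 2 * j + 1 + 1 + 1 + 1 by ring]
  obtain ⟨χ, hχ⟩ := h1
  refine ⟨χ, fun y W I F G => ?_⟩
  rw [hχ]
  have e1 : ∀ j, val y W (fun n => if n = 0 then Om else if n = 1 then I else mix F G (n - 2))
      (4 + 2 * j) = F j := by
    intro j
    rw [show 4 + 2 * j = (2 * j + 2) + 2 by ring]
    simp only [val]
    rw [if_neg (by omega), if_neg (by omega), Nat.add_sub_cancel, mix_even]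
  have e2 : ∀ j, val y W (fun n => if n = 0 then Om else if n = 1 then I else mix F G (n - 2))
      (4 + 2 * j + 1) = G j := by
    intro j
    rw [show 4 + 2 * j + 1 = (2 * j + 3) + 2 by ring]
    simp only [val]
    rw [if_neg (by omega), if_neg (by omega), show 2 * j + 3 - 2 = 2 * j + 1 by omega, mix_odd]
  simp only [e1, e2]
  rfl

end Pool.Agent.SigOne
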