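import Mathlib

/-!
# Bounded formulas of set theory
-/

namespace Pool.Agent.SigOne

open Cardinal Ordinal Set

/-- the universe of sets -/
abbrev V : Type 1 := ZFSet.{0}

/-- `Δ₀`-formulas of the language of set theory. The variables are `x_0, x_1, ...`, `ball i j φ` is
the formula `∀ x_i ∈ x_j, φ` -/
inductive Fml : Type
  | mem (i j : ℕ) : Fml
  | eq (i j : ℕ) : Fml
  | neg (φ : Fml) : Fml
  | and (φ ψ : Fml) : Fml
  | ball (i j : ℕ) (φ : Fml) : Fml
  deriving Countable

/-- satisfaction in the universe of sets -/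
def Sat : Fml → (ℕ → V) → Prop
  | .mem i j, v => v i ∈ v j
  | .eq i j, v => v i = v j
  | .neg φ, v => ¬ Sat φ v
  | .and φ ψ, v => Sat φ v ∧ Sat ψ v
  | .ball i j φ, v => ∀ x ∈ v j, Sat φ (Function.update v i x)

/-- a strict upper bound for the variables -/
def bnd : Fml → ℕ
  | .mem i j => max i j + 1
  | .eq i j => max i j + 1
  | .neg φ => bnd φ
  | .and φ ψ => max (bnd φ) (bnd ψ)
  | .ball i j φ => max (max i j + 1) (bnd φ)

lemma sat_congr {φ : Fml} {v v' : ℕ → V} (h : ∀ n < bnd φ, v n = v' n) :
    Sat φ v ↔ Sat φ v' := by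
  induction φ generalizing v v' with
  | mem i j =>
    have h1 := h i (by simp only [bnd]; omega)
    have h2 := h j (by simp only [bnd]; omega)
    simp only [Sat, h1, h2]
  | eq i j =>
    have h1 := h i (by simp only [bnd]; omega)
    have h2 := h j (by simp only [bnd]; omega)
    simp only [Sat, h1, h2]
  | neg φ ih => simp only [Sat, ih h]
  | and φ ψ ih1 ih2 =>
    simp only [Sat, ih1 fun n hn => h n (by simp only [bnd]; omega),
      ih2 fun n hn => h n (by simp only [bnd]; omega)]
  | ball i j φ ih =>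
    have h2 := h j (by simp only [bnd]; omega)
    simp only [Sat, h2]
    refine forall₂_congr fun x _ => ih fun n hn => ?_
    by_cases hni : n = i
    · subst hni
      simp
    · rw [Function.update_of_ne hni, Function.update_of_ne hni]
      exact h n (by simp only [bnd]; omega)

/-- renaming of all variables -/
def rename (f : ℕ → ℕ) : Fml → Fml
  | .mem i j => .mem (f i) (f j)
  | .eq i j => .eq (f i) (f j)
  | .neg φ => .neg (rename f φ)
  | .and φ ψ => .and (rename f φ) (rename f ψ)
  | .ball i j φ => .ball (f i) (f j) (rename f φ)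

lemma sat_rename {f : ℕ → ℕ} (hf : Function.Injective f) (φ : Fml) (v : ℕ → V) :
    Sat (rename f φ) v ↔ Sat φ (v ∘ f) := by
  induction φ generalizing v with
  | mem i j => rfl
  | eq i j => rfl
  | neg φ ih => simp only [rename, Sat, ih]
  | and φ ψ ih1 ih2 => simp only [rename, Sat, ih1, ih2]
  | ball i j φ ih =>
    simp only [rename, Sat, ih, Function.comp_apply]
    refine forall₂_congr fun x _ => ?_
    have : Function.update v (f i) x ∘ f = Function.update (v ∘ f) i x := by
      funext n
      by_cases hn : n = i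
      · subst hn
        simp
      · rw [Function.update_of_ne hn, Function.comp_apply,
          Function.update_of_ne (fun h => hn (hf h)), Function.comp_apply]
    rw [this]

/-- `R` is defined by a `Δ₀`-formula -/
def IsD0 (R : (ℕ → V) → Prop) : Prop := ∃ φ : Fml, ∀ v, Sat φ v ↔ R v

namespace IsD0

lemma mem (i j : ℕ) : IsD0 fun v => v i ∈ v j := ⟨.mem i j, fun _ => Iff.rfl⟩

lemma eq (i j : ℕ) : IsD0 fun v => v i = v j := ⟨.eq i j, fun _ => Iff.rfl⟩

lemma not {R : (ℕ → V) → Prop} (h : IsD0 R) : IsD0 fun v => ¬ R v := by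
  obtain ⟨φ, hφ⟩ := h
  exact ⟨.neg φ, fun v => by simp only [Sat, hφ]⟩

lemma and {R S : (ℕ → V) → Prop} (h : IsD0 R) (h' : IsD0 S) : IsD0 fun v => R v ∧ S v := by
  obtain ⟨φ, hφ⟩ := h
  obtain ⟨ψ, hψ⟩ := h'
  exact ⟨.and φ ψ, fun v => by simp only [Sat, hφ, hψ]⟩

lemma congr {R S : (ℕ → V) → Prop} (h : IsD0 R) (h' : ∀ v, R v ↔ S v) : IsD0 S := by
  obtain ⟨φ, hφ⟩ := h
  exact ⟨φ, fun v => (hφ v).trans (h' v)⟩

lemma or {R S : (ℕ → V) → Prop} (h : IsD0 R) (h' : IsD0 S) : IsD0 fun v => R v ∨ S v :=
  ((h.not.and h'.not).not).congr fun v => by tauto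

lemma imp {R S : (ℕ → V) → Prop} (h : IsD0 R) (h' : IsD0 S) : IsD0 fun v => R v → S v :=
  (h.not.or h').congr fun v => by tauto

lemma ball (i j : ℕ) {R : (ℕ → V) → Prop} (h : IsD0 R) :
    IsD0 fun v => ∀ x ∈ v j, R (Function.update v i x) := by
  obtain ⟨φ, hφ⟩ := h
  exact ⟨.ball i j φ, fun v => by simp only [Sat, hφ]⟩

lemma bex (i j : ℕ) {R : (ℕ → V) → Prop} (h : IsD0 R) :
    IsD0 fun v => ∃ x ∈ v j, R (Function.update v i x) :=
  ((h.not.ball i j).not).congr fun v => by push Not; rfl

lemma comp {R : (ℕ → V) → Prop} (h : IsD0 R) {f : ℕ → ℕ} (hf : Function.Injective f) :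
    IsD0 fun v => R (v ∘ f) := by
  obtain ⟨φ, hφ⟩ := h
  exact ⟨rename f φ, fun v => by rw [sat_rename hf, hφ]⟩

end IsD0

/-- the subformulas -/
def subs : Fml → List Fml
  | .mem i j => [.mem i j]
  | .eq i j => [.eq i j]
  | .neg φ => .neg φ :: subs φ
  | .and φ ψ => .and φ ψ :: (subs φ ++ subs ψ)
  | .ball i j φ => .ball i j φ :: subs φ

lemma self_mem_subs (φ : Fml) : φ ∈ subs φ := by cases φ <;> simp [subs]

lemma subs_trans {φ ψ : Fml} (h : ψ ∈ subs φ) : ∀ χ ∈ subs ψ, χ ∈ subs φ := by
  induction φ with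
  | mem i j =>
    simp only [subs, List.mem_singleton] at h
    subst h
    exact fun χ h => h
  | eq i j =>
    simp only [subs, List.mem_singleton] at h
    subst h
    exact fun χ h => h
  | neg φ ih =>
    simp only [subs, List.mem_cons] at h
    rcases h with h | h
    · subst h
      exact fun χ h => h
    · exact fun χ hχ => List.mem_cons_of_mem _ (ih h χ hχ)
  | and φ ψ ih1 ih2 =>
    simp only [subs, List.mem_cons, List.mem_append] at h
    rcases h with h | h | h
    · subst h
      exact fun χ h => h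
    · exact fun χ hχ => List.mem_cons_of_mem _ (List.mem_append_left _ (ih1 h χ hχ))
    · exact fun χ hχ => List.mem_cons_of_mem _ (List.mem_append_right _ (ih2 h χ hχ))
  | ball i j φ ih =>
    simp only [subs, List.mem_cons] at h
    rcases h with h | h
    · subst h
      exact fun χ h => h
    · exact fun χ hχ => List.mem_cons_of_mem _ (ih h χ hχ)

lemma bnd_le {φ ψ : Fml} (h : ψ ∈ subs φ) : bnd ψ ≤ bnd φ := by
  induction φ with
  | mem i j => 
    simp only [subs, List.mem_singleton] at h
    subst h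
    exact le_rfl
  | eq i j =>
    simp only [subs, List.mem_singleton] at h
    subst h
    exact le_rfl
  | neg φ ih =>
    simp only [subs, List.mem_cons] at h
    rcases h with h | h
    · subst h
      exact le_rfl
    · exact ih h
  | and φ ψ ih1 ih2 =>
    simp only [subs, List.mem_cons, List.mem_append] at h
    rcases h with h | h | h
    · subst h
      exact le_rfl
    · exact (ih1 h).trans (le_max_left _ _)
    · exact (ih2 h).trans (le_max_right _ _)
  | ball i j φ ih =>
    simp only [subs, List.mem_cons] at h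
    rcases h with h | h
    · subst h
      exact le_rfl
    · exact (ih h).trans (le_max_right _ _)

end Pool.Agent.SigOne
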