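import Mathlib

/-!
# Jónsson cardinals: the combinatorics of subalgebras
-/

namespace Pool.Agent.SigOne

open Cardinal Ordinal Set

universe v

/-- `κ` is a Jónsson cardinal: every structure of size `κ` for a countable first-order language has
a proper elementary substructure of size `κ` -/
def IsJonsson (κ : Cardinal.{0}) : Prop :=
  ∀ (L : FirstOrder.Language.{0, 0}) (M : Type) [L.Structure M], L.card ≤ ℵ₀ → #M = κ →
    ∃ S : L.ElementarySubstructure M, (S : Set M) ≠ Set.univ ∧ #S = κ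

/-- `X` is closed under the operations `F i` on finite sequences -/
def Cl {N : Type v} (F : ℕ → List N → N) (X : Set N) : Prop :=
  ∀ (i : ℕ) (l : List N), (∀ x ∈ l, x ∈ X) → F i l ∈ X

/-- the language with countably many function symbols of every arity -/
def LF : FirstOrder.Language.{0, 0} := ⟨fun _ => ℕ, fun _ => Empty⟩

lemma card_LF : LF.card ≤ ℵ₀ := by
  have h : Countable LF.Symbols := by
    unfold FirstOrder.Language.Symbols LF
    infer_instance
  exact Cardinal.mk_le_aleph0_iff.2 h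

theorem exists_closed (hJ : IsJonsson (ℵ_ ω)) {N : Type 1} (hN : #N = ℵ_ ω)
    (F : ℕ → List N → N) : ∃ X : Set N, Cl F X ∧ X ≠ Set.univ ∧ #X = ℵ_ ω := by
  obtain ⟨M0, hM0⟩ : ∃ M0 : Type, #M0 = ℵ_ ω := ⟨(ℵ_ ω : Cardinal.{0}).out, Cardinal.mk_out _⟩
  have h1 : Cardinal.lift.{0} #N = Cardinal.lift.{1} #M0 := by
    rw [hM0, hN, Cardinal.lift_aleph, Ordinal.lift_omega0, Cardinal.lift_aleph,
      Ordinal.lift_omega0]
  obtain ⟨e⟩ := Cardinal.lift_mk_eq'.1 h1
  let _ : LF.Structure M0 := ⟨fun {n} i v => e (F i ((List.ofFn v).map e.symm)), fun r => r.elim⟩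
  obtain ⟨S, hS1, hS2⟩ := hJ LF M0 card_LF hM0
  refine ⟨{n | e n ∈ S}, ?_, ?_, ?_⟩
  · intro i l hl
    have h2 : FirstOrder.Language.Structure.funMap (L := LF) (M := M0) (n := l.length) i
        (fun k => e (l.get k)) ∈ S :=
      S.toSubstructure.fun_mem (n := l.length) i (fun k => e (l.get k))
        (fun k => hl _ (l.get_mem k))
    have h3 : FirstOrder.Language.Structure.funMap (L := LF) (M := M0) (n := l.length) i
        (fun k => e (l.get k)) = e (F i l) := by
      change e (F i ((List.ofFn (fun k => e (l.get k))).map e.symm)) = _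
      congr 2
      rw [List.map_ofFn]
      have : (e.symm ∘ fun k => e (l.get k)) = l.get := by
        funext k
        simp
      rw [this, List.ofFn_get]
    rw [h3] at h2
    exact h2
  · intro h
    apply hS1
    ext y
    simp only [Set.mem_univ, iff_true]
    have : e.symm y ∈ {n | e n ∈ S} := by rw [h]; trivial
    simpa using this
  · have h2 : Cardinal.lift.{0} #({n | e n ∈ S} : Set N) = Cardinal.lift.{1} #S := by
      refine Cardinal.lift_mk_eq'.2 ⟨?_⟩
      exact e.subtypeEquiv (fun a => Iff.rfl)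
    rw [hS2, Cardinal.lift_aleph, Ordinal.lift_omega0, Cardinal.lift_id'.{0}] at h2
    simpa using h2


/-- a bijection from `α` onto its cardinality -/
lemma exists_bij (α : Ordinal.{0}) : ∃ b s : Ordinal.{0} → Ordinal.{0},
    (∀ ξ < α, b ξ < α.card.ord) ∧ (∀ ξ < α, s (b ξ) = ξ) := by
  have h : #(Iio α) = #(Iio α.card.ord) := by
    rw [Cardinal.mk_Iio_ordinal, Cardinal.mk_Iio_ordinal, Cardinal.card_ord]
  obtain ⟨e⟩ := Cardinal.eq.1 h
  classical
  refine ⟨fun ξ => if hx : ξ < α then (e ⟨ξ, hx⟩).1 else 0,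
    fun η => if hy : η < α.card.ord then (e.symm ⟨η, hy⟩).1 else 0, ?_, ?_⟩
  · intro ξ hξ
    simp only [hξ, dite_true]
    exact (e ⟨ξ, hξ⟩).2
  · intro ξ hξ
    simp only [hξ, dite_true]
    have : (e ⟨ξ, hξ⟩).1 < α.card.ord := (e ⟨ξ, hξ⟩).2
    rw [dif_pos this]
    simp

noncomputable def bij (α ξ : Ordinal.{0}) : Ordinal.{0} := (exists_bij α).choose ξ

noncomputable def inv (α ξ : Ordinal.{0}) : Ordinal.{0} := (exists_bij α).choose_spec.choose ξ

lemma bij_lt {α ξ : Ordinal.{0}} (h : ξ < α) : bij α ξ < α.card.ord :=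
  (exists_bij α).choose_spec.choose_spec.1 ξ h

lemma inv_bij {α ξ : Ordinal.{0}} (h : ξ < α) : inv α (bij α ξ) = ξ :=
  (exists_bij α).choose_spec.choose_spec.2 ξ h

/-- closed under the bijections, their inverses and the predecessor -/
structure Gd (X : Set Ordinal.{0}) : Prop where
  bij : ∀ α ∈ X, ∀ ξ ∈ X, ξ < α → bij α ξ ∈ X
  inv : ∀ α ∈ X, ∀ ξ < α, SigOne.bij α ξ ∈ X → ξ ∈ X
  pred : ∀ n : ℕ, ((n + 1 : ℕ) : Ordinal.{0}) ∈ X → (n : Ordinal.{0}) ∈ X

lemma card_Iio_omega (m : ℕ) : #(Iio (ω_ m : Ordinal.{0})) = ℵ_ m := by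
  rw [Cardinal.mk_Iio_ordinal, Ordinal.card_omega, Cardinal.lift_aleph]
  simp

lemma card_Iio_le {m : ℕ} {α : Ordinal.{0}} (h : α < ω_ (m + 1 : ℕ)) : #(Iio α) ≤ ℵ_ m := by
  rw [Cardinal.mk_Iio_ordinal]
  have h1 : α.card < ℵ_ (m + 1 : ℕ) := by rwa [← Cardinal.lt_omega_iff_card_lt]
  push_cast at h1
  rw [← Cardinal.succ_aleph, Order.lt_succ_iff] at h1
  have h2 := Cardinal.lift_le.{1}.2 h1
  rw [Cardinal.lift_aleph] at h2
  simpa using h2

theorem stepA {X : Set Ordinal.{0}} (hX : Gd X) (m : ℕ)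
    (h : #(X ∩ Iio (ω_ m) : Set Ordinal.{0}) = ℵ_ m) : Iio (ω_ m) ⊆ X := by
  induction m with
  | zero =>
    intro k hk
    simp only [Nat.cast_zero, Ordinal.omega_zero, Cardinal.aleph_zero] at h hk
    obtain ⟨k, rfl⟩ := Ordinal.lt_omega0.1 hk
    have h1 : ∃ l : ℕ, k ≤ l ∧ (l : Ordinal.{0}) ∈ X := by
      by_contra h2
      push Not at h2
      have h3 : (X ∩ Iio ω : Set Ordinal.{0}) ⊆ (Nat.cast '' (Finset.range k : Set ℕ)) := by
        rintro x ⟨hx, hx'⟩
        obtain ⟨l, rfl⟩ := Ordinal.lt_omega0.1 hx'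
        refine ⟨l, ?_, rfl⟩
        rw [Finset.mem_coe, Finset.mem_range]
        by_contra h4
        exact h2 l (not_lt.1 h4) hx
      have h4 : (X ∩ Iio ω : Set Ordinal.{0}).Finite :=
        ((Finset.finite_toSet _).image _).subset h3
      have h5 := Cardinal.lt_aleph0_iff_set_finite.2 h4
      rw [h] at h5
      exact lt_irrefl _ h5
    obtain ⟨l, hl, hlX⟩ := h1
    clear h hk
    induction l with
    | zero =>
      obtain rfl : k = 0 := by omega
      exact hlX
    | succ l ih =>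
      rcases Nat.lt_or_ge l k with h5 | h5
      · obtain rfl : k = l + 1 := by omega
        exact hlX
      · exact ih h5 (hX.pred l hlX)
  | succ m ih =>
    set Y : Set Ordinal.{0} := X ∩ Iio (ω_ (m + 1 : ℕ)) with hY
    have hlt : (ℵ_ (m : ℕ) : Cardinal.{1}) < ℵ_ ((m + 1 : ℕ) : Ordinal.{1}) := by
      rw [Cardinal.aleph_lt_aleph]
      exact_mod_cast Nat.lt_succ_self m
    -- a point with `ℵ_m` predecessors
    have h1 : ∃ α ∈ X, α < ω_ (m + 1 : ℕ) ∧ #(X ∩ Iio α : Set Ordinal.{0}) = ℵ_ m := by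
      have h2 : (ω_ (m : ℕ) : Ordinal.{1}) < typeLT Y := by
        by_contra h3
        have h4 := Ordinal.card_le_card (not_lt.1 h3)
        rw [Ordinal.card_type, h, Ordinal.card_omega] at h4
        exact absurd hlt (not_lt.2 h4)
      obtain ⟨a, ha⟩ := Ordinal.typein_surj (· < ·) h2
      have h3 := Ordinal.card_typein (r := ((· < ·) : Y → Y → Prop)) a
      rw [ha, Ordinal.card_omega] at h3
      refine ⟨a.1, a.2.1, a.2.2, ?_⟩
      rw [h3]
      refine Cardinal.mk_congr ?_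
      refine ⟨fun x => ⟨⟨x.1, x.2.1, Set.mem_Iio.2 (lt_trans (Set.mem_Iio.1 x.2.2)
        (Set.mem_Iio.1 a.2.2))⟩, x.2.2⟩,
        fun y => ⟨y.1.1, y.1.2.1, y.2⟩, fun x => rfl, fun y => rfl⟩
    obtain ⟨α, hα, hα1, hα2⟩ := h1
    have hle : ∀ β < (ω_ (m + 1 : ℕ) : Ordinal.{0}), β.card.ord ≤ ω_ m := by
      intro β hβ
      rw [← Cardinal.ord_aleph, Cardinal.ord_le_ord]
      have h1 : β.card < ℵ_ (m + 1 : ℕ) := by rwa [← Cardinal.lt_omega_iff_card_lt]
      push_cast at h1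
      rwa [← Cardinal.succ_aleph, Order.lt_succ_iff] at h1
    have h2 : #(X ∩ Iio (ω_ m) : Set Ordinal.{0}) = ℵ_ m := by
      apply le_antisymm
      · rw [← card_Iio_omega]
        exact Cardinal.mk_le_mk_of_subset Set.inter_subset_right
      · rw [← hα2]
        refine Cardinal.mk_le_of_injective (f := fun x : (X ∩ Iio α : Set Ordinal.{0}) =>
          (⟨bij α x.1, hX.bij α hα x.1 x.2.1 x.2.2,
            lt_of_lt_of_le (bij_lt x.2.2) (hle α hα1)⟩ : (X ∩ Iio (ω_ m) : Set Ordinal.{0}))) ?_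
        intro x y hxy
        have h3 : bij α x.1 = bij α y.1 := congrArg Subtype.val hxy
        apply Subtype.ext
        rw [← inv_bij x.2.2, ← inv_bij y.2.2, h3]
    have h3 := ih h2
    intro γ hγ
    have h4 : ∃ β ∈ X, γ < β ∧ β < ω_ (m + 1 : ℕ) := by
      by_contra h5
      push Not at h5
      have h6 : Y ⊆ Iio (γ + 1) := by
        rintro x ⟨hx, hx'⟩
        rw [Set.mem_Iio, ← Order.succ_eq_add_one, Order.lt_succ_iff]
        by_contra h7
        exact absurd hx' (not_lt.2 (h5 x hx (not_le.1 h7)))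
      have h7 : γ + 1 < ω_ (m + 1 : ℕ) := by
        rw [← Order.succ_eq_add_one]
        exact (Cardinal.isSuccLimit_omega _).succ_lt hγ
      have h8 := (Cardinal.mk_le_mk_of_subset h6).trans (card_Iio_le h7)
      rw [h] at h8
      exact absurd hlt (not_lt.2 h8)
    obtain ⟨β, hβ, hβ1, hβ2⟩ := h4
    exact hX.inv β hβ γ hβ1 (h3 (lt_of_lt_of_le (bij_lt hβ1) (hle β hβ2)))


/-- the ordinals below `ω_ω` -/
abbrev O : Type 1 := {ξ : Ordinal.{0} // ξ < ω_ ω}

lemma mk_O : #O = ℵ_ ω := by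
  change #(Iio (ω_ ω : Ordinal.{0})) = ℵ_ ω
  rw [Cardinal.mk_Iio_ordinal, Ordinal.card_omega, Cardinal.lift_aleph, Ordinal.lift_omega0]

lemma exists_lt_omega {ξ : Ordinal.{0}} (h : ξ < ω_ ω) : ∃ m : ℕ, ξ < ω_ m := by
  have h1 := Ordinal.isNormal_omega.lt_iff_exists_lt (b := ξ) Ordinal.isSuccLimit_omega0
  obtain ⟨b, hb, hb'⟩ := h1.1 h
  obtain ⟨m, rfl⟩ := Ordinal.lt_omega0.1 hb
  exact ⟨m, hb'⟩

lemma omega_lt (m : ℕ) : (ω_ m : Ordinal.{0}) < ω_ ω := by
  rw [Ordinal.omega_lt_omega]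
  exact Ordinal.natCast_lt_omega0 m

theorem exists_m0 (hJ : IsJonsson (ℵ_ ω)) : ∃ m₀ : ℕ, ∀ F : ℕ → List O → O, ∃ X : Set O,
    Cl F X ∧ #X = ℵ_ ω ∧ ∃ ξ : O, ξ.1 < ω_ m₀ ∧ ξ ∉ X := by
  by_contra hcon
  push Not at hcon
  choose F hF using hcon
  obtain ⟨X, h1, h2, h3⟩ := exists_closed hJ mk_O
    (fun i => F (Nat.unpair i).1 (Nat.unpair i).2)
  apply h2
  ext ξ
  simp only [Set.mem_univ, iff_true]
  obtain ⟨m, hm⟩ := exists_lt_omega ξ.2
  refine hF m X ?_ h3 ξ hm
  intro i l hl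
  have := h1 (Nat.pair m i) l hl
  simpa using this

theorem exists_X (hJ : IsJonsson (ℵ_ ω)) : ∃ m₀ : ℕ, ∀ {N : Type 1} (_ : #N = ℵ_ ω) (ι : O → N)
    (_ : Function.Injective ι) (F : ℕ → List N → N), ∃ X : Set N,
    Cl F X ∧ #(ι ⁻¹' X) = ℵ_ ω ∧ ∃ ξ : O, ξ.1 < ω_ m₀ ∧ ι ξ ∉ X := by
  obtain ⟨m₀, hm⟩ := exists_m0 hJ
  refine ⟨m₀, fun {N} hN ι hι F => ?_⟩
  obtain ⟨e⟩ : Nonempty (N ≃ O) := Cardinal.eq.1 (hN.trans mk_O.symm)
  have hO : Nonempty O := ⟨⟨0, Ordinal.omega_pos _⟩⟩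
  let F' : ℕ → List O → O := fun i l => match i with
    | 0 => match l with
      | [a] => e (ι a)
      | _ => Classical.arbitrary O
    | 1 => match l with
      | [a] => Function.invFun (fun ξ => e (ι ξ)) a
      | _ => Classical.arbitrary O
    | i + 2 => e (F i (l.map e.symm))
  obtain ⟨X, h1, h2, ξ, h3, h4⟩ := hm F'
  have h5 : ∀ ζ : O, ζ ∈ X ↔ e (ι ζ) ∈ X := by
    intro ζ
    constructor
    · intro h
      exact h1 0 [ζ] (by simpa using h)
    · intro h
      have h6 := h1 1 [e (ι ζ)] (by simpa using h)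
      have h7 : F' 1 [e (ι ζ)] = ζ :=
        Function.leftInverse_invFun (f := fun ξ => e (ι ξ))
          (fun a b hab => hι (e.injective hab)) ζ
      rwa [h7] at h6
  refine ⟨{n | e n ∈ X}, ?_, ?_, ξ, h3, ?_⟩
  · intro i l hl
    have h6 := h1 (i + 2) (l.map e) (by simpa using hl)
    have h7 : F' (i + 2) (l.map e) = e (F i l) := by
      change e (F i ((l.map e).map e.symm)) = _
      rw [List.map_map]
      simp
    rw [h7] at h6
    exact h6
  · have : ι ⁻¹' {n | e n ∈ X} = X := by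
      ext ζ
      exact (h5 ζ).symm
    rw [this, h2]
  · intro h
    exact h4 ((h5 ξ).2 h)


theorem exists_hull {W : Type 1} (G : ℕ → List W → W) (s : Set W) (hs : #s ≤ ℵ_ ω) :
    ∃ Φ : Set W, s ⊆ Φ ∧ Cl G Φ ∧ #Φ ≤ ℵ_ ω := by
  let _ : LF.Structure W := ⟨fun {n} i v => G i (List.ofFn v), fun r => r.elim⟩
  refine ⟨FirstOrder.Language.Substructure.closure LF s,
    FirstOrder.Language.Substructure.subset_closure, ?_, ?_⟩
  · intro i l hl
    have h2 : FirstOrder.Language.Structure.funMap (L := LF) (M := W) (n := l.length) i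
        (fun k => l.get k) ∈ FirstOrder.Language.Substructure.closure LF s :=
      (FirstOrder.Language.Substructure.closure LF s).fun_mem (n := l.length) i _
        (fun k => hl _ (l.get_mem k))
    have h3 : FirstOrder.Language.Structure.funMap (L := LF) (M := W) (n := l.length) i
        (fun k => l.get k) = G i l := by
      change G i (List.ofFn (fun k => l.get k)) = _
      congr 1
      exact List.ofFn_get l
    rw [h3] at h2
    exact h2
  · have h := FirstOrder.Language.Substructure.lift_card_closure_le (L := LF) (s := s)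
    have h1 : #(Σ i, LF.Functions i) ≤ ℵ₀ := by
      refine Cardinal.mk_le_aleph0_iff.2 ?_
      unfold LF
      infer_instance
    have h2 : Cardinal.lift.{0} #(FirstOrder.Language.Substructure.closure LF s : Set W) ≤ ℵ_ ω := by
      refine h.trans (max_le (Cardinal.aleph0_le_aleph _) ?_)
      refine (add_le_add (b := ℵ_ ω) (d := ℵ_ ω) ?_ ?_).trans_eq ?_
      · simpa using hs
      · refine (Cardinal.lift_le_aleph0.2 h1).trans (Cardinal.aleph0_le_aleph _)
      · exact Cardinal.add_eq_self (Cardinal.aleph0_le_aleph _)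
    simpa using h2

end Pool.Agent.SigOne
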