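import Pool.Agent.Work.MP_680e5b_lc.Press

/-!
# The values at the cardinals `ω_n` are repeated
-/

namespace Pool.Agent.SigOne

open Cardinal Ordinal Set

theorem repeat_value (hJ : IsJonsson (ℵ_ ω)) : ∃ m₀ : ℕ, ∀ k : ℕ, m₀ ≤ k + 1 →
    ∀ (φ : Fml) (v : ℕ → V) (r : Ordinal.{0} → Ordinal.{0}),
      (∀ n, v n ∈ Hs k ∨ v n = Om) → DefFun φ v r → Reg r →
      ∀ l, k + 1 ≤ l → r (ω_ l) = r (ω_ (k + 1 : ℕ)) →
        ∃ l' > l, r (ω_ (l' : ℕ)) = r (ω_ (k + 1 : ℕ)) := by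
  obtain ⟨m₀, hm₀⟩ := row hJ
  refine ⟨m₀, fun k hk φ v r hv hr hreg l hl hrl => ?_⟩
  have hlt : ∀ n : ℕ, (ω_ n : Ordinal.{0}) < ω_ ω := omega_lt
  obtain ⟨P, hP, hP'⟩ := exists_par hv
  have hβlt : ∀ n : ℕ, r (ω_ n) < ω_ ω := fun n => hr.lt _ (hlt n)
  have hw : ∀ n : ℕ, ∃ w, Sat φ (val3 (ω_ n : Ordinal.{0}).toZFSet (r (ω_ n)).toZFSet w v) :=
    fun n => (hr.iff _ (hlt n) _ (hβlt n)).1 rfl
  choose w hw using hw
  let A : Set V := P ∪ ((range w ∪ range fun n : ℕ => (ω_ n : Ordinal.{0}).toZFSet) ∪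
    range fun n : ℕ => (r (ω_ n)).toZFSet)
  have hA : #A ≤ ℵ_ k := by
    refine (Cardinal.mk_union_le _ _).trans ?_
    refine (add_le_add (b := ℵ_ k) (d := ℵ_ k) hP ?_).trans_eq
      (Cardinal.add_eq_self (Cardinal.aleph0_le_aleph _))
    refine le_trans ?_ (Cardinal.aleph0_le_aleph _)
    exact Cardinal.mk_le_aleph0_iff.2 (Set.Countable.to_subtype
      (((Set.countable_range _).union (Set.countable_range _)).union (Set.countable_range _)))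
  obtain ⟨X, hX, -⟩ := hm₀ k hk 0 io io_inj (ops φ) A hA
  have hext := ext_of_cl hX.cl
  have hwit := wit_of_cl hX.cl
  have hO := coll_Om hext hX.card
  obtain ⟨hOX, hPX⟩ := hP' X (fun x hx => hX.sub (Or.inl hx)) hO
  have hwX : ∀ n, w n ∈ X := fun n => hX.sub (Or.inr (Or.inl (Or.inl ⟨n, rfl⟩)))
  have hnX : ∀ n : ℕ, (ω_ n : Ordinal.{0}).toZFSet ∈ X :=
    fun n => hX.sub (Or.inr (Or.inl (Or.inr ⟨n, rfl⟩)))
  have hβX : ∀ n : ℕ, (r (ω_ n)).toZFSet ∈ X := fun n => hX.sub (Or.inr (Or.inr ⟨n, rfl⟩))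
  set B := ordPart io X with hB
  -- the jump
  have hmono : ∀ {i j : ℕ}, i ≤ j → #(B ∩ Iio (ω_ i) : Set Ordinal.{0}) ≤
      #(B ∩ Iio (ω_ j) : Set Ordinal.{0}) := by
    intro i j hij
    refine Cardinal.mk_le_mk_of_subset (Set.inter_subset_inter_right _ (Set.Iio_subset_Iio ?_))
    rw [Ordinal.omega_le_omega]
    exact_mod_cast hij
  have hex : ∃ l' : ℕ, ℵ_ l ≤ #(B ∩ Iio (ω_ l') : Set Ordinal.{0}) := by
    by_contra h
    push Not at h
    have h1 : B ⊆ ⋃ n : ℕ, B ∩ Iio (ω_ n) := by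
      intro ξ hξ
      obtain ⟨n, hn⟩ := exists_lt_omega hξ.1
      exact Set.mem_iUnion.2 ⟨n, hξ, hn⟩
    have h2 := Cardinal.mk_le_mk_of_subset h1
    have h3 := Cardinal.mk_iUnion_le_lift (fun n : ℕ => (B ∩ Iio (ω_ n) : Set Ordinal.{0}))
    have h4 : (⨆ n : ℕ, Cardinal.lift.{0} #(B ∩ Iio (ω_ n) : Set Ordinal.{0})) ≤ ℵ_ l :=
      ciSup_le' fun n => (Cardinal.lift_uzero _).trans_le (h n).le
    have h5 := h3.trans (mul_le_mul' (le_refl _) h4)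
    rw [Cardinal.mk_nat, Cardinal.lift_aleph0, Cardinal.lift_uzero,
      Cardinal.aleph0_mul_eq (Cardinal.aleph0_le_aleph _)] at h5
    have h6 : (ℵ_ ω : Cardinal.{1}) ≤ ℵ_ l := by
      rw [← hX.card]
      exact h2.trans h5
    rw [Cardinal.aleph_le_aleph] at h6
    exact absurd h6 (not_le.2 (Ordinal.natCast_lt_omega0 l))
  classical
  set l' := Nat.find hex with hl'
  have hl1 : ℵ_ l ≤ #(B ∩ Iio (ω_ l') : Set Ordinal.{0}) := Nat.find_spec hex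
  have hl2 : l < l' := by
    by_contra h
    exact absurd (hl1.trans (hmono (not_lt.1 h))) (not_le.2 (hX.lt l hl))
  have hl3 : #(B ∩ Iio (ω_ (l' - 1 : ℕ)) : Set Ordinal.{0}) < ℵ_ l := by
    rw [← not_le]
    exact Nat.find_min hex (by omega)
  -- the collapse of `ω_l'`
  have hcoll : coll X (ω_ l' : Ordinal.{0}).toZFSet = (ω_ l : Ordinal.{0}).toZFSet := by
    obtain ⟨τ, hτ1, hτ2⟩ := coll_ord (X := X) (ω_ l')
    have h1 := card_coll_ord hext (hlt l').le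
    rw [hτ2, Ordinal.card_toZFSet] at h1
    have h2 : (ω_ l : Ordinal.{0}) ≤ τ := by
      by_contra h
      rw [not_le, Cardinal.lt_omega_iff_card_lt] at h
      have h3 := Cardinal.lift_lt.{0, 1}.2 h
      rw [h1, Cardinal.lift_aleph] at h3
      simp only [Ordinal.lift_natCast] at h3
      exact absurd hl1 (not_le.2 h3)
    have h3 : τ ≤ ω_ l := by
      by_contra h
      rw [not_le] at h
      have h4 : (ω_ l : Ordinal.{0}).toZFSet ∈ coll X (ω_ l' : Ordinal.{0}).toZFSet := by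
        rw [hτ2]
        exact Ordinal.toZFSet_mem_toZFSet_iff.2 h
      obtain ⟨y, h5, h6, h7⟩ := mem_coll.1 h4
      obtain ⟨ξ, h8, rfl⟩ := Ordinal.mem_toZFSet_iff.1 h5
      have h9 := card_coll_ord hext (h8.trans (hlt l')).le
      rw [h7, Ordinal.card_toZFSet, Ordinal.card_omega, Cardinal.lift_aleph] at h9
      simp only [Ordinal.lift_natCast] at h9
      have h10 : #(B ∩ Iio ξ : Set Ordinal.{0}) ≤
          #(B ∩ Iio (ω_ (l' - 1 : ℕ)) : Set Ordinal.{0}) := by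
        refine card_init hX.gd ⟨h8.trans (hlt l'), h6⟩ ?_
        rwa [Nat.sub_add_cancel (by omega)]
      rw [← h9] at h10
      exact absurd hl3 (not_lt.2 h10)
    rw [hτ2, le_antisymm h3 h2]
  -- the value at `ω_l'`
  obtain ⟨τ, hτ1, hτ2⟩ := coll_ord (X := X) (r (ω_ l'))
  have h1 : r (ω_ l) = τ := coll_fun hext hwit hPX hr (hlt l').le (hβlt l').le (hlt l)
    (hτ1.trans_lt (hβlt l')) (hnX l') (hβX l') (hwX l') (hw l') hcoll hτ2
  refine ⟨l', hl2, ?_⟩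
  -- the small ordinals are fixed
  obtain ⟨χ, hχ, hχ'⟩ := hX.init
  have hβ : r (ω_ (k + 1 : ℕ)) < ω_ (k + 1 : ℕ) :=
    hreg _ (hlt _) (Ordinal.omega_pos _)
  have hβχ : r (ω_ (k + 1 : ℕ)) < χ := (hχ' _ hβ).1 ⟨hβlt _, hβX _⟩
  have h2 : coll X (r (ω_ (k + 1 : ℕ))).toZFSet = (r (ω_ (k + 1 : ℕ))).toZFSet :=
    coll_small (fun ξ hξ => (hχ' ξ (hξ.trans hχ)).2 hξ) hβχ
  have h3 : coll X (r (ω_ l')).toZFSet = coll X (r (ω_ (k + 1 : ℕ))).toZFSet := by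
    rw [hτ2, h2, ← h1, hrl]
  exact Ordinal.toZFSet_injective (coll_inj hext _ (hβX _) _ (hβX _) h3)

end Pool.Agent.SigOne
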