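import Pool.Agent.Work.MP_680e5b_lc.Trace

/-!
# Closed unbounded subsets of `P_κ(ζ)`
-/

namespace Pool.Agent.SigOne

open Cardinal Ordinal Set

/-- closed unbounded subsets of `P_κ(ζ)`, where `κ = ω_(k+1)`; `P_κ(ζ)` is the set of all subsets
of `ζ` of size less than `κ` -/
structure PClub (k : ℕ) (ζ : Ordinal.{0}) (K : Set (Set Ordinal.{0})) : Prop where
  sub : ∀ x ∈ K, (∀ ξ ∈ x, ξ < ζ) ∧ #x ≤ ℵ_ k
  unbounded : ∀ x : Set Ordinal.{0}, (∀ ξ ∈ x, ξ < ζ) → #x ≤ ℵ_ k → ∃ y ∈ K, x ⊆ y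
  closed : ∀ L ⊆ K, L.Nonempty → IsChain (· ⊆ ·) L → #L ≤ ℵ_ k → ⋃₀ L ∈ K

/-- the sets closed under a family of operations -/
def ClSets (k : ℕ) (ζ : Ordinal.{0}) {J : Type 1}
    (G : J → List {ξ : Ordinal.{0} // ξ < ζ} → {ξ : Ordinal.{0} // ξ < ζ}) :
    Set (Set Ordinal.{0}) :=
  {x | (∀ ξ ∈ x, ξ < ζ) ∧ #x ≤ ℵ_ k ∧
    ∀ j (l : List {ξ : Ordinal.{0} // ξ < ζ}), (∀ a ∈ l, a.1 ∈ x) → (G j l).1 ∈ x}

theorem pclub_clSets {k : ℕ} {ζ : Ordinal.{0}} {J : Type 1} (hJ : #J ≤ ℵ_ k)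
    (G : J → List {ξ : Ordinal.{0} // ξ < ζ} → {ξ : Ordinal.{0} // ξ < ζ}) :
    PClub k ζ (ClSets k ζ G) := by
  refine ⟨fun x hx => ⟨hx.1, hx.2.1⟩, fun x hx hxc => ?_, fun L hL hne hch hLc => ?_⟩
  · -- the closure
    let st : Set Ordinal.{0} → Set Ordinal.{0} := fun x => x ∪
      {ξ | ∃ j, ∃ l : List {ξ : Ordinal.{0} // ξ < ζ}, (∀ a ∈ l, a.1 ∈ x) ∧ (G j l).1 = ξ}
    have hst : ∀ x : Set Ordinal.{0}, (∀ ξ ∈ x, ξ < ζ) → #x ≤ ℵ_ k →
        (∀ ξ ∈ st x, ξ < ζ) ∧ #(st x) ≤ ℵ_ k := by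
      intro x hx hxc
      refine ⟨?_, ?_⟩
      · rintro ξ (h | ⟨j, l, _, rfl⟩)
        · exact hx ξ h
        · exact (G j l).2
      · refine (Cardinal.mk_union_le _ _).trans ?_
        refine (add_le_add (b := ℵ_ k) (d := ℵ_ k) hxc ?_).trans_eq
          (Cardinal.add_eq_self (Cardinal.aleph0_le_aleph _))
        have h1 : {ξ | ∃ j, ∃ l : List {ξ : Ordinal.{0} // ξ < ζ}, (∀ a ∈ l, a.1 ∈ x) ∧
            (G j l).1 = ξ} ⊆ range fun p : J × List x =>
              (G p.1 (p.2.map fun a => ⟨a.1, hx a.1 a.2⟩)).1 := by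
          rintro ξ ⟨j, l, hl, rfl⟩
          refine ⟨(j, l.pmap (fun a ha => ⟨a.1, ha⟩) hl), ?_⟩
          dsimp only
          rw [List.map_pmap]
          congr 2
          exact List.pmap_eq_self.2 fun x hx => rfl
        refine (Cardinal.mk_le_mk_of_subset h1).trans (Cardinal.mk_range_le.trans ?_)
        rw [Cardinal.mk_prod, Cardinal.lift_id, Cardinal.lift_id]
        refine (mul_le_mul' hJ ((Cardinal.mk_list_le_max _).trans
          (max_le (Cardinal.aleph0_le_aleph _) hxc))).trans ?_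
        exact (Cardinal.mul_eq_self (Cardinal.aleph0_le_aleph _)).le
    have hit : ∀ n, (∀ ξ ∈ st^[n] x, ξ < ζ) ∧ #(st^[n] x : Set Ordinal.{0}) ≤ ℵ_ k := by
      intro n
      induction n with
      | zero => exact ⟨hx, hxc⟩
      | succ n ih =>
        rw [Function.iterate_succ_apply']
        exact hst _ ih.1 ih.2
    have hmono : Monotone fun n => st^[n] x := by
      refine monotone_nat_of_le_succ fun n => ?_
      rw [Function.iterate_succ_apply']
      exact Set.subset_union_left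
    refine ⟨⋃ n, st^[n] x, ⟨?_, ?_, ?_⟩, Set.subset_iUnion (fun n => st^[n] x) 0⟩
    · intro ξ hξ
      obtain ⟨n, hn⟩ := Set.mem_iUnion.1 hξ
      exact (hit n).1 ξ hn
    · have h3 := Cardinal.mk_iUnion_le_lift (fun n => (st^[n] x : Set Ordinal.{0}))
      have h4 : (⨆ n : ℕ, Cardinal.lift.{0} #(st^[n] x : Set Ordinal.{0})) ≤ ℵ_ k :=
        ciSup_le' fun n => (Cardinal.lift_uzero _).trans_le (hit n).2
      have h5 := h3.trans (mul_le_mul' (le_refl _) h4)
      rwa [Cardinal.mk_nat, Cardinal.lift_aleph0, Cardinal.lift_uzero,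
        Cardinal.aleph0_mul_eq (Cardinal.aleph0_le_aleph _)] at h5
    · intro j l hl
      obtain ⟨n, hn⟩ : ∃ n, ∀ a ∈ l, a.1 ∈ st^[n] x := by
        clear j
        induction l with
        | nil => exact ⟨0, by simp⟩
        | cons a l ih =>
          obtain ⟨n, hn⟩ := ih fun b hb => hl b (List.mem_cons_of_mem _ hb)
          obtain ⟨m, hm⟩ := Set.mem_iUnion.1 (hl a List.mem_cons_self)
          refine ⟨max n m, fun b hb => ?_⟩
          rcases List.mem_cons.1 hb with rfl | hb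
          · exact hmono (le_max_right n m) hm
          · exact hmono (le_max_left n m) (hn b hb)
      refine Set.mem_iUnion.2 ⟨n + 1, ?_⟩
      rw [Function.iterate_succ_apply']
      exact Or.inr ⟨j, l, hn, rfl⟩
  · refine ⟨?_, ?_, ?_⟩
    · rintro ξ ⟨x, hx, hξ⟩
      exact (hL hx).1 ξ hξ
    · rw [Set.sUnion_eq_iUnion]
      refine (Cardinal.mk_iUnion_le _).trans ?_
      have h2 : (⨆ i : L, #(i.1 : Set Ordinal.{0})) ≤ ℵ_ k := ciSup_le' fun i => (hL i.2).2.1
      refine (mul_le_mul' hLc h2).trans ?_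
      exact (Cardinal.mul_eq_self (Cardinal.aleph0_le_aleph _)).le
    · intro j l hl
      obtain ⟨y, hy, hy'⟩ : ∃ y ∈ L, ∀ a ∈ l, a.1 ∈ y := by
        clear j
        induction l with
        | nil =>
          obtain ⟨y, hy⟩ := hne
          exact ⟨y, hy, by simp⟩
        | cons a l ih =>
          obtain ⟨y, hy, hy'⟩ := ih fun b hb => hl b (List.mem_cons_of_mem _ hb)
          obtain ⟨w, hw, hw'⟩ := hl a List.mem_cons_self
          rcases hch.total hy hw with h | h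
          · refine ⟨w, hw, fun b hb => ?_⟩
            rcases List.mem_cons.1 hb with rfl | hb
            · exact hw'
            · exact h (hy' b hb)
          · refine ⟨y, hy, fun b hb => ?_⟩
            rcases List.mem_cons.1 hb with rfl | hb
            · exact h hw'
            · exact hy' b hb
      exact ⟨y, hy, (hL hy).2.2 j l hy'⟩

end Pool.Agent.SigOne
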