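import Pool.Agent.Work.MP_680e5b_lc.PRefl

/-!
# Pressing down on sets with large sets of order types
-/

namespace Pool.Agent.SigOne

open Cardinal Ordinal Set

/-- the set of all `x ∈ P_κ(ζ)`, `κ = ω_(k+1)`, whose order type belongs to `S`, is stationary in
`P_κ(ζ)` -/
def PBig (S : Set Ordinal.{0}) (k : ℕ) (ζ : Ordinal.{0}) : Prop :=
  ∀ K, PClub k ζ K → ∃ x ∈ K, ∃ τ ∈ S, Otp x τ

lemma pclub_above {k : ℕ} {ζ : Ordinal.{0}} {K : Set (Set Ordinal.{0})} (hK : PClub k ζ K)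
    {y : Set Ordinal.{0}} (hy : ∀ ξ ∈ y, ξ < ζ) (hyc : #y ≤ ℵ_ k) :
    PClub k ζ {x | x ∈ K ∧ y ⊆ x} := by
  refine ⟨fun x hx => hK.sub x hx.1, fun x hx hxc => ?_, fun L hL hne hch hc => ⟨?_, ?_⟩⟩
  · obtain ⟨w, hw, hw'⟩ := hK.unbounded (x ∪ y) (by
      rintro ξ (h | h)
      · exact hx ξ h
      · exact hy ξ h) (by
      refine (Cardinal.mk_union_le _ _).trans ?_
      exact (add_le_add (b := ℵ_ k) (d := ℵ_ k) hxc hyc).trans_eq
        (Cardinal.add_eq_self (Cardinal.aleph0_le_aleph _)))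
    exact ⟨w, ⟨hw, Set.subset_union_right.trans hw'⟩, Set.subset_union_left.trans hw'⟩
  · exact hK.closed L (fun x hx => (hL hx).1) hne hch hc
  · obtain ⟨x, hx⟩ := hne
    exact (hL hx).2.trans (Set.subset_sUnion_of_mem hx)

/-- a cardinal in `S` -/
lemma pbig_of_mem {S : Set Ordinal.{0}} {k m : ℕ} (hk : m ≤ k)
    (h : (ω_ m : Ordinal.{0}) ∈ S) : PBig S k (ω_ m) := by
  intro K hK
  obtain ⟨y, hy, hy'⟩ := hK.unbounded (Iio (ω_ m)) (fun ξ hξ => hξ) (by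
    rw [card_Iio_omega, Cardinal.aleph_le_aleph]
    exact_mod_cast hk)
  have h1 : y = Iio (ω_ m) := subset_antisymm (fun ξ hξ => (hK.sub y hy).1 ξ hξ) hy'
  exact ⟨y, hy, _, h, h1 ▸ otp_self _⟩

/-- a set whose intersection with `ω_(k+1)` is stationary in `ω_(k+1)` -/
lemma pbig_of_stat {S : Set Ordinal.{0}} {k : ℕ}
    (h : ∀ E, Club (ω_ (k + 1 : ℕ)) E → ∃ δ ∈ E, δ ∈ S) : PBig S k (ω_ (k + 1 : ℕ)) := by
  intro K hK
  have hlim : Order.IsSuccLimit (ω_ (k + 1 : ℕ) : Ordinal.{0}) := Cardinal.isSuccLimit_omega _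
  have hE : Club (ω_ (k + 1 : ℕ)) {δ | δ < ω_ (k + 1 : ℕ) ∧ Iio δ ∈ K} := by
    refine ⟨fun δ hδ => hδ.1, fun α hα => ?_, fun α hα h0 hcl => ⟨hα, ?_⟩⟩
    · -- the next element
      have hstep : ∀ β < (ω_ (k + 1 : ℕ) : Ordinal.{0}), ∃ y ∈ K, Iio β ⊆ y ∧
          ∃ γ < (ω_ (k + 1 : ℕ) : Ordinal.{0}), β < γ ∧ y ⊆ Iio γ := by
        intro β hβ
        obtain ⟨y, hy, hy'⟩ := hK.unbounded (Iio β) (fun ξ hξ => lt_trans hξ hβ) (card_Iio_le hβ)
        obtain ⟨γ, hγ, hγ'⟩ := exists_bound (hK.sub y hy).2 (hK.sub y hy).1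
        refine ⟨y, hy, hy', max γ (β + 1), max_lt hγ ?_, lt_max_of_lt_right (lt_add_one β),
          fun ξ hξ => lt_max_of_lt_left (hγ' ξ hξ)⟩
        rw [← Order.succ_eq_add_one]
        exact hlim.succ_lt hβ
      choose! Y hY1 hY2 g hg1 hg2 hg3 using hstep
      have ha1 : ∀ n, g^[n] (α + 1) < ω_ (k + 1 : ℕ) := by
        intro n
        induction n with
        | zero =>
          change α + 1 < _
          rw [← Order.succ_eq_add_one]
          exact hlim.succ_lt hα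
        | succ n ih =>
          rw [Function.iterate_succ_apply']
          exact hg1 _ ih
      obtain ⟨β, hβ, hβ'⟩ := exists_bound (k := k) (S := range fun n => g^[n] (α + 1))
        ((Cardinal.mk_le_aleph0_iff.2 (Set.countable_range _).to_subtype).trans
          (Cardinal.aleph0_le_aleph _)) (by
          rintro _ ⟨n, rfl⟩
          exact ha1 n)
      have hbdd : BddAbove (range fun n => g^[n] (α + 1)) := ⟨β, by
        rintro _ ⟨n, rfl⟩
        exact (hβ' _ ⟨n, rfl⟩).le⟩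
      have hlt : ∀ n, g^[n] (α + 1) < ⨆ n, g^[n] (α + 1) := by
        intro n
        refine lt_of_lt_of_le ?_ (le_ciSup hbdd (n + 1))
        rw [Function.iterate_succ_apply']
        exact hg2 _ (ha1 n)
      refine ⟨⨆ n, g^[n] (α + 1), ⟨?_, ?_⟩, ?_⟩
      · exact lt_of_le_of_lt (ciSup_le' fun n => (hβ' _ ⟨n, rfl⟩).le) hβ
      · have h1 : Iio (⨆ n, g^[n] (α + 1)) = ⋃₀ (range fun n => Y (g^[n] (α + 1))) := by
          ext ξ
          constructor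
          · intro hξ
            obtain ⟨n, hn⟩ := exists_lt_of_lt_ciSup (show ξ < ⨆ n, g^[n] (α + 1) from hξ)
            exact ⟨_, ⟨n, rfl⟩, hY2 _ (ha1 n) hn⟩
          · rintro ⟨_, ⟨n, rfl⟩, hξ⟩
            have h2 := hg3 _ (ha1 n) hξ
            have h3 := le_ciSup hbdd (n + 1)
            rw [Function.iterate_succ_apply'] at h3
            exact lt_of_lt_of_le h2 h3
        rw [h1]
        have hmono : Monotone fun n => Y (g^[n] (α + 1)) := by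
          refine monotone_nat_of_le_succ fun n => ?_
          have h2 := hY2 _ (ha1 (n + 1))
          refine (hg3 _ (ha1 n)).trans ?_
          rw [Function.iterate_succ_apply'] at h2 ⊢
          exact h2
        refine hK.closed _ ?_ (Set.range_nonempty _) hmono.isChain_range ?_
        · rintro _ ⟨n, rfl⟩
          exact hY1 _ (ha1 n)
        · exact (Cardinal.mk_le_aleph0_iff.2 (Set.countable_range _).to_subtype).trans
            (Cardinal.aleph0_le_aleph _)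
      · exact (lt_add_one α).trans (hlt 0)
    · -- limits
      have h1 : (Iio α : Set Ordinal.{0}) = ⋃₀ ((fun γ => Iio γ) '' {γ | γ < α ∧ Iio γ ∈ K}) := by
        ext ξ
        constructor
        · intro hξ
          obtain ⟨γ, ⟨_, h2⟩, h3, h4⟩ := hcl ξ hξ
          exact ⟨_, ⟨γ, ⟨h4, h2⟩, rfl⟩, h3⟩
        · rintro ⟨_, ⟨γ, h2, rfl⟩, h3⟩
          exact lt_trans h3 h2.1
      rw [h1]
      refine hK.closed _ ?_ ?_ ?_ ?_
      · rintro _ ⟨γ, h2, rfl⟩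
        exact h2.2
      · obtain ⟨γ, ⟨_, h2⟩, h3, h4⟩ := hcl 0 (pos_iff_ne_zero.2 h0)
        exact ⟨_, ⟨γ, ⟨h4, h2⟩, rfl⟩⟩
      · rintro _ ⟨γ, _, rfl⟩ _ ⟨γ', _, rfl⟩ _
        rcases le_total γ γ' with h2 | h2
        · exact Or.inl (Set.Iio_subset_Iio h2)
        · exact Or.inr (Set.Iio_subset_Iio h2)
      · refine Cardinal.mk_image_le.trans ((Cardinal.mk_le_mk_of_subset ?_).trans
          (card_Iio_le hα))
        exact fun γ h2 => h2.1
  obtain ⟨δ, h1, h2⟩ := h _ hE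
  exact ⟨Iio δ, h1.2, δ, h2, otp_self δ⟩

/-- **Transfer.** If for every `N` the set of all `ζ` with `r ζ = β` such that `otp x ∈ S` for
stationary many `x ∈ P_κ(ζ)` for some `κ = ω_(k+1)`, `k ≥ N`, is `Σ₁`-stationary, then the set of
all `δ ∈ S` with `r δ = β` is `Σ₁`-stationary. -/
theorem transfer (hJ : IsJonsson (ℵ_ ω)) (hs : StrongLim) {r : Ordinal.{0} → Ordinal.{0}}
    (hr : SigFun r) (hreg : Reg r) {S : Set Ordinal.{0}} {β : Ordinal.{0}}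
    (h : ∀ N : ℕ, SigStat {ζ | r ζ = β ∧ ∃ k ≥ N, PBig S k ζ}) :
    SigStat {δ | δ ∈ S ∧ r δ = β} := by
  intro C hC
  obtain ⟨k₀, hk₀⟩ := reflect hJ hs hr hC
  have hωlt : (ω : Ordinal.{0}) < ω_ ω :=
    Ordinal.omega_zero.symm.trans_lt (Ordinal.omega_lt_omega.2 Ordinal.omega0_pos)
  have hβ : β < ω_ ω := by
    obtain ⟨ζ, ⟨h1, -⟩, h2⟩ := h 0 C hC
    rw [← h1]
    obtain ⟨φ, v, _, hφ⟩ := hr
    exact hφ.lt _ (hC.1.lt ζ h2)
  obtain ⟨j, hj⟩ := exists_lt_omega hβ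
  obtain ⟨ζ, ⟨hζβ, k, hk, hbig⟩, hζC, hζ, -⟩ := h (max k₀ j) _ (hC.inter hJ (sigClub_Ioo hωlt))
  have hζ' := hC.1.lt ζ hζC
  have hlt : r ζ < ζ := hreg _ hζ' (zero_le.trans_lt hζ)
  obtain ⟨K, hK, hK'⟩ := hk₀ k (by omega) ζ hζ.le hζ' hlt.le
  obtain ⟨x, ⟨hx, hx'⟩, τ, hτ, hxτ⟩ := hbig _ (pclub_above hK (y := Iio β) (fun ξ hξ => by
      rw [← hζβ] at hξ
      exact lt_trans hξ hlt) (by
      refine (Cardinal.mk_le_mk_of_subset (Set.Iio_subset_Iio hj.le)).trans ?_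
      rw [card_Iio_omega, Cardinal.aleph_le_aleph]
      exact_mod_cast (by omega : j ≤ k)))
  obtain ⟨h1, h2⟩ := hK' x hx τ hxτ
  refine ⟨τ, ⟨hτ, ?_⟩, h1 hζC⟩
  refine h2 β ?_
  rw [hζβ, Set.inter_eq_right.2 hx']
  exact otp_self β

/-- the value `β` on a set with many order types -/
theorem ppress (hJ : IsJonsson (ℵ_ ω)) (hs : StrongLim) {r : Ordinal.{0} → Ordinal.{0}}
    (hr : SigFun r) (hreg : Reg r) {S : Set Ordinal.{0}} {β : Ordinal.{0}}
    (h : ∀ N : ℕ, ∃ k ≥ N, ∃ m ≥ N, r (ω_ (m : ℕ)) = β ∧ PBig S k (ω_ (m : ℕ))) :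
    SigStat {δ | δ ∈ S ∧ r δ = β} := by
  refine transfer hJ hs hr hreg fun N C hC => ?_
  obtain ⟨n₀, hn₀⟩ := sigClub_mem hJ hC
  obtain ⟨k, hk, m, hm, h1, h2⟩ := h (max N n₀)
  exact ⟨ω_ (m : ℕ), ⟨h1, k, by omega, h2⟩, hn₀ m (by omega)⟩

/-- **Pressing down, many order types below almost all cardinals.** -/
theorem ppress_all (hJ : IsJonsson (ℵ_ ω)) (hs : StrongLim) {r : Ordinal.{0} → Ordinal.{0}}
    (hr : SigFun r) (hreg : Reg r) {S : Set Ordinal.{0}}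
    (h : ∀ N : ℕ, ∃ M : ℕ, ∀ m ≥ M, ∃ k ≥ N, PBig S k (ω_ (m : ℕ))) :
    ∃ β, SigStat {δ | δ ∈ S ∧ r δ = β} := by
  obtain ⟨n₀, hn₀⟩ := main_repeat hJ hr hreg
  refine ⟨r (ω_ n₀), ppress hJ hs hr hreg fun N => ?_⟩
  obtain ⟨M, hM⟩ := h N
  obtain ⟨l, h1, h2⟩ := hn₀ n₀ le_rfl (max M N)
  obtain ⟨k, h3, h4⟩ := hM l (by omega)
  exact ⟨k, h3, l, by omega, h2, h4⟩

/-- **Pressing down, many order types below infinitely many cardinals**, if `r` has only finitely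
many values on the cardinals. -/
theorem ppress_fin (hJ : IsJonsson (ℵ_ ω)) (hs : StrongLim) {r : Ordinal.{0} → Ordinal.{0}}
    (hr : SigFun r) (hreg : Reg r) (hfin : (range fun n : ℕ => r (ω_ n)).Finite)
    {S : Set Ordinal.{0}} (h : ∀ N : ℕ, ∃ k ≥ N, ∃ m ≥ N, PBig S k (ω_ (m : ℕ))) :
    ∃ β, SigStat {δ | δ ∈ S ∧ r δ = β} := by
  by_contra hcon
  push Not at hcon
  have h1 : ∀ β, ∃ N : ℕ, ∀ k ≥ N, ∀ m ≥ N, PBig S k (ω_ (m : ℕ)) → r (ω_ (m : ℕ)) ≠ β := by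
    intro β
    by_contra h2
    push Not at h2
    refine hcon β (ppress hJ hs hr hreg fun N => ?_)
    obtain ⟨k, h3, m, h4, h5, h6⟩ := h2 N
    exact ⟨k, h3, m, h4, h6, h5⟩
  choose N hN using h1
  obtain ⟨k, h2, m, h3, h4⟩ := h (hfin.toFinset.sup N)
  have h5 : r (ω_ (m : ℕ)) ∈ hfin.toFinset := by
    rw [Set.Finite.mem_toFinset]
    exact ⟨m, rfl⟩
  have h6 := Finset.le_sup (f := N) h5
  exact hN _ k (h6.trans h2) m (h6.trans h3) h4 rfl

end Pool.Agent.SigOne
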