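import Pool.Agent.Work.MP_680e5b_lc.Ek

/-!
# The structure of the filter of definable clubs when `ω_ω` is a strong limit
-/

namespace Pool.Agent.SigOne

open Cardinal Ordinal Set

/-- `ℵ_ω` is a strong limit cardinal -/
def StrongLim : Prop := ∀ k : ℕ, ∃ m : ℕ, (2 : Cardinal.{0}) ^ (ℵ_ k : Cardinal.{0}) ≤ ℵ_ m

/-- a decreasing sequence of definable clubs that is cofinal in all definable clubs -/
structure Base (E : ℕ → Set Ordinal.{0}) : Prop where
  club : ∀ i, SigClub (E i)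
  anti : Antitone E
  cofinal : ∀ C, SigClub C → ∃ i, E i ⊆ C

theorem exists_base (hJ : IsJonsson (ℵ_ ω)) (hs : StrongLim) : ∃ E, Base E := by
  have hne : Nonempty (Fml × ℕ) := ⟨(.eq 0 0, 0)⟩
  obtain ⟨f, hf⟩ := exists_surjective_nat (Fml × ℕ)
  let B : ℕ → Set Ordinal.{0} := fun i => Ek (f i).1 (f i).2
  have hB : ∀ i, SigClub (B i) := fun i => sigClub_Ek hJ _ _ (hs _)
  let E : ℕ → Set Ordinal.{0} := fun i => Nat.rec (B 0) (fun i X => X ∩ B (i + 1)) i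
  have hE : ∀ i, E (i + 1) = E i ∩ B (i + 1) := fun i => rfl
  have hEB : ∀ i, E i ⊆ B i := by
    intro i
    cases i with
    | zero => exact subset_rfl
    | succ i =>
      rw [hE]
      exact Set.inter_subset_right
  refine ⟨E, ?_, ?_, ?_⟩
  · intro i
    induction i with
    | zero => exact hB 0
    | succ i ih =>
      rw [hE]
      exact ih.inter hJ (hB _)
  · refine antitone_nat_of_succ_le fun i => ?_
    rw [hE]
    exact Set.inter_subset_left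
  · rintro C ⟨hC, φ, v, hv, hD⟩
    obtain ⟨k₀, hk₀⟩ := exists_level (bnd φ) hv
    obtain ⟨i, hi⟩ := hf (φ, k₀)
    refine ⟨i, (hEB i).trans ?_⟩
    intro δ hδ
    have h1 : B i = Ek φ k₀ := by
      change Ek (f i).1 (f i).2 = _
      rw [hi]
    rw [h1] at hδ
    exact hδ.2 _ C (hk₀ k₀ le_rfl) hC (def_trunc hD)

lemma Base.sigStat_iff {E : ℕ → Set Ordinal.{0}} (hE : Base E) {S : Set Ordinal.{0}} :
    SigStat S ↔ ∀ i, ∃ δ ∈ S, δ ∈ E i := by
  refine ⟨fun h i => h _ (hE.club i), fun h C hC => ?_⟩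
  obtain ⟨i, hi⟩ := hE.cofinal C hC
  obtain ⟨δ, h1, h2⟩ := h i
  exact ⟨δ, h1, hi h2⟩

lemma SigStat.unbounded (hJ : IsJonsson (ℵ_ ω)) {S C : Set Ordinal.{0}} (hS : SigStat S)
    (hC : SigClub C) {ρ : Ordinal.{0}} (hρ : ρ < ω_ ω) : ∃ δ ∈ S, δ ∈ C ∧ ρ < δ := by
  obtain ⟨δ, h1, h2, h3⟩ := hS _ (hC.inter hJ (sigClub_Ioo hρ))
  exact ⟨δ, h1, h2, h3.1⟩

/-- sequences with increasing index -/
lemma exists_seq {E : ℕ → Set Ordinal.{0}} (hE : Antitone E) (R : Ordinal.{0} → Ordinal.{0} → Prop)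
    (h : ∀ (s : Finset Ordinal.{0}) (i : ℕ), (∀ x ∈ s, ∃ j, x ∈ E j) → ∃ y ∈ E i, ∀ x ∈ s, R x y) :
    ∃ t : ℕ → Ordinal.{0}, (∀ n, t n ∈ E n) ∧ ∀ m n, m < n → R (t m) (t n) := by
  classical
  obtain ⟨f, hf1, hf2⟩ := exists_seq_of_forall_finset_exists
    (fun p : ℕ × Ordinal.{0} => p.2 ∈ E p.1)
    (fun p q : ℕ × Ordinal.{0} => p.1 < q.1 ∧ R p.2 q.2) (by
      intro s hs
      obtain ⟨y, hy, hy'⟩ := h (s.image Prod.snd) (s.sup Prod.fst + 1) (by
        intro x hx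
        obtain ⟨p, hp, rfl⟩ := Finset.mem_image.1 hx
        exact ⟨p.1, hs p hp⟩)
      refine ⟨(s.sup Prod.fst + 1, y), hy, fun p hp => ⟨?_, ?_⟩⟩
      · exact Nat.lt_succ_of_le (Finset.le_sup (f := Prod.fst) hp)
      · exact hy' _ (Finset.mem_image_of_mem _ hp))
  have hmono : StrictMono fun n => (f n).1 := fun m n hmn => (hf2 m n hmn).1
  exact ⟨fun n => (f n).2, fun n => hE (hmono.id_le n) (hf1 n), fun m n hmn => (hf2 m n hmn).2⟩

/-- **Every stationary set contains a stationary set of order type `ω`.** -/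
theorem exists_thin (hJ : IsJonsson (ℵ_ ω)) (hs : StrongLim) {S : Set Ordinal.{0}}
    (hS : SigStat S) : ∃ t : ℕ → Ordinal.{0}, StrictMono t ∧ range t ⊆ S ∧
      SigStat (range t) := by
  obtain ⟨E, hE⟩ := exists_base hJ hs
  obtain ⟨t, h1, h2⟩ := exists_seq (E := fun i => S ∩ E i)
    (fun i j hij => Set.inter_subset_inter_right _ (hE.anti hij)) (fun x y => x < y) (by
      intro s i hs
      have h3 : s.sup id < ω_ ω := by
        rw [Finset.sup_lt_iff (Ordinal.omega_pos _)]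
        intro x hx
        obtain ⟨j, _, hj⟩ := hs x hx
        exact (hE.club j).1.lt x hj
      obtain ⟨δ, h4, h5, h6⟩ := hS.unbounded hJ (hE.club i) h3
      exact ⟨δ, ⟨h4, h5⟩, fun x hx => (Finset.le_sup (f := id) hx).trans_lt h6⟩)
  refine ⟨t, fun m n hmn => h2 m n hmn, ?_, ?_⟩
  · rintro _ ⟨n, rfl⟩
    exact (h1 n).1
  · rw [hE.sigStat_iff]
    exact fun i => ⟨t i, ⟨i, rfl⟩, (h1 i).2⟩

/-- finitely many values on a definable club -/
theorem press_of_finite (hJ : IsJonsson (ℵ_ ω)) {r : Ordinal.{0} → Ordinal.{0}}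
    {C : Set Ordinal.{0}} (hC : SigClub C) (hr : (r '' C).Finite) {S : Set Ordinal.{0}}
    (hS : SigStat S) : ∃ β, SigStat {δ | δ ∈ S ∧ r δ = β} := by
  by_contra hcon
  push Not at hcon
  have h1 : ∀ β, ∃ D, SigClub D ∧ ∀ δ ∈ D, δ ∈ S → r δ ≠ β := by
    intro β
    have h2 := hcon β
    unfold SigStat at h2
    push Not at h2
    obtain ⟨D, hD, hD'⟩ := h2
    exact ⟨D, hD, fun δ h3 h4 h5 => hD' δ ⟨h4, h5⟩ h3⟩
  choose D hD hD' using h1
  have h2 : ∀ s : Finset Ordinal.{0}, ∃ K, SigClub K ∧ K ⊆ C ∧ ∀ β ∈ s, K ⊆ D β := by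
    classical
    intro s
    induction s using Finset.induction_on with
    | empty => exact ⟨C, hC, subset_rfl, by simp⟩
    | insert a s _ ih =>
      obtain ⟨K, h3, h4, h5⟩ := ih
      refine ⟨K ∩ D a, h3.inter hJ (hD a), Set.inter_subset_left.trans h4, fun β hβ => ?_⟩
      rcases Finset.mem_insert.1 hβ with rfl | hβ
      · exact Set.inter_subset_right
      · exact Set.inter_subset_left.trans (h5 β hβ)
  obtain ⟨K, h3, h4, h5⟩ := h2 hr.toFinset
  obtain ⟨δ, h6, h7⟩ := hS K h3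
  have h8 : r δ ∈ hr.toFinset := by
    rw [Set.Finite.mem_toFinset]
    exact ⟨δ, h4 h7, rfl⟩
  exact hD' (r δ) δ (h5 _ h8 h7) h6 rfl

/-- **The pressing down property is equivalent to a finite range on a definable club.** -/
theorem press_iff (hJ : IsJonsson (ℵ_ ω)) (hs : StrongLim) (r : Ordinal.{0} → Ordinal.{0}) :
    (∀ S, SigStat S → ∃ β, SigStat {δ | δ ∈ S ∧ r δ = β}) ↔
      ∃ C, SigClub C ∧ (r '' C).Finite := by
  refine ⟨fun h => ?_, fun ⟨C, hC, hr⟩ S hS => press_of_finite hJ hC hr hS⟩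
  by_contra hcon
  push Not at hcon
  obtain ⟨E, hE⟩ := exists_base hJ hs
  obtain ⟨t, h1, h2⟩ := exists_seq hE.anti (fun x y => r x ≠ r y) (by
    intro s i _
    have h3 : (r '' E i).Infinite := hcon _ (hE.club i)
    classical
    obtain ⟨β, h4, h5⟩ := h3.exists_notMem_finset (s.image r)
    obtain ⟨y, h6, rfl⟩ := h4
    refine ⟨y, h6, fun x hx hxy => h5 ?_⟩
    exact Finset.mem_image.2 ⟨x, hx, hxy⟩)
  have hT : SigStat (range t) := by
    rw [hE.sigStat_iff]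
    exact fun i => ⟨t i, ⟨i, rfl⟩, h1 i⟩
  obtain ⟨β, hβ⟩ := h _ hT
  obtain ⟨_, ⟨⟨m, rfl⟩, h3⟩, h4⟩ := hβ _ (hE.club 0)
  obtain ⟨_, ⟨⟨n, rfl⟩, h5⟩, _, h6⟩ := hβ.unbounded hJ (hE.club 0) ((hE.club 0).1.lt _ h4)
  rcases lt_trichotomy m n with h7 | h7 | h7
  · exact h2 m n h7 (h3.trans h5.symm)
  · subst h7
    exact lt_irrefl _ h6
  · exact h2 n m h7 (h5.trans h3.symm)

end Pool.Agent.SigOne
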