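import Pool.Agent.Work.MP_680e5b_lc.PTrace
import Pool.Agent.Work.MP_680e5b_lc.Str

/-!
# Values of definable functions are determined by their values at order types of small sets
-/

namespace Pool.Agent.SigOne

open Cardinal Ordinal Set

/-- the set `x` of ordinals has the order type `τ` -/
def Otp (x : Set Ordinal.{0}) (τ : Ordinal.{0}) : Prop :=
  Nonempty ((Iio τ : Set Ordinal.{0}) ≃o x)

lemma otp_unique {x : Set Ordinal.{0}} {τ τ' : Ordinal.{0}} (h : Otp x τ) (h' : Otp x τ') :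
    τ = τ' := by
  obtain ⟨e⟩ := h
  obtain ⟨e'⟩ := h'
  have h1 := (e.trans e'.symm).toRelIsoLT.ordinalType_congr
  rw [Ordinal.type_Iio_lt, Ordinal.type_Iio_lt, Ordinal.typein_ordinal,
    Ordinal.typein_ordinal] at h1
  exact Ordinal.lift_inj.1 h1

lemma otp_self (τ : Ordinal.{0}) : Otp (Iio τ) τ := ⟨OrderIso.refl _⟩

/-- the collapse of an ordinal is the order type of its trace -/
lemma coll_otp {X : Set V} {ζ : Ordinal.{0}} (hζ : ζ ≤ ω_ ω)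
    {x : Set Ordinal.{0}} (hx : ∀ ξ < ζ, ξ ∈ ordPart io X ↔ ξ ∈ x) (hxs : ∀ ξ ∈ x, ξ < ζ)
    {τ : Ordinal.{0}} (hτ : Otp x τ) : τ ≤ ζ ∧ coll X ζ.toZFSet = τ.toZFSet := by
  obtain ⟨τ', h1, h2⟩ := coll_ord (X := X) ζ
  suffices h : Otp x τ' by
    rw [otp_unique hτ h]
    exact ⟨h1, h2⟩
  have hmem : ∀ ξ ∈ x, ξ.toZFSet ∈ X := fun ξ hξ => ((hx ξ (hxs ξ hξ)).2 hξ).2
  have hσ : ∀ ξ : x, ∃ σ < τ', coll X ξ.1.toZFSet = σ.toZFSet := by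
    intro ξ
    obtain ⟨σ, _, h4⟩ := coll_ord (X := X) ξ.1
    refine ⟨σ, ?_, h4⟩
    rw [← Ordinal.toZFSet_mem_toZFSet_iff, ← h4, ← h2]
    exact coll_mem (Ordinal.toZFSet_mem_toZFSet_iff.2 (hxs ξ.1 ξ.2)) (hmem ξ.1 ξ.2)
  choose σ hσ1 hσ2 using hσ
  let g : x → (Iio τ' : Set Ordinal.{0}) := fun ξ => ⟨σ ξ, hσ1 ξ⟩
  have hg : StrictMono g := by
    intro ξ ξ' h
    change σ ξ < σ ξ'
    rw [← Ordinal.toZFSet_mem_toZFSet_iff, ← hσ2, ← hσ2]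
    exact coll_mem (Ordinal.toZFSet_mem_toZFSet_iff.2 h) (hmem ξ.1 ξ.2)
  have hsurj : Function.Surjective g := by
    rintro ⟨η, hη⟩
    have h3 : η.toZFSet ∈ coll X ζ.toZFSet := by
      rw [h2]
      exact Ordinal.toZFSet_mem_toZFSet_iff.2 hη
    obtain ⟨y, h4, h5, h6⟩ := mem_coll.1 h3
    obtain ⟨ξ, h7, rfl⟩ := Ordinal.mem_toZFSet_iff.1 h4
    have h8 : ξ ∈ x := (hx ξ h7).1 ⟨h7.trans_le hζ, h5⟩
    refine ⟨⟨ξ, h8⟩, Subtype.ext ?_⟩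
    apply Ordinal.toZFSet_injective
    change (σ ⟨ξ, h8⟩).toZFSet = η.toZFSet
    rw [← hσ2, ← h6]
  exact ⟨(StrictMono.orderIsoOfSurjective g hg hsurj).symm⟩

/-- **Reflection of `Σ₁`-definable functions and clubs to order types of small sets.** -/
theorem prefl (hJ : IsJonsson (ℵ_ ω)) : ∃ m₀ : ℕ, ∀ k : ℕ, m₀ ≤ k + 1 →
    ∀ (φ ψ : Fml) (v v' : ℕ → V) (r : Ordinal.{0} → Ordinal.{0}) (C : Set Ordinal.{0}),
      (∀ n, v n ∈ Hs k ∨ v n = Om) → (∀ n, v' n ∈ Hs k ∨ v' n = Om) → DefFun φ v r →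
      Club (ω_ ω) C → Def ψ v' (code C) → ∀ (m : ℕ) (ζ : Ordinal.{0}), ω ≤ ζ → ζ < ω_ ω →
      #({ξ : Ordinal.{0} // ξ < ζ} → {ξ : Ordinal.{0} // ξ < ζ}) ≤ ℵ_ m → r ζ ≤ ζ →
      ∃ K : Set (Set Ordinal.{0}), PClub k ζ K ∧ ∀ x ∈ K, ∀ τ, Otp x τ →
        (ζ ∈ C → τ ∈ C) ∧ ∀ τ', Otp (x ∩ Iio (r ζ)) τ' → r τ = τ' := by
  obtain ⟨m₀, hm₀⟩ := ptrace hJ
  refine ⟨m₀, fun k hk φ ψ v v' r C hv hv' hr hC hD m ζ hζ hζ' hcard hrζ => ?_⟩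
  obtain ⟨P, hP, hP'⟩ := exists_par hv
  obtain ⟨Q, hQ, hQ'⟩ := exists_par hv'
  obtain ⟨w, hw⟩ := (hD (code C)).2 rfl
  have hβlt : r ζ < ω_ ω := hr.lt _ hζ'
  obtain ⟨w', hw'⟩ := (hr.iff _ hζ' (r ζ) hβlt).1 rfl
  let A : Set V := (P ∪ Q) ∪ {code C, w, w', ζ.toZFSet, (r ζ).toZFSet}
  have hA : #A ≤ ℵ_ k := by
    refine (Cardinal.mk_union_le _ _).trans ?_
    refine (add_le_add (b := ℵ_ k) (d := ℵ_ k) ?_ ?_).trans_eq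
      (Cardinal.add_eq_self (Cardinal.aleph0_le_aleph _))
    · exact (Cardinal.mk_union_le _ _).trans ((add_le_add hP hQ).trans_eq
        (Cardinal.add_eq_self (Cardinal.aleph0_le_aleph _)))
    · refine le_trans ?_ (Cardinal.aleph0_le_aleph _)
      exact Cardinal.mk_le_aleph0_iff.2 (Set.Countable.to_subtype (by simp))
  obtain ⟨K, hK, hK'⟩ := hm₀ k hk m ζ hζ hζ' hcard io io_inj (ops (φ.and ψ)) A hA
  refine ⟨K, hK, fun x hx τ hτ => ?_⟩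
  obtain ⟨X, hX2, hX1, hX3, hX4⟩ := hK' x hx
  have hxs := (hK.sub x hx).1
  have hext := ext_of_cl hX2
  have hwit := wit_of_cl hX2
  have hφ : Wit X φ := hwit.mono (by simp [subs, self_mem_subs])
  have hψ : Wit X ψ := hwit.mono (by simp [subs, self_mem_subs])
  have hO := coll_Om hext hX3
  have hPX := hP' X (fun x hx => hX1 (Or.inl (Or.inl hx))) hO
  have hQX := hQ' X (fun x hx => hX1 (Or.inl (Or.inr hx))) hO
  have hBX : ∀ x ∈ ({code C, w, w', ζ.toZFSet, (r ζ).toZFSet} : Set V), x ∈ X :=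
    fun x hx => hX1 (Or.inr hx)
  obtain ⟨hτζ, h1⟩ := coll_otp hζ'.le hX4 hxs hτ
  have h3 := coll_club hext hψ hQX.2 hD (hBX _ (by simp)) (hBX _ (by simp)) hw
  refine ⟨fun hζC => ?_, fun τ' hτ' => ?_⟩
  · rw [← toZFSet_mem_code hC.lt, ← h1, ← h3]
    exact coll_mem ((toZFSet_mem_code hC.lt).2 hζC) (hBX _ (by simp))
  · obtain ⟨hτζ', h4⟩ := coll_otp (X := X) (x := x ∩ Iio (r ζ)) hβlt.le (fun ξ hξ => by
      rw [hX4 ξ (hξ.trans_le hrζ)]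
      exact ⟨fun h => ⟨h, hξ⟩, fun h => h.1⟩) (fun ξ hξ => hξ.2) hτ'
    exact coll_fun hext hφ hPX.2 hr hζ'.le hβlt.le (hτζ.trans_lt hζ')
      (hτζ'.trans_lt hβlt) (hBX _ (by simp)) (hBX _ (by simp)) (hBX _ (by simp)) hw' h1 h4

/-- the number of functions from an ordinal to itself -/
lemma card_fun_le (hs : StrongLim) {ζ : Ordinal.{0}} (hζ : ζ < ω_ ω) : ∃ m : ℕ,
    #({ξ : Ordinal.{0} // ξ < ζ} → {ξ : Ordinal.{0} // ξ < ζ}) ≤ ℵ_ m := by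
  obtain ⟨j, hj⟩ := exists_lt_omega hζ
  obtain ⟨m, hm⟩ := hs j
  refine ⟨m, ?_⟩
  have h1 : #({ξ : Ordinal.{0} // ξ < ζ}) ≤ ℵ_ j := by
    rw [← card_Iio_omega]
    exact Cardinal.mk_le_mk_of_subset (Set.Iio_subset_Iio hj.le)
  have h2 : #({ξ : Ordinal.{0} // ξ < ζ} → {ξ : Ordinal.{0} // ξ < ζ}) =
      #({ξ : Ordinal.{0} // ξ < ζ}) ^ #({ξ : Ordinal.{0} // ξ < ζ}) := by simp
  have h3 := Cardinal.lift_le.{1}.2 hm
  rw [Cardinal.lift_power, Cardinal.lift_two, Cardinal.lift_aleph, Cardinal.lift_aleph] at h3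
  simp only [Ordinal.lift_natCast] at h3
  rw [h2]
  refine (Cardinal.power_le_power_right h1).trans ?_
  refine (Cardinal.power_le_power_left (Cardinal.aleph_pos _).ne' h1).trans ?_
  rw [Cardinal.power_self_eq (Cardinal.aleph0_le_aleph _)]
  exact h3

theorem reflect (hJ : IsJonsson (ℵ_ ω)) (hs : StrongLim) {r : Ordinal.{0} → Ordinal.{0}}
    (hr : SigFun r) {C : Set Ordinal.{0}} (hC : SigClub C) : ∃ k₀ : ℕ, ∀ k : ℕ, k₀ ≤ k →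
      ∀ ζ : Ordinal.{0}, ω ≤ ζ → ζ < ω_ ω → r ζ ≤ ζ →
      ∃ K : Set (Set Ordinal.{0}), PClub k ζ K ∧ ∀ x ∈ K, ∀ τ, Otp x τ →
        (ζ ∈ C → τ ∈ C) ∧ ∀ τ', Otp (x ∩ Iio (r ζ)) τ' → r τ = τ' := by
  obtain ⟨m₀, hm₀⟩ := prefl hJ
  obtain ⟨φ, v, hv, hφ⟩ := hr
  obtain ⟨hC, ψ, v', hv', hψ⟩ := hC
  obtain ⟨k₁, hk₁⟩ := exists_level (bnd φ) hv
  obtain ⟨k₂, hk₂⟩ := exists_level (bnd ψ) hv'
  refine ⟨max m₀ (max k₁ k₂), fun k hk ζ hζ hζ' hrζ => ?_⟩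
  obtain ⟨m, hm⟩ := card_fun_le hs hζ'
  exact hm₀ k (by omega) φ ψ _ _ r C (hk₁ k (by omega)) (hk₂ k (by omega)) (defFun_trunc hφ) hC
    (def_trunc hψ) m ζ hζ hζ' hm hrζ

end Pool.Agent.SigOne
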