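import Pool.Agent.Work.MP_680e5b_lc.PClub

/-!
# Jónsson submodels whose trace on an ordinal `ζ` is a given element of a club of `P_κ(ζ)`
-/

namespace Pool.Agent.SigOne

open Cardinal Ordinal Set

theorem ptrace (hJ : IsJonsson (ℵ_ ω)) : ∃ m₀ : ℕ, ∀ k : ℕ, m₀ ≤ k + 1 →
    ∀ (m : ℕ) (ζ : Ordinal.{0}) (_ : ω ≤ ζ) (hζ' : ζ < ω_ ω)
    (_ : #({ξ : Ordinal.{0} // ξ < ζ} → {ξ : Ordinal.{0} // ξ < ζ}) ≤ ℵ_ m)
    {N : Type 1} (ι : O → N) (_ : Function.Injective ι) (F : ℕ → List N → N)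
    (A : Set N) (_ : #A ≤ ℵ_ k), ∃ K : Set (Set Ordinal.{0}), PClub k ζ K ∧
      ∀ x ∈ K, ∃ X : Set N, Cl F X ∧ A ⊆ X ∧ #(ordPart ι X) = ℵ_ ω ∧
        ∀ ξ < ζ, ξ ∈ ordPart ι X ↔ ξ ∈ x := by
  obtain ⟨m₀, hm₀⟩ := row hJ
  refine ⟨m₀, fun k hk m ζ hζ hζ' hcard {N} ι hι F A hA => ?_⟩
  have hO : Nonempty O := ⟨⟨0, Ordinal.omega_pos _⟩⟩
  have hN : Nonempty N := hO.map ι
  let Ξ : Type 1 := {ξ : Ordinal.{0} // ξ < ζ}
  have hΞinf : Infinite Ξ := by
    rw [Cardinal.infinite_iff]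
    change ℵ₀ ≤ #(Iio ζ)
    rw [Cardinal.mk_Iio_ordinal]
    exact Cardinal.aleph0_le_lift.2 (Ordinal.aleph0_le_card.2 hζ)
  let z : Ξ := ⟨0, Ordinal.omega0_pos.trans_le hζ⟩
  obtain ⟨π, hπ⟩ := exists_proj Ξ
  choose code hcode using hπ
  have hklt : ∀ ξ : Ξ, ξ.1 < ω_ ω := fun ξ => ξ.2.trans hζ'
  -- the function induced by a function into `N`
  have hc : ∀ f : Ξ → N, ∃ g : Ξ → Ξ, ∀ (ξ η : Ξ), f ξ = ι ⟨η.1, hklt η⟩ → g ξ = η := by
    intro f
    classical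
    refine ⟨fun ξ => if h : ∃ η : Ξ, f ξ = ι ⟨η.1, hklt η⟩ then h.choose else z, ?_⟩
    intro ξ η h
    have hex : ∃ η : Ξ, f ξ = ι ⟨η.1, hklt η⟩ := ⟨η, h⟩
    simp only [hex, dite_true]
    have h1 := hι (hex.choose_spec.symm.trans h)
    exact Subtype.ext (Subtype.mk.inj h1)
  choose g hg using hc
  -- the codes of functions
  have hcard' : #(Ξ → Ξ) ≤ #(Iio (ω_ m : Ordinal.{0})) := by
    rw [card_Iio_omega]
    exact hcard
  obtain ⟨e⟩ := Cardinal.le_def _ _ |>.1 hcard'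
  have hne : Nonempty (Ξ → Ξ) := ⟨id⟩
  have he : ∀ f : Ξ → N, (e (g f)).1 < ω_ ω := fun f => lt_trans (e (g f)).2 (omega_lt m)
  -- the structure of functions
  let N' : Type 1 := Ξ → N
  let idf : N' := fun ξ => ι ⟨ξ.1, hklt ξ⟩
  let G : ℕ → List N' → N' := fun i l => match i with
    | 0 => idf
    | 1 => match l with
      | [f] => fun _ => ι ⟨(e (g f)).1, he f⟩
      | _ => idf
    | i + 2 => fun ξ => F i (l.mapIdx (fun j f => f (π j ξ)))
  let c : O → N' := fun ξ _ => ι ξ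
  have hcinj : Function.Injective c := fun x y hxy => hι (congrFun hxy z)
  let A' : Set N' := (fun a _ => a) '' A
  obtain ⟨Y, hY, hYm⟩ := hm₀ k hk m c hcinj G A' (Cardinal.mk_image_le.trans hA)
  -- the operations
  let J : Type 1 := Option (ordPart c Y ∩ Iio (ω_ m) : Set Ordinal.{0})
  have hJc : #J ≤ ℵ_ k := by
    change #(Option _) ≤ _
    rw [Cardinal.mk_option]
    refine (add_le_add (b := ℵ_ k) (d := ℵ_ k) hYm
      (Cardinal.one_le_aleph0.trans (Cardinal.aleph0_le_aleph _))).trans_eq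
        (Cardinal.add_eq_self (Cardinal.aleph0_le_aleph _))
  let H : J → List Ξ → Ξ := fun j l => match j with
    | none => code l
    | some μ => match l with
      | [ξ] => Function.invFun e ⟨μ.1, μ.2.2⟩ ξ
      | _ => z
  refine ⟨ClSets k ζ H, pclub_clSets hJc H, fun x hx => ?_⟩
  obtain ⟨hx1, hx2, hx3⟩ := hx
  have hxc : ∀ l : List Ξ, (∀ a ∈ l, a.1 ∈ x) → (code l).1 ∈ x := fun l hl => hx3 none l hl
  have hxf : ∀ f ∈ Y, ∀ ξ : Ξ, ξ.1 ∈ x → (g f ξ).1 ∈ x := by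
    intro f hf ξ hξ
    have hmem : (e (g f)).1 ∈ ordPart c Y := ⟨he f, hY.cl 1 [f] (by simpa using hf)⟩
    have h1 := hx3 (some ⟨(e (g f)).1, hmem, (e (g f)).2⟩) [ξ] (by simpa using hξ)
    have h2 : H (some ⟨(e (g f)).1, hmem, (e (g f)).2⟩) [ξ] = g f ξ := by
      change Function.invFun e (e (g f)) ξ = g f ξ
      rw [Function.leftInverse_invFun e.injective]
    rwa [h2] at h1
  have hz : (code []).1 ∈ x := hxc [] (by simp)
  let X : Set N := {y | ∃ f ∈ Y, ∃ ξ : Ξ, ξ.1 ∈ x ∧ f ξ = y}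
  refine ⟨X, ?_, ?_, ?_, ?_⟩
  · intro i l hl
    choose! f hf ξ hξ hξ' using hl
    refine ⟨_, hY.cl (i + 2) (l.map f) ?_, code (l.map ξ), ?_, ?_⟩
    · intro y hy
      obtain ⟨a, ha, rfl⟩ := List.mem_map.1 hy
      exact hf a ha
    · apply hxc
      intro y hy
      obtain ⟨a, ha, rfl⟩ := List.mem_map.1 hy
      exact hξ a ha
    · change F i ((l.map f).mapIdx (fun j g => g (π j (code (l.map ξ))))) = F i l
      congr 1
      apply List.ext_getElem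
      · simp
      · intro j h1 h2
        have h3 : π j (code (l.map ξ)) = ξ l[j] := by
          rw [hcode _ j (by simpa using h2)]
          simp
        simp only [List.getElem_mapIdx, List.getElem_map, h3]
        exact hξ' _ (List.getElem_mem h2)
  · intro a ha
    exact ⟨_, hY.sub ⟨a, ha, rfl⟩, code [], hz, rfl⟩
  · apply le_antisymm
    · rw [card_ordPart, ← mk_O]
      exact Cardinal.mk_set_le _
    · rw [← hY.card]
      refine Cardinal.mk_le_mk_of_subset ?_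
      rintro ξ ⟨h1, h2⟩
      exact ⟨h1, _, h2, code [], hz, rfl⟩
  · intro ξ hξ
    constructor
    · rintro ⟨h1, f, hf, η, hη, h2⟩
      have h3 := hxf f hf η hη
      rwa [hg f η ⟨ξ, hξ⟩ h2] at h3
    · intro h
      exact ⟨hξ.trans hζ', _, hY.cl 0 [] (by simp), ⟨ξ, hξ⟩, h, rfl⟩

end Pool.Agent.SigOne
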