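import Pool.Agent.Work.MP_680e5b_lc.Kay

/-!
# Pressing down on sets with large traces
-/

namespace Pool.Agent.SigOne

open Cardinal Ordinal Set

/-- the set `P = H(ℵ_ω) ∪ {ω_ω}` -/
def InP (x : V) : Prop := (∃ T : V, T.IsTransitive ∧ x ⊆ T ∧ T.card < ℵ_ ω) ∨ x = Om

/-- a club of `ω_ω` that is `Σ₁`-definable with parameters in `P` -/
def SigClub (C : Set Ordinal.{0}) : Prop :=
  Club (ω_ ω) C ∧ ∃ (φ : Fml) (v : ℕ → V), (∀ n, InP (v n)) ∧ Def φ v (code C)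

/-- a function on `ω_ω` that is `Σ₁`-definable with parameters in `P` -/
def SigFun (r : Ordinal.{0} → Ordinal.{0}) : Prop :=
  ∃ (φ : Fml) (v : ℕ → V), (∀ n, InP (v n)) ∧ DefFun φ v r

/-- `S` is `Σ₁`-stationary -/
def SigStat (S : Set Ordinal.{0}) : Prop := ∀ C, SigClub C → ∃ δ ∈ S, δ ∈ C

lemma Hs_mono {k l : ℕ} (h : k ≤ l) : Hs k ⊆ Hs l := by
  rintro x ⟨T, h1, h2, h3⟩
  refine ⟨T, h1, h2, h3.trans ?_⟩
  rw [Cardinal.aleph_le_aleph]
  exact_mod_cast h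

lemma exists_le_aleph {c : Cardinal.{0}} (h : c < ℵ_ ω) : ∃ k : ℕ, c ≤ ℵ_ k := by
  have h1 : c.ord < ω_ ω := by
    rw [← Cardinal.ord_aleph, Cardinal.ord_lt_ord]
    exact h
  obtain ⟨m, hm⟩ := exists_lt_omega h1
  refine ⟨m, ?_⟩
  rw [← Cardinal.ord_aleph, Cardinal.ord_lt_ord] at hm
  exact hm.le

lemma inP_iff {x : V} : InP x ↔ (∃ k, x ∈ Hs k) ∨ x = Om := by
  refine or_congr ⟨?_, ?_⟩ Iff.rfl
  · rintro ⟨T, h1, h2, h3⟩
    have hins : (insert x T : V).card ≤ T.card + 1 := by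
      have h4 := ZFSet.cardinalMk_coe_sort (x := insert x T)
      have h5 := ZFSet.cardinalMk_coe_sort (x := T)
      have h6 : #{y : V // y ∈ insert x T} ≤ #{y : V // y ∈ T} + 1 := by
        have h7 : {y : V | y ∈ insert x T} = insert x {y : V | y ∈ T} := by
          ext y
          simp
        have h8 := Cardinal.mk_insert_le (s := {y : V | y ∈ T}) (a := x)
        rw [← h7] at h8
        exact h8
      have h7 : Cardinal.lift.{1} (insert x T : V).card ≤ Cardinal.lift.{1} (T.card + 1) := by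
        rw [← h4, Cardinal.lift_add, Cardinal.lift_one, ← h5]
        exact h6
      exact Cardinal.lift_le.1 h7
    obtain ⟨k, hk⟩ := exists_le_aleph h3
    refine ⟨k, insert x T, ?_, by simp, hins.trans ?_⟩
    · intro y hy z hz
      rw [ZFSet.mem_insert_iff] at hy ⊢
      rcases hy with rfl | hy
      · exact Or.inr (h2 hz)
      · exact Or.inr (h1.mem_trans hz hy)
    · refine (add_le_add hk (Cardinal.one_le_aleph0.trans (Cardinal.aleph0_le_aleph k))).trans ?_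
      exact (Cardinal.add_eq_self (Cardinal.aleph0_le_aleph _)).le
  · rintro ⟨k, T, h1, h2, h3⟩
    refine ⟨T, h1, h1.subset_of_mem h2, h3.trans_lt ?_⟩
    rw [Cardinal.aleph_lt_aleph]
    exact Ordinal.natCast_lt_omega0 k

/-- only finitely many parameters matter -/
lemma exists_level (b : ℕ) {v : ℕ → V} (hv : ∀ n, InP (v n)) : ∃ k₀ : ℕ, ∀ k, k₀ ≤ k →
    ∀ n, (if n < b then v n else Om) ∈ Hs k ∨ (if n < b then v n else Om) = Om := by
  have h1 : ∀ n, ∃ k, v n ∈ Hs k ∨ v n = Om := by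
    intro n
    rcases inP_iff.1 (hv n) with ⟨k, h⟩ | h
    · exact ⟨k, Or.inl h⟩
    · exact ⟨0, Or.inr h⟩
  choose κ hκ using h1
  refine ⟨∑ n ∈ Finset.range b, κ n, fun k hk n => ?_⟩
  by_cases hn : n < b
  · simp only [hn, if_true]
    rcases hκ n with h | h
    · left
      refine Hs_mono (le_trans ?_ hk) h
      exact Finset.single_le_sum (f := κ) (fun _ _ => Nat.zero_le _) (Finset.mem_range.2 hn)
    · exact Or.inr h
  · simp [hn]

lemma def_trunc {φ : Fml} {v : ℕ → V} {x : V} (h : Def φ v x) :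
    Def φ (fun n => if n < bnd φ then v n else Om) x := by
  intro y
  rw [← h y]
  refine exists_congr fun w => sat_congr fun n hn => ?_
  match n with
  | 0 => rfl
  | 1 => rfl
  | n + 2 => simp only [val, show n < bnd φ by omega, if_true]

lemma defFun_trunc {φ : Fml} {v : ℕ → V} {r : Ordinal.{0} → Ordinal.{0}} (h : DefFun φ v r) :
    DefFun φ (fun n => if n < bnd φ then v n else Om) r := by
  refine ⟨h.lt, fun α hα β hβ => ?_⟩
  rw [h.iff α hα β hβ]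
  refine exists_congr fun w => sat_congr fun n hn => ?_
  match n with
  | 0 => rfl
  | 1 => rfl
  | 2 => rfl
  | n + 3 => simp only [val3, show n < bnd φ by omega, if_true]

/-- `S` is large below `ω_n`: it contains a club of `ω_n`, or it is a stationary subset of `ω_n`
and the club filter on `ω_n` is generated by fewer than `ℵ_ω` sets -/
def Big (S : Set Ordinal.{0}) (n : ℕ) : Prop :=
  (∃ E, Club (ω_ n) E ∧ E ⊆ S) ∨
    ((∃ m, Gen n m) ∧ ∀ E, Club (ω_ n) E → ∃ δ ∈ E, δ ∈ S)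

/-- for every definable club `C` and every definable regressive function `r`, in almost all
`ω_n` -/
theorem main_trace (hJ : IsJonsson (ℵ_ ω)) {r : Ordinal.{0} → Ordinal.{0}} (hr : SigFun r)
    (hreg : Reg r) {C : Set Ordinal.{0}} (hC : SigClub C) : ∃ n₀ : ℕ, ∀ n : ℕ, n₀ ≤ n →
      (ω_ n : Ordinal.{0}) ∈ C ∧
      (∀ S, Big S n → ∃ δ ∈ S, δ ∈ C ∧ r δ = r (ω_ n)) ∧
      ∀ m, Gen n m → ∃ E, Club (ω_ n) E ∧ ∀ δ ∈ E, δ ∈ C ∧ r δ = r (ω_ n) := by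
  obtain ⟨m₀, hm₀⟩ := trace_const hJ
  obtain ⟨φ, v, hv, hφ⟩ := hr
  obtain ⟨hC, ψ, v', hv', hψ⟩ := hC
  obtain ⟨k₁, hk₁⟩ := exists_level (bnd φ) hv
  obtain ⟨k₂, hk₂⟩ := exists_level (bnd ψ) hv'
  refine ⟨max m₀ (max k₁ k₂) + 1, fun n hn => ?_⟩
  obtain ⟨k, rfl⟩ : ∃ k, n = k + 1 := ⟨n - 1, by omega⟩
  obtain ⟨h1, h2, h3⟩ := hm₀ k (by omega) φ ψ _ _ r C
    ⟨hk₁ k (by omega), hk₂ k (by omega), defFun_trunc hφ, hreg, hC, def_trunc hψ⟩
  refine ⟨h1, ?_, h3⟩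
  rintro S (⟨E, hE, hES⟩ | ⟨⟨m, hm⟩, hS⟩)
  · obtain ⟨δ, h4, h5, h6⟩ := h2 E hE
    exact ⟨δ, hES h4, h5, h6⟩
  · obtain ⟨E, hE, hE'⟩ := h3 m hm
    obtain ⟨δ, h4, h5⟩ := hS E hE
    exact ⟨δ, h5, hE' δ h4⟩

theorem main_repeat (hJ : IsJonsson (ℵ_ ω)) {r : Ordinal.{0} → Ordinal.{0}} (hr : SigFun r)
    (hreg : Reg r) : ∃ n₀ : ℕ, ∀ n : ℕ, n₀ ≤ n → ∀ N : ℕ, ∃ l > N, r (ω_ (l : ℕ)) = r (ω_ n) := by
  obtain ⟨m₀, hm₀⟩ := repeat_value hJ
  obtain ⟨φ, v, hv, hφ⟩ := hr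
  obtain ⟨k₁, hk₁⟩ := exists_level (bnd φ) hv
  refine ⟨max m₀ k₁ + 1, fun n hn N => ?_⟩
  obtain ⟨k, rfl⟩ : ∃ k, n = k + 1 := ⟨n - 1, by omega⟩
  have h1 := hm₀ k (by omega) φ _ r (hk₁ k (by omega)) (defFun_trunc hφ) hreg
  have h2 : ∀ N : ℕ, ∃ l, k + 1 ≤ l ∧ N ≤ l ∧ r (ω_ (l : ℕ)) = r (ω_ (k + 1 : ℕ)) := by
    intro N
    induction N with
    | zero => exact ⟨k + 1, le_rfl, Nat.zero_le _, rfl⟩
    | succ N ih =>
      obtain ⟨l, h2, h3, h4⟩ := ih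
      obtain ⟨l', h5, h6⟩ := h1 l h2 h4
      exact ⟨l', by omega, by omega, h6⟩
  obtain ⟨l, _, h3, h4⟩ := h2 (N + 1)
  exact ⟨l, by omega, h4⟩

/-- **Pressing down**, if `r` is constant on infinitely many of the cardinals. -/
theorem press_of_const (hJ : IsJonsson (ℵ_ ω)) {r : Ordinal.{0} → Ordinal.{0}} (hr : SigFun r)
    (hreg : Reg r) {S : Set Ordinal.{0}} {β : Ordinal.{0}}
    (h : ∀ N : ℕ, ∃ n > N, Big S n ∧ r (ω_ (n : ℕ)) = β) : SigStat {δ | δ ∈ S ∧ r δ = β} := by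
  intro C hC
  obtain ⟨n₀, hn₀⟩ := main_trace hJ hr hreg hC
  obtain ⟨n, hn, hS, hβ⟩ := h n₀
  obtain ⟨-, h2, -⟩ := hn₀ n hn.le
  obtain ⟨δ, h3, h4, h5⟩ := h2 S hS
  exact ⟨δ, ⟨h3, h5.trans hβ⟩, h4⟩

/-- **Pressing down** on sets that are large below almost all `ω_n`. -/
theorem press_of_big (hJ : IsJonsson (ℵ_ ω)) {r : Ordinal.{0} → Ordinal.{0}} (hr : SigFun r)
    (hreg : Reg r) {S : Set Ordinal.{0}} (h : ∃ N : ℕ, ∀ n > N, Big S n) :
    ∃ n : ℕ, SigStat {δ | δ ∈ S ∧ r δ = r (ω_ n)} := by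
  obtain ⟨N, hN⟩ := h
  obtain ⟨n₀, hn₀⟩ := main_repeat hJ hr hreg
  refine ⟨n₀, press_of_const hJ hr hreg fun M => ?_⟩
  obtain ⟨l, h1, h2⟩ := hn₀ n₀ le_rfl (max M N)
  exact ⟨l, by omega, hN l (by omega), h2⟩

/-- in the strong limit case the club filters are generated by few sets -/
lemma gen_of_pow {n m : ℕ} (h : (2 : Cardinal.{0}) ^ (ℵ_ n : Cardinal.{0}) ≤ ℵ_ m) : Gen n m := by
  have h1 : #(Set (Iio (ω_ n : Ordinal.{0}))) ≤ #(Iio (ω_ m : Ordinal.{0})) := by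
    rw [Cardinal.mk_set, card_Iio_omega, card_Iio_omega]
    have h2 := Cardinal.lift_le.{1}.2 h
    rw [Cardinal.lift_power, Cardinal.lift_two, Cardinal.lift_aleph, Cardinal.lift_aleph] at h2
    simpa using h2
  obtain ⟨e⟩ := Cardinal.le_def _ _ |>.1 h1
  classical
  let D : Ordinal.{0} → Set Ordinal.{0} := fun ν =>
    if hν : ν < ω_ m then Subtype.val '' (Function.invFun e ⟨ν, hν⟩) else ∅
  refine ⟨D, fun C hC => ⟨(e (Subtype.val ⁻¹' C)).1, (e _).2, ?_⟩⟩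
  have h2 : D (e (Subtype.val ⁻¹' C)).1 = C := by
    have h3 : (e (Subtype.val ⁻¹' C)).1 < ω_ m := (e _).2
    have h4 : D (e (Subtype.val ⁻¹' C)).1 = Subtype.val '' (Function.invFun e
        ⟨(e (Subtype.val ⁻¹' C)).1, h3⟩) := dif_pos h3
    rw [h4]
    have h5 : Function.invFun e ⟨(e (Subtype.val ⁻¹' C)).1, h3⟩ = Subtype.val ⁻¹' C :=
      Function.leftInverse_invFun e.injective _
    rw [h5, Subtype.image_preimage_coe]
    exact Set.inter_eq_right.2 hC.lt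
  rw [h2]
  exact ⟨hC, subset_rfl⟩

end Pool.Agent.SigOne
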