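import Pool.Agent.Work.MP_680e5b_lc.Trace

/-!
# Regressive functions definable by `Σ₁`-formulas
-/

namespace Pool.Agent.SigOne

open Cardinal Ordinal Set

/-- the valuation `x_0 ↦ a, x_1 ↦ b, x_2 ↦ w, x_(n+3) ↦ v n` -/
def val3 (a b w : V) (v : ℕ → V) : ℕ → V
  | 0 => a
  | 1 => b
  | 2 => w
  | n + 3 => v n

/-- the function `r` on `ω_ω` is defined by `∃ w, φ (α, β, w, v)` -/
structure DefFun (φ : Fml) (v : ℕ → V) (r : Ordinal.{0} → Ordinal.{0}) : Prop where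
  lt : ∀ α < ω_ ω, r α < ω_ ω
  iff : ∀ α < ω_ ω, ∀ β < ω_ ω, r α = β ↔ ∃ w, Sat φ (val3 α.toZFSet β.toZFSet w v)

/-- regressive functions on `ω_ω` -/
def Reg (r : Ordinal.{0} → Ordinal.{0}) : Prop := ∀ α < ω_ ω, 0 < α → r α < α

lemma coll_Om {X : Set V} (hX : Ext X) (h : #(ordPart io X) = ℵ_ ω) : coll X Om = Om := by
  obtain ⟨τ, hτ1, hτ2⟩ := coll_ord (X := X) (ω_ ω)
  have h1 := card_coll_ord hX (le_refl (ω_ ω : Ordinal.{0}))
  have h2 : (ordPart io X ∩ Iio (ω_ ω) : Set Ordinal.{0}) = ordPart io X := by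
    apply Set.inter_eq_left.2
    rintro ξ ⟨h, _⟩
    exact h
  rw [h2, h, hτ2, Ordinal.card_toZFSet] at h1
  have h3 : τ.card = ℵ_ ω := by
    have h4 : Cardinal.lift.{1} τ.card = Cardinal.lift.{1} (ℵ_ ω : Cardinal.{0}) := by
      rw [h1, Cardinal.lift_aleph, Ordinal.lift_omega0]
    exact Cardinal.lift_injective h4
  have h4 : τ = ω_ ω := by
    apply le_antisymm hτ1
    by_contra h5
    rw [not_le, Cardinal.lt_omega_iff_card_lt, h3] at h5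
    exact lt_irrefl _ h5
  rw [h4] at hτ2
  exact hτ2

/-- a small set of sets that controls the parameters -/
lemma exists_par {k : ℕ} {v : ℕ → V} (hv : ∀ n, v n ∈ Hs k ∨ v n = Om) :
    ∃ P : Set V, #P ≤ ℵ_ k ∧ ∀ X : Set V, P ⊆ X → coll X Om = Om →
      Om ∈ X ∧ ∀ n, v n ∈ X ∧ coll X (v n) = v n := by
  have hT : ∀ n, ∃ T : V, T.IsTransitive ∧ (v n ∈ T ∨ v n = Om) ∧ T.card ≤ ℵ_ k := by
    intro n
    rcases hv n with ⟨T, h1, h2, h3⟩ | h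
    · exact ⟨T, h1, Or.inl h2, h3⟩
    · exact ⟨∅, ZFSet.isTransitive_empty, Or.inr h, by simp⟩
  choose T hT1 hT2 hT3 using hT
  refine ⟨(⋃ n, {y | y ∈ T n}) ∪ {Om}, ?_, fun X hX hO => ?_⟩
  · refine (Cardinal.mk_union_le _ _).trans ?_
    refine (add_le_add (b := ℵ_ k) (d := ℵ_ k) ?_ ?_).trans_eq
      (Cardinal.add_eq_self (Cardinal.aleph0_le_aleph _))
    · have h1 : ∀ n, #{y | y ∈ T n} ≤ ℵ_ k := by
        intro n
        have h2 := ZFSet.cardinalMk_coe_sort (x := T n)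
        have h3 := Cardinal.lift_le.{1}.2 (hT3 n)
        rw [← h2, Cardinal.lift_aleph] at h3
        simpa using h3
      have h2 := Cardinal.mk_iUnion_le_lift (fun n => {y | y ∈ T n})
      have h3 : (⨆ n, Cardinal.lift.{0} #{y | y ∈ T n}) ≤ ℵ_ k :=
        ciSup_le' fun n => (Cardinal.lift_uzero _).trans_le (h1 n)
      have h4 := h2.trans (mul_le_mul' (le_refl _) h3)
      rw [Cardinal.mk_nat, Cardinal.lift_aleph0, Cardinal.lift_uzero] at h4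
      refine h4.trans ?_
      exact (Cardinal.aleph0_mul_eq (Cardinal.aleph0_le_aleph _)).le
    · refine le_trans ?_ (Cardinal.aleph0_le_aleph _)
      exact Cardinal.mk_le_aleph0_iff.2 (Set.Countable.to_subtype (by simp))
  · have hO' : Om ∈ X := hX (Or.inr rfl)
    have hTX : ∀ n, ∀ x ∈ T n, x ∈ X := fun n x hx => hX (Or.inl (Set.mem_iUnion.2 ⟨n, hx⟩))
    refine ⟨hO', fun n => ?_⟩
    rcases hT2 n with h | h
    · exact ⟨hTX n _ h, coll_eq_self (hT1 n) (hTX n) _ h⟩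
    · rw [h]
      exact ⟨hO', hO⟩

lemma coll_club {X : Set V} (hX : Ext X) {φ : Fml} (hφ : Wit X φ) {v : ℕ → V}
    (hv : ∀ n, v n ∈ X ∧ coll X (v n) = v n) {x : V} (hD : Def φ v x) (hx : x ∈ X) {w : V}
    (hw : w ∈ X) (hs : Sat φ (val x w v)) : coll X x = x := by
  rw [← hD]
  refine ⟨coll X w, ?_⟩
  have h0 : ∀ n, val x w v n ∈ X := by
    intro n
    match n with
    | 0 => exact hx
    | 1 => exact hw
    | n + 2 => exact (hv n).1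
  have h1 := (sat_coll hX hφ h0).2 hs
  have h2 : coll X ∘ val x w v = val (coll X x) (coll X w) v := by
    funext n
    match n with
    | 0 => rfl
    | 1 => rfl
    | n + 2 => exact (hv n).2
  rwa [h2] at h1

lemma coll_fun {X : Set V} (hX : Ext X) {φ : Fml} (hφ : Wit X φ) {v : ℕ → V}
    (hv : ∀ n, v n ∈ X ∧ coll X (v n) = v n) {r : Ordinal.{0} → Ordinal.{0}}
    (hr : DefFun φ v r) {α β α' β' : Ordinal.{0}} (hα : α ≤ ω_ ω) (hβ : β ≤ ω_ ω)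
    (hα' : α' < ω_ ω) (hβ' : β' < ω_ ω)
    (h1 : α.toZFSet ∈ X) (h2 : β.toZFSet ∈ X) {w : V} (hw : w ∈ X)
    (hs : Sat φ (val3 α.toZFSet β.toZFSet w v)) (h3 : coll X α.toZFSet = α'.toZFSet)
    (h4 : coll X β.toZFSet = β'.toZFSet) : r α' = β' := by
  rw [hr.iff α' hα' β' hβ']
  refine ⟨coll X w, ?_⟩
  have h0 : ∀ n, val3 α.toZFSet β.toZFSet w v n ∈ X := by
    intro n
    match n with
    | 0 => exact h1
    | 1 => exact h2
    | 2 => exact hw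
    | n + 3 => exact (hv n).1
  have h5 := (sat_coll hX hφ h0).2 hs
  have h6 : coll X ∘ val3 α.toZFSet β.toZFSet w v = val3 α'.toZFSet β'.toZFSet (coll X w) v := by
    funext n
    match n with
    | 0 => exact h3
    | 1 => exact h4
    | 2 => rfl
    | n + 3 => exact (hv n).2
  rwa [h6] at h5

/-- the collapse of an ordinal whose trace is an initial segment -/
lemma coll_trace {X : Set V} {κ δ : Ordinal.{0}} (hκ : κ < ω_ ω) (hδ : δ ≤ κ)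
    (h : ∀ ξ < κ, ξ ∈ ordPart io X ↔ ξ < δ) : coll X κ.toZFSet = δ.toZFSet := by
  have hδX : ∀ x ∈ δ.toZFSet, x ∈ X := by
    intro x hx
    obtain ⟨ξ, h1, rfl⟩ := Ordinal.mem_toZFSet_iff.1 hx
    exact ((h ξ (h1.trans_le hδ)).2 h1).2
  ext z
  rw [mem_coll]
  constructor
  · rintro ⟨y, h1, h2, rfl⟩
    obtain ⟨ξ, h3, rfl⟩ := Ordinal.mem_toZFSet_iff.1 h1
    have h4 : ξ < δ := (h ξ h3).1 ⟨h3.trans hκ, h2⟩
    have h5 := Ordinal.toZFSet_mem_toZFSet_iff.2 h4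
    rw [coll_eq_self (ZFSet.isOrdinal_toZFSet δ).isTransitive hδX _ h5]
    exact h5
  · intro hz
    have h1 := coll_eq_self (ZFSet.isOrdinal_toZFSet δ).isTransitive hδX _ hz
    obtain ⟨ξ, h2, rfl⟩ := Ordinal.mem_toZFSet_iff.1 hz
    exact ⟨_, Ordinal.toZFSet_mem_toZFSet_iff.2 (h2.trans_le hδ), hδX _ hz, h1⟩

lemma coll_small {X : Set V} {δ β : Ordinal.{0}} (hδ : ∀ ξ < δ, ξ ∈ ordPart io X)
    (hβ : β < δ) : coll X β.toZFSet = β.toZFSet := by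
  refine coll_eq_self (ZFSet.isOrdinal_toZFSet δ).isTransitive ?_ _
    (Ordinal.toZFSet_mem_toZFSet_iff.2 hβ)
  intro x hx
  obtain ⟨ξ, h1, rfl⟩ := Ordinal.mem_toZFSet_iff.1 hx
  exact (hδ ξ h1).2

/-- the two situations at `ω_(k+1)` -/
structure Sit (k : ℕ) (φ ψ : Fml) (v v' : ℕ → V) (r : Ordinal.{0} → Ordinal.{0})
    (C : Set Ordinal.{0}) : Prop where
  hv : ∀ n, v n ∈ Hs k ∨ v n = Om
  hv' : ∀ n, v' n ∈ Hs k ∨ v' n = Om
  hr : DefFun φ v r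
  hreg : Reg r
  hC : Club (ω_ ω) C
  hD : Def ψ v' (code C)

lemma Sit.exists_A {k : ℕ} {φ ψ : Fml} {v v' : ℕ → V} {r : Ordinal.{0} → Ordinal.{0}}
    {C : Set Ordinal.{0}} (h : Sit k φ ψ v v' r C)
    (hk : (ω_ (k + 1 : ℕ) : Ordinal.{0}) ∈ C) : ∃ A : Set V, #A ≤ ℵ_ k ∧ ∀ X : Set V, A ⊆ X →
      Cl (ops (φ.and ψ)) X → #(ordPart io X) = ℵ_ ω → ∀ δ ≤ (ω_ (k + 1 : ℕ) : Ordinal.{0}),
      r (ω_ (k + 1 : ℕ)) < δ → (∀ ξ < ω_ (k + 1 : ℕ), ξ ∈ ordPart io X ↔ ξ < δ) →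
      δ ∈ C ∧ r δ = r (ω_ (k + 1 : ℕ)) := by
  have hklt : (ω_ (k + 1 : ℕ) : Ordinal.{0}) < ω_ ω := omega_lt (k + 1)
  obtain ⟨P, hP, hP'⟩ := exists_par h.hv
  obtain ⟨Q, hQ, hQ'⟩ := exists_par h.hv'
  obtain ⟨w, hw⟩ := (h.hD (code C)).2 rfl
  set β := r (ω_ (k + 1 : ℕ)) with hβ
  have hβlt : β < ω_ ω := h.hr.lt _ hklt
  obtain ⟨w', hw'⟩ := (h.hr.iff _ hklt β hβlt).1 rfl
  refine ⟨(P ∪ Q) ∪ {code C, w, w', (ω_ (k + 1 : ℕ) : Ordinal.{0}).toZFSet, β.toZFSet}, ?_, ?_⟩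
  · refine (Cardinal.mk_union_le _ _).trans ?_
    refine (add_le_add (b := ℵ_ k) (d := ℵ_ k) ?_ ?_).trans_eq
      (Cardinal.add_eq_self (Cardinal.aleph0_le_aleph _))
    · exact (Cardinal.mk_union_le _ _).trans ((add_le_add hP hQ).trans_eq
        (Cardinal.add_eq_self (Cardinal.aleph0_le_aleph _)))
    · refine le_trans ?_ (Cardinal.aleph0_le_aleph _)
      exact Cardinal.mk_le_aleph0_iff.2 (Set.Countable.to_subtype (by simp))
  · intro X hX1 hX2 hX3 δ hδ hβδ hX4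
    have hext := ext_of_cl hX2
    have hwit := wit_of_cl hX2
    have hφ : Wit X φ := hwit.mono (by simp [subs, self_mem_subs])
    have hψ : Wit X ψ := hwit.mono (by simp [subs, self_mem_subs])
    have hO := coll_Om hext hX3
    have hPX := hP' X (fun x hx => hX1 (Or.inl (Or.inl hx))) hO
    have hQX := hQ' X (fun x hx => hX1 (Or.inl (Or.inr hx))) hO
    have hBX : ∀ x ∈ ({code C, w, w', (ω_ (k + 1 : ℕ) : Ordinal.{0}).toZFSet, β.toZFSet} : Set V),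
      x ∈ X := fun x hx => hX1 (Or.inr hx)
    have h1 := coll_trace hklt hδ hX4
    have h2 : coll X β.toZFSet = β.toZFSet :=
      coll_small (fun ξ hξ => (hX4 ξ (hξ.trans_le hδ)).2 hξ) hβδ
    have h3 := coll_club hext hψ hQX.2 h.hD (hBX _ (by simp)) (hBX _ (by simp)) hw
    refine ⟨?_, ?_⟩
    · rw [← toZFSet_mem_code h.hC.lt, ← h1, ← h3]
      exact coll_mem ((toZFSet_mem_code h.hC.lt).2 hk) (hBX _ (by simp))
    · exact coll_fun hext hφ hPX.2 h.hr hklt.le hβlt.le (hδ.trans_lt hklt) hβlt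
        (hBX _ (by simp)) (hBX _ (by simp)) (hBX _ (by simp)) hw' h1 h2

lemma club_Ioi {κ : Ordinal.{0}} {D : Set Ordinal.{0}} (hD : Club κ D) {β : Ordinal.{0}}
    (hβ : β < κ) : Club κ {δ | δ ∈ D ∧ β < δ} := by
  refine ⟨fun α hα => hD.lt α hα.1, fun α hα => ?_, fun α hα h0 h => ⟨?_, ?_⟩⟩
  · obtain ⟨γ, h1, h2⟩ := hD.unbounded (max α β) (max_lt hα hβ)
    exact ⟨γ, ⟨h1, (le_max_right _ _).trans_lt h2⟩, (le_max_left _ _).trans_lt h2⟩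
  · refine hD.closed α hα h0 fun β hβ => ?_
    obtain ⟨γ, h1, h2, h3⟩ := h β hβ
    exact ⟨γ, h1.1, h2, h3⟩
  · obtain ⟨γ, h1, h2, h3⟩ := h 0 (pos_iff_ne_zero.2 h0)
    exact h1.2.trans h3

/-- **Main lemma on clubs of `ω_(k+1)`.** -/
theorem trace_const (hJ : IsJonsson (ℵ_ ω)) : ∃ m₀ : ℕ, ∀ k : ℕ, m₀ ≤ k + 1 →
    ∀ (φ ψ : Fml) (v v' : ℕ → V) (r : Ordinal.{0} → Ordinal.{0}) (C : Set Ordinal.{0}),
      Sit k φ ψ v v' r C → (ω_ (k + 1 : ℕ) : Ordinal.{0}) ∈ C ∧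
      (∀ E, Club (ω_ (k + 1 : ℕ)) E → ∃ δ ∈ E, δ ∈ C ∧ r δ = r (ω_ (k + 1 : ℕ))) ∧
      ∀ m, Gen (k + 1) m → ∃ E, Club (ω_ (k + 1 : ℕ)) E ∧
        ∀ δ ∈ E, δ ∈ C ∧ r δ = r (ω_ (k + 1 : ℕ)) := by
  obtain ⟨m₁, hm₁⟩ := exists_core hJ
  obtain ⟨m₂, hm₂⟩ := row hJ
  obtain ⟨m₃, hm₃⟩ := trace hJ
  refine ⟨max m₁ (max m₂ m₃), fun k hk φ ψ v v' r C h => ?_⟩
  have hklt : (ω_ (k + 1 : ℕ) : Ordinal.{0}) < ω_ ω := omega_lt (k + 1)
  have hcore := hm₁ k (by omega) ψ v' C h.hv' h.hC h.hD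
  obtain ⟨A, hA, hA'⟩ := h.exists_A hcore
  have hβ : r (ω_ (k + 1 : ℕ)) < ω_ (k + 1 : ℕ) := h.hreg _ hklt (Ordinal.omega_pos _)
  refine ⟨hcore, fun E hE => ?_, fun m hm => ?_⟩
  · classical
    let nx : V → V := fun x => if h : ∃ ξ : Ordinal.{0}, ξ < ω_ (k + 1 : ℕ) ∧ ξ.toZFSet = x then
      (hE.unbounded h.choose h.choose_spec.1).choose.toZFSet else ∅
    let F : ℕ → List V → V := fun i l => match i with
      | 0 => match l with
        | [x] => nx x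
        | _ => ∅
      | i + 1 => ops (φ.and ψ) i l
    obtain ⟨X, hX, -⟩ := hm₂ k (by omega) 0 io io_inj F
      (A ∪ {(r (ω_ (k + 1 : ℕ))).toZFSet}) (by
        refine (Cardinal.mk_union_le _ _).trans ?_
        refine (add_le_add (b := ℵ_ k) (d := ℵ_ k) hA ?_).trans_eq
          (Cardinal.add_eq_self (Cardinal.aleph0_le_aleph _))
        refine le_trans ?_ (Cardinal.aleph0_le_aleph _)
        exact Cardinal.mk_le_aleph0_iff.2 (Set.Countable.to_subtype (by simp)))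
    obtain ⟨χ, hχ, hχ'⟩ := hX.init
    have h1 : ∀ ξ < χ, ∃ γ ∈ E, ξ < γ ∧ γ < χ := by
      intro ξ hξ
      have hξk := hξ.trans hχ
      have h2 := ((hχ' ξ hξk).2 hξ).2
      have h3 := hX.cl 0 [io ⟨ξ, hξk.trans hklt⟩] (by simpa using h2)
      have hex : ∃ ζ : Ordinal.{0}, ζ < ω_ (k + 1 : ℕ) ∧ ζ.toZFSet = io ⟨ξ, hξk.trans hklt⟩ :=
        ⟨ξ, hξk, rfl⟩
      have h4 : hex.choose = ξ := Ordinal.toZFSet_injective hex.choose_spec.2
      have h5 : F 0 [io ⟨ξ, hξk.trans hklt⟩] =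
          (hE.unbounded hex.choose hex.choose_spec.1).choose.toZFSet := by
        change nx _ = _
        simp only [nx, hex, dite_true]
      obtain ⟨h6, h7⟩ := (hE.unbounded hex.choose hex.choose_spec.1).choose_spec
      rw [h5] at h3
      set γ := (hE.unbounded hex.choose hex.choose_spec.1).choose with hγ
      have h8 := hE.lt γ h6
      refine ⟨γ, h6, h4 ▸ h7, (hχ' γ h8).1 ⟨h8.trans hklt, h3⟩⟩
    have hβX : r (ω_ (k + 1 : ℕ)) ∈ ordPart io X :=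
      ⟨hβ.trans hklt, hX.sub (Or.inr rfl)⟩
    have hβχ := (hχ' _ hβ).1 hβX
    have hcl : Cl (ops (φ.and ψ)) X := fun i l hl => hX.cl (i + 1) l hl
    obtain ⟨h2, h3⟩ := hA' X (fun x hx => hX.sub (Or.inl hx)) hcl hX.card χ hχ.le hβχ hχ'
    exact ⟨χ, hE.closed χ hχ (pos_iff_ne_zero.1 (zero_le.trans_lt hβχ)) h1, h2, h3⟩
  · obtain ⟨D, hD, hD'⟩ := hm₃ k (by omega) m hm io io_inj (ops (φ.and ψ)) A hA
    refine ⟨_, club_Ioi hD hβ, ?_⟩
    rintro δ ⟨h1, h2⟩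
    obtain ⟨X, hX1, hX2, hX3, hX4⟩ := hD' δ h1
    exact hA' X hX2 hX1 hX3 δ (hD.lt δ h1).le h2 hX4

end Pool.Agent.SigOne
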