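import Pool.Agent.Work.MP_680e5b_lc.GoodSub

/-!
# Jónsson submodels with few elements below `ω_m`
-/

namespace Pool.Agent.SigOne

open Cardinal Ordinal Set

/-- in a set closed under the bijections, the initial segments given by elements below `ω_(m+1)`
are not larger than the one given by `ω_m` -/
lemma card_init {X : Set Ordinal.{0}} (hX : Gd X) {m : ℕ} {α : Ordinal.{0}} (hα : α ∈ X)
    (h : α < ω_ (m + 1 : ℕ)) :
    #(X ∩ Iio α : Set Ordinal.{0}) ≤ #(X ∩ Iio (ω_ m) : Set Ordinal.{0}) := by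
  have hle : α.card.ord ≤ ω_ m := by
    rw [← Cardinal.ord_aleph, Cardinal.ord_le_ord]
    have h1 : α.card < ℵ_ (m + 1 : ℕ) := by rwa [← Cardinal.lt_omega_iff_card_lt]
    push_cast at h1
    rwa [← Cardinal.succ_aleph, Order.lt_succ_iff] at h1
  refine Cardinal.mk_le_of_injective (f := fun x : (X ∩ Iio α : Set Ordinal.{0}) =>
    (⟨bij α x.1, hX.bij α hα x.1 x.2.1 x.2.2,
      lt_of_lt_of_le (bij_lt x.2.2) hle⟩ : (X ∩ Iio (ω_ m) : Set Ordinal.{0}))) ?_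
  intro x y hxy
  have h3 : bij α x.1 = bij α y.1 := congrArg Subtype.val hxy
  apply Subtype.ext
  rw [← inv_bij x.2.2, ← inv_bij y.2.2, h3]

/-- a set of ordinals with small initial segments -/
lemma card_le_of_init {B : Set Ordinal.{0}} {k : ℕ}
    (h : ∀ α ∈ B, #(B ∩ Iio α : Set Ordinal.{0}) ≤ ℵ_ k) : #B ≤ ℵ_ (k + 1 : ℕ) := by
  by_contra hcon
  rw [not_le] at hcon
  have h2 : (ω_ ((k + 1 : ℕ) : Ordinal.{1}) : Ordinal.{1}) < typeLT B := by
    by_contra h3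
    have h4 := Ordinal.card_le_card (not_lt.1 h3)
    rw [Ordinal.card_type, Ordinal.card_omega] at h4
    exact absurd hcon (not_lt.2 h4)
  obtain ⟨a, ha⟩ := Ordinal.typein_surj (· < ·) h2
  have h3 := Ordinal.card_typein (r := ((· < ·) : B → B → Prop)) a
  rw [ha, Ordinal.card_omega] at h3
  have h4 : #(B ∩ Iio a.1 : Set Ordinal.{0}) = ℵ_ ((k + 1 : ℕ) : Ordinal.{1}) := by
    rw [h3]
    refine Cardinal.mk_congr ?_
    exact ⟨fun x => ⟨⟨x.1, x.2.1⟩, x.2.2⟩, fun y => ⟨y.1.1, y.1.2, y.2⟩, fun x => rfl,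
      fun y => rfl⟩
  have h5 := h a.1 a.2
  rw [h4, Cardinal.aleph_le_aleph] at h5
  have h6 : (k + 1 : ℕ) ≤ k := by exact_mod_cast h5
  omega

/-- initial segments -/
lemma init_of {X : Set Ordinal.{0}} (hX : Gd X) {k : ℕ} (hk : ∀ ξ < ω_ k, ξ ∈ X)
    {β : Ordinal.{0}} (hβ : β < ω_ (k + 1 : ℕ)) (hb : ∀ ξ ∈ X, ξ < ω_ (k + 1 : ℕ) → ξ < β) :
    ∃ χ ≤ β, ∀ ξ < ω_ (k + 1 : ℕ), ξ ∈ X ↔ ξ < χ := by
  have hdown : ∀ ξ ∈ X, ξ < ω_ (k + 1 : ℕ) → ∀ ζ < ξ, ζ ∈ X := by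
    intro ξ h1 h2 ζ h3
    refine hX.inv ξ h1 ζ h3 (hk _ ((bij_lt h3).trans_le ?_))
    rw [← Cardinal.ord_aleph, Cardinal.ord_le_ord]
    have h4 : ξ.card < ℵ_ (k + 1 : ℕ) := by rwa [← Cardinal.lt_omega_iff_card_lt]
    push_cast at h4
    rwa [← Cardinal.succ_aleph, Order.lt_succ_iff] at h4
  have hβX : β ∉ X := fun h => lt_irrefl _ (hb β h hβ)
  let χ : Ordinal.{0} := sInf {γ | γ ∉ X}
  have hχ1 : χ ∉ X := csInf_mem (s := {γ | γ ∉ X}) ⟨β, hβX⟩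
  have hχ2 : χ ≤ β := csInf_le' hβX
  refine ⟨χ, hχ2, fun ξ hξ => ⟨fun h => ?_, fun h => ?_⟩⟩
  · by_contra h1
    rcases (not_lt.1 h1).lt_or_eq with h2 | h2
    · exact hχ1 (hdown ξ h hξ χ h2)
    · exact hχ1 (h2 ▸ h)
  · by_contra h1
    exact absurd (csInf_le' (s := {γ | γ ∉ X}) h1) (not_le.2 h)

/-- Jónsson submodels `X` of level `k` -/
structure Jm {N : Type 1} (ι : O → N) (F : ℕ → List N → N) (A : Set N) (k : ℕ) (X : Set N) :
    Prop where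
  cl : Cl F X
  sub : A ⊆ X
  gd : Gd (ordPart ι X)
  card : #(ordPart ι X) = ℵ_ ω
  low : ∀ ξ < ω_ k, ξ ∈ ordPart ι X
  init : ∃ χ < (ω_ (k + 1 : ℕ) : Ordinal.{0}), ∀ ξ < ω_ (k + 1 : ℕ), ξ ∈ ordPart ι X ↔ ξ < χ
  lt : ∀ m : ℕ, k + 1 ≤ m → #(ordPart ι X ∩ Iio (ω_ m) : Set Ordinal.{0}) < ℵ_ m

theorem row (hJ : IsJonsson (ℵ_ ω)) : ∃ m₀ : ℕ, ∀ k : ℕ, m₀ ≤ k + 1 → ∀ (m : ℕ) {N : Type 1}
    (ι : O → N) (_ : Function.Injective ι) (F : ℕ → List N → N) (A : Set N)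
    (_ : #A ≤ ℵ_ k), ∃ X : Set N, Jm ι F A k X ∧
      #(ordPart ι X ∩ Iio (ω_ m) : Set Ordinal.{0}) ≤ ℵ_ k := by
  obtain ⟨m₀, hm₀⟩ := good hJ
  refine ⟨m₀, fun k hk m => ?_⟩
  have hsucc : ∀ {c : Cardinal.{1}}, c < ℵ_ (k + 1 : ℕ) → c ≤ ℵ_ k := by
    intro c h
    push_cast at h
    rwa [← Cardinal.succ_aleph, Order.lt_succ_iff] at h
  induction m with
  | zero =>
    intro N ι hι F A hA
    obtain ⟨X, h1, h2, h3, h4, h5, h6, h7⟩ := hm₀ k hk ι hι F A hA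
    refine ⟨X, ⟨h1, h2, h3, h4, h5, h6, h7⟩, ?_⟩
    refine (Cardinal.mk_le_mk_of_subset Set.inter_subset_right).trans ?_
    rw [card_Iio_omega, Cardinal.aleph_le_aleph]
    exact_mod_cast Nat.zero_le k
  | succ m ih =>
    intro N ι hι F A hA
    rcases Nat.lt_or_ge m (k + 1) with hmk | hmk
    · obtain ⟨X, h1, h2, h3, h4, h5, h6, h7⟩ := hm₀ k hk ι hι F A hA
      refine ⟨X, ⟨h1, h2, h3, h4, h5, h6, h7⟩, ?_⟩
      refine hsucc (lt_of_le_of_lt ?_ (h7 (k + 1) le_rfl))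
      refine Cardinal.mk_le_mk_of_subset (Set.inter_subset_inter_right _ ?_)
      refine Set.Iio_subset_Iio ?_
      rw [Ordinal.omega_le_omega]
      exact_mod_cast hmk
    -- the first model
    obtain ⟨X₁, hX, hX₁⟩ := ih ι hι (comb ι F) A hA
    have hgd := hX.gd
    set B := ordPart ι X₁ with hB
    by_cases hc : #(B ∩ Iio (ω_ (m + 1 : ℕ)) : Set Ordinal.{0}) ≤ ℵ_ k
    · exact ⟨X₁, ⟨cl_of_comb hX.cl, hX.sub, hX.gd, hX.card, hX.low, hX.init, hX.lt⟩, hc⟩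
    have hc1 : #(B ∩ Iio (ω_ (m + 1 : ℕ)) : Set Ordinal.{0}) = ℵ_ (k + 1 : ℕ) := by
      apply le_antisymm
      · apply card_le_of_init
        rintro α ⟨h1, h2⟩
        refine (Cardinal.mk_le_mk_of_subset ?_).trans ((card_init hgd h1 h2).trans hX₁)
        exact Set.inter_subset_inter_left _ Set.inter_subset_left
      · push_cast
        rw [← Cardinal.succ_aleph, Order.succ_le_iff]
        exact not_le.1 hc
    have hc2 : #(B ∩ Ici (ω_ (m + 1 : ℕ)) : Set Ordinal.{0}) = ℵ_ ω := by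
      apply le_antisymm
      · rw [← hX.card]
        exact Cardinal.mk_le_mk_of_subset Set.inter_subset_left
      · by_contra h1
        rw [not_le] at h1
        have h2 : B = (B ∩ Iio (ω_ (m + 1 : ℕ))) ∪ (B ∩ Ici (ω_ (m + 1 : ℕ))) := by
          rw [← Set.inter_union_distrib_left, Set.Iio_union_Ici, Set.inter_univ]
        have h3 : #B < ℵ_ ω := by
          rw [h2]
          refine (Cardinal.mk_union_le _ _).trans_lt
            (Cardinal.add_lt_of_lt (Cardinal.aleph0_le_aleph _) ?_ h1)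
          rw [hc1, Cardinal.aleph_lt_aleph]
          exact Ordinal.natCast_lt_omega0 _
        rw [hX.card] at h3
        exact lt_irrefl _ h3
    obtain ⟨e₁⟩ : Nonempty (Iio (ω_ (k + 1 : ℕ) : Ordinal.{0}) ≃
        (B ∩ Iio (ω_ (m + 1 : ℕ)) : Set Ordinal.{0})) :=
      Cardinal.eq.1 ((card_Iio_omega (k + 1)).trans hc1.symm)
    obtain ⟨e₂⟩ : Nonempty (O ≃ (B ∩ Ici (ω_ (m + 1 : ℕ)) : Set Ordinal.{0})) :=
      Cardinal.eq.1 (mk_O.trans hc2.symm)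
    classical
    let b : O → Ordinal.{0} := fun ξ => if h : ξ.1 < ω_ (k + 1 : ℕ) then (e₁ ⟨ξ.1, h⟩).1
      else (e₂ ξ).1
    have hb : ∀ ξ, b ξ ∈ B := by
      intro ξ
      by_cases h : ξ.1 < ω_ (k + 1 : ℕ)
      · simp only [b, h, dite_true]
        exact (e₁ ⟨ξ.1, h⟩).2.1
      · simp only [b, h, dite_false]
        exact (e₂ ξ).2.1
    have hb1 : ∀ ξ : O, b ξ < ω_ (m + 1 : ℕ) ↔ ξ.1 < ω_ (k + 1 : ℕ) := by
      intro ξ
      by_cases h : ξ.1 < ω_ (k + 1 : ℕ)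
      · simp only [b, h, dite_true, iff_true]
        exact (e₁ ⟨ξ.1, h⟩).2.2
      · simp only [b, h, dite_false, iff_false]
        exact not_lt.2 (e₂ ξ).2.2
    have hb2 : Function.Injective b := by
      intro ξ ζ h
      by_cases h1 : ξ.1 < ω_ (k + 1 : ℕ)
      · have h2 : ζ.1 < ω_ (k + 1 : ℕ) := by rwa [← hb1, ← h, hb1]
        simp only [b, h1, h2, dite_true] at h
        have h3 := e₁.injective (Subtype.ext h)
        exact Subtype.ext (congrArg (fun z => z.1) h3)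
      · have h2 : ¬ ζ.1 < ω_ (k + 1 : ℕ) := by rwa [← hb1, ← h, hb1]
        simp only [b, h1, h2, dite_false] at h
        exact e₂.injective (Subtype.ext h)
    have hb3 : ∀ ξ ∈ B, ξ < ω_ (m + 1 : ℕ) → ∃ ζ : O, b ζ = ξ ∧ ζ.1 < ω_ (k + 1 : ℕ) := by
      intro ξ h1 h2
      obtain ⟨ζ, hζ⟩ := e₁.surjective ⟨ξ, h1, h2⟩
      refine ⟨⟨ζ.1, lt_trans ζ.2 (omega_lt _)⟩, ?_, ζ.2⟩
      have h3 : ζ.1 < ω_ (k + 1 : ℕ) := ζ.2
      simp only [b, h3, dite_true]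
      exact congrArg Subtype.val hζ
    -- the second model
    let N' : Type 1 := X₁
    let ι' : O → N' := fun ξ => ⟨ι ⟨b ξ, (hb ξ).1⟩, (hb ξ).2⟩
    have hι' : Function.Injective ι' := by
      intro ξ ζ h
      have h1 := hι (Subtype.mk.inj h)
      exact hb2 (Subtype.mk.inj h1)
    let F' : ℕ → List N' → N' := fun i l => ⟨comb ι F i (l.map Subtype.val), hX.cl i _ (by
      intro x hx
      obtain ⟨y, _, rfl⟩ := List.mem_map.1 hx
      exact y.2)⟩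
    let K : Set N' := {y | ∃ ξ, ∃ h : ξ < ω_ k, ι ⟨ξ, h.trans (omega_lt k)⟩ = y.1}
    let A' : Set N' := {y | y.1 ∈ A} ∪ K
    have hA' : #A' ≤ ℵ_ k := by
      refine (Cardinal.mk_union_le _ _).trans ?_
      refine (add_le_add (b := ℵ_ k) (d := ℵ_ k) ?_ ?_).trans_eq
        (Cardinal.add_eq_self (Cardinal.aleph0_le_aleph _))
      · refine (Cardinal.mk_le_of_injective (f := fun y : {y : N' | y.1 ∈ A} =>
          (⟨y.1.1, y.2⟩ : A)) ?_).trans hA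
        intro x y hxy
        exact Subtype.ext (Subtype.ext (Subtype.mk.inj hxy))
      · rw [← card_Iio_omega]
        refine Cardinal.mk_le_of_injective (f := fun y : K =>
          (⟨y.2.choose, y.2.choose_spec.choose⟩ : Iio (ω_ k : Ordinal.{0}))) ?_
        intro x y hxy
        have h1 := x.2.choose_spec.choose_spec
        have h2 := y.2.choose_spec.choose_spec
        have h3 : x.2.choose = y.2.choose := Subtype.mk.inj hxy
        apply Subtype.ext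
        apply Subtype.ext
        rw [← h1, ← h2]
        congr 1
        exact Subtype.ext h3
    obtain ⟨Y, hY1, hY2, hY3, hY4, hY5, hY6, hY7⟩ := hm₀ k hk ι' hι' F' A' hA'
    let X : Set N := {x | ∃ h : x ∈ X₁, (⟨x, h⟩ : N') ∈ Y}
    have hXX : X ⊆ X₁ := fun x hx => hx.1
    have hcl : Cl (comb ι F) X := by
      intro i l hl
      have hl1 : ∀ x ∈ l, x ∈ X₁ := fun x hx => hXX (hl x hx)
      lift l to List {x // x ∈ X₁} using hl1
      have h2 := hY1 i l (by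
        intro x hx
        obtain ⟨_, h4⟩ := hl x.1 (List.mem_map_of_mem hx)
        exact h4)
      exact ⟨(F' i l).2, h2⟩
    have hAX : A ⊆ X := fun x hx => ⟨hX.sub hx, hY2 (Or.inl hx)⟩
    have hlow : ∀ ξ < ω_ k, ξ ∈ ordPart ι X := by
      intro ξ hξ
      obtain ⟨h1, h2⟩ := hX.low ξ hξ
      exact ⟨h1, h2, hY2 (Or.inr ⟨ξ, hξ, rfl⟩)⟩
    have hordb : ∀ ζ : O, ζ.1 ∈ ordPart ι' Y ↔ b ζ ∈ ordPart ι X := by
      intro ζ
      constructor
      · rintro ⟨_, h1⟩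
        exact ⟨(hb ζ).1, (hb ζ).2, h1⟩
      · rintro ⟨h1, h2, h3⟩
        exact ⟨ζ.2, h3⟩
    have hsubB : ordPart ι X ⊆ B := fun ξ hξ => ⟨hξ.1, hXX hξ.2⟩
    have hXgd := gd_of_comb hι hcl
    obtain ⟨χ₁, hχ1, hχ2⟩ := hX.init
    refine ⟨X, ⟨cl_of_comb hcl, hAX, hXgd, ?_, hlow, ?_, ?_⟩, ?_⟩
    · apply le_antisymm
      · rw [← hX.card]
        exact Cardinal.mk_le_mk_of_subset hsubB
      · rw [← hY4]
        refine Cardinal.mk_le_of_injective (f := fun ζ : ordPart ι' Y =>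
          (⟨b ⟨ζ.1, ζ.2.1⟩, (hordb ⟨ζ.1, ζ.2.1⟩).1 ζ.2⟩ : ordPart ι X)) ?_
        intro x y hxy
        have h1 := hb2 (Subtype.mk.inj hxy)
        exact Subtype.ext (Subtype.mk.inj h1)
    · obtain ⟨χ, h1, h2⟩ := init_of hXgd hlow hχ1 (fun ξ h1 h2 => (hχ2 ξ h2).1 (hsubB h1))
      exact ⟨χ, h1.trans_lt hχ1, h2⟩
    · intro m' hm'
      exact lt_of_le_of_lt (Cardinal.mk_le_mk_of_subset (Set.inter_subset_inter_left _ hsubB))
        (hX.lt m' hm')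
    · refine hsucc (lt_of_le_of_lt ?_ (hY7 (k + 1) le_rfl))
      have hex : ∀ x : (ordPart ι X ∩ Iio (ω_ (m + 1 : ℕ)) : Set Ordinal.{0}),
          ∃ ζ : O, b ζ = x.1 ∧ ζ.1 < ω_ (k + 1 : ℕ) :=
        fun x => hb3 x.1 (hsubB x.2.1) x.2.2
      choose g hg1 hg2 using hex
      refine Cardinal.mk_le_of_injective
        (f := fun x : (ordPart ι X ∩ Iio (ω_ (m + 1 : ℕ)) : Set Ordinal.{0}) =>
          (⟨(g x).1, (hordb (g x)).2 (by rw [hg1]; exact x.2.1), hg2 x⟩ :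
            (ordPart ι' Y ∩ Iio (ω_ (k + 1 : ℕ)) : Set Ordinal.{0}))) ?_
      intro x y hxy
      have h1 : g x = g y := Subtype.ext (Subtype.mk.inj hxy)
      apply Subtype.ext
      rw [← hg1 x, ← hg1 y, h1]

end Pool.Agent.SigOne
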