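import Pool.Agent.Work.MP_680e5b_lc.Row
import Pool.Agent.Work.MP_680e5b_lc.Core

/-!
# Jónsson submodels whose trace on `ω_(k+1)` is a given ordinal from a club
-/

namespace Pool.Agent.SigOne

open Cardinal Ordinal Set

/-- the closure points of a function form a club -/
lemma club_closure {k : ℕ} (h : Ordinal.{0} → Ordinal.{0})
    (hh : ∀ ξ < ω_ (k + 1 : ℕ), h ξ < ω_ (k + 1 : ℕ)) :
    Club (ω_ (k + 1 : ℕ)) {δ | 0 < δ ∧ δ < ω_ (k + 1 : ℕ) ∧ ∀ ξ < δ, h ξ < δ} := by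
  have hstep : ∀ α < (ω_ (k + 1 : ℕ) : Ordinal.{0}), ∃ β < (ω_ (k + 1 : ℕ) : Ordinal.{0}),
      α < β ∧ ∀ ξ < α, h ξ < β := by
    intro α hα
    obtain ⟨β, hβ, hβ'⟩ := exists_bound (k := k) (S := h '' Iio α)
      (Cardinal.mk_image_le.trans (card_Iio_le hα)) (by
        rintro _ ⟨ξ, hξ, rfl⟩
        exact hh ξ (lt_trans hξ hα))
    refine ⟨max β (α + 1), max_lt hβ ?_, lt_max_of_lt_right (lt_add_one α), fun ξ hξ =>
      lt_max_of_lt_left (hβ' _ ⟨ξ, hξ, rfl⟩)⟩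
    rw [← Order.succ_eq_add_one]
    exact (Cardinal.isSuccLimit_omega _).succ_lt hα
  choose! g hg1 hg2 hg3 using hstep
  refine ⟨fun α hα => hα.2.1, fun α hα => ?_, fun α hα h0 hlim => ?_⟩
  · let a : ℕ → Ordinal.{0} := fun n => g^[n + 1] α
    have ha1 : ∀ n, g^[n] α < ω_ (k + 1 : ℕ) := by
      intro n
      induction n with
      | zero => exact hα
      | succ n ih =>
        rw [Function.iterate_succ_apply']
        exact hg1 _ ih
    obtain ⟨β, hβ, hβ'⟩ := exists_bound (k := k) (S := range fun n => g^[n] α)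
      ((Cardinal.mk_le_aleph0_iff.2 (Set.countable_range _).to_subtype).trans
        (Cardinal.aleph0_le_aleph _)) (by
        rintro _ ⟨n, rfl⟩
        exact ha1 n)
    have hbdd : BddAbove (range fun n => g^[n] α) := ⟨β, by
      rintro _ ⟨n, rfl⟩
      exact (hβ' _ ⟨n, rfl⟩).le⟩
    have hlt : ∀ n, g^[n] α < ⨆ n, g^[n] α := by
      intro n
      refine lt_of_lt_of_le ?_ (le_ciSup hbdd (n + 1))
      rw [Function.iterate_succ_apply']
      exact hg2 _ (ha1 n)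
    refine ⟨⨆ n, g^[n] α, ⟨?_, ?_, ?_⟩, hlt 0⟩
    · exact zero_le.trans_lt (hlt 0)
    · refine lt_of_le_of_lt (ciSup_le' fun n => (hβ' _ ⟨n, rfl⟩).le) hβ
    · intro ξ hξ
      obtain ⟨n, hn⟩ := exists_lt_of_lt_ciSup hξ
      refine lt_of_lt_of_le (hg3 _ (ha1 n) ξ hn) ?_
      have := le_ciSup hbdd (n + 1)
      rwa [Function.iterate_succ_apply'] at this
  · refine ⟨pos_iff_ne_zero.2 h0, hα, fun ξ hξ => ?_⟩
    obtain ⟨γ, ⟨_, _, h1⟩, h2, h3⟩ := hlim ξ hξ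
    exact (h1 ξ h2).trans h3

/-- the club filter on `ω_n` is generated by at most `ℵ_m` sets -/
def Gen (n m : ℕ) : Prop := ∃ D : Ordinal.{0} → Set Ordinal.{0}, ∀ C, Club (ω_ n) C →
  ∃ ν < ω_ m, Club (ω_ n) (D ν) ∧ D ν ⊆ C

theorem trace (hJ : IsJonsson (ℵ_ ω)) : ∃ m₀ : ℕ, ∀ k : ℕ, m₀ ≤ k + 1 → ∀ m : ℕ,
    Gen (k + 1) m → ∀ {N : Type 1} (ι : O → N) (_ : Function.Injective ι) (F : ℕ → List N → N)
    (A : Set N) (_ : #A ≤ ℵ_ k), ∃ D : Set Ordinal.{0}, Club (ω_ (k + 1 : ℕ)) D ∧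
      ∀ δ ∈ D, ∃ X : Set N, Cl F X ∧ A ⊆ X ∧ #(ordPart ι X) = ℵ_ ω ∧
        ∀ ξ < ω_ (k + 1 : ℕ), ξ ∈ ordPart ι X ↔ ξ < δ := by
  obtain ⟨m₀, hm₀⟩ := row hJ
  refine ⟨m₀, fun k hk m hgen {N} ι hι F A hA => ?_⟩
  obtain ⟨Dv, hDv⟩ := hgen
  have hO : Nonempty O := ⟨⟨0, Ordinal.omega_pos _⟩⟩
  have hN : Nonempty N := hO.map ι
  let Ξ : Type 1 := {ξ : Ordinal.{0} // ξ < ω_ (k + 1 : ℕ)}
  have hΞ : #Ξ = ℵ_ (k + 1 : ℕ) := card_Iio_omega (k + 1)
  have hΞinf : Infinite Ξ := by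
    rw [Cardinal.infinite_iff, hΞ]
    exact Cardinal.aleph0_le_aleph _
  let z : Ξ := ⟨0, Ordinal.omega_pos _⟩
  obtain ⟨π, hπ⟩ := exists_proj Ξ
  choose code hcode using hπ
  have hklt : ∀ ξ : Ξ, ξ.1 < ω_ ω := fun ξ => ξ.2.trans (omega_lt _)
  -- closure points of a function into `N`
  have hE : ∀ f : Ξ → N, ∃ E : Set Ordinal.{0}, Club (ω_ (k + 1 : ℕ)) E ∧
      ∀ δ ∈ E, ∀ ξ : Ξ, ξ.1 < δ → ∀ ζ (h : ζ < ω_ ω), ζ < ω_ (k + 1 : ℕ) → f ξ = ι ⟨ζ, h⟩ →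
        ζ < δ := by
    intro f
    classical
    let P : Ordinal.{0} → Ordinal.{0} → Prop := fun ξ ζ =>
      ∃ (h1 : ξ < ω_ (k + 1 : ℕ)) (h2 : ζ < ω_ ω), ζ < ω_ (k + 1 : ℕ) ∧ f ⟨ξ, h1⟩ = ι ⟨ζ, h2⟩
    let h : Ordinal.{0} → Ordinal.{0} := fun ξ => if hx : ∃ ζ, P ξ ζ then hx.choose else 0
    refine ⟨_, club_closure (k := k) h ?_, ?_⟩
    · intro ξ hξ
      by_cases hx : ∃ ζ, P ξ ζ
      · simp only [h, hx, dite_true]
        obtain ⟨_, _, h3, _⟩ := hx.choose_spec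
        exact h3
      · simp only [h, hx, dite_false]
        exact Ordinal.omega_pos _
    · rintro δ ⟨_, h2, h3⟩ ξ hξ ζ h4 h5 h6
      have hx : ∃ ζ, P ξ.1 ζ := ⟨ζ, ξ.2, h4, h5, h6⟩
      have h7 := h3 ξ.1 hξ
      simp only [h, hx, dite_true] at h7
      obtain ⟨_, _, _, h8⟩ := hx.choose_spec
      have h9 : ζ = hx.choose := by
        have := hι (h6.symm.trans h8)
        exact Subtype.mk.inj this
      rw [h9]
      exact h7
  choose E hE1 hE2 using hE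
  have hν : ∀ f : Ξ → N, ∃ ν < (ω_ m : Ordinal.{0}), Club (ω_ (k + 1 : ℕ)) (Dv ν) ∧
      Dv ν ⊆ E f := fun f => hDv _ (hE1 f)
  choose ν hν1 hν2 hν3 using hν
  have hν4 : ∀ f, ν f < ω_ ω := fun f => (hν1 f).trans (omega_lt _)
  -- the structure of functions
  let N' : Type 1 := Ξ → N
  let idf : N' := fun ξ => ι ⟨ξ.1, hklt ξ⟩
  let G : ℕ → List N' → N' := fun i l => match i with
    | 0 => idf
    | 1 => match l with
      | [f] => fun _ => ι ⟨ν f, hν4 f⟩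
      | _ => idf
    | i + 2 => fun ξ => F i (l.mapIdx (fun j f => f (π j ξ)))
  let c : O → N' := fun ξ _ => ι ξ
  have hc : Function.Injective c := fun x y hxy => hι (congrFun hxy z)
  let A' : Set N' := (fun a _ => a) '' A
  obtain ⟨Y, hY, hYm⟩ := hm₀ k hk m c hc G A' (Cardinal.mk_image_le.trans hA)
  -- bounds for the codes
  have hcb : ∀ ξ : Ordinal.{0}, ∃ β : Ordinal.{0}, ξ < ω_ (k + 1 : ℕ) →
      (β < ω_ (k + 1 : ℕ) ∧ ∀ l : List Ξ, (∀ x ∈ l, x.1 ≤ ξ) → (code l).1 < β) := by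
    intro ξ
    by_cases hξ : ξ < ω_ (k + 1 : ℕ)
    · have hξ' : ξ + 1 < ω_ (k + 1 : ℕ) := by
        rw [← Order.succ_eq_add_one]
        exact (Cardinal.isSuccLimit_omega _).succ_lt hξ
      let cst : (Iio (ξ + 1) : Set Ordinal.{0}) → Ξ := fun x => ⟨x.1, lt_trans x.2 hξ'⟩
      obtain ⟨β, hβ, hβ'⟩ := exists_bound (k := k)
        (S := range fun l : List (Iio (ξ + 1) : Set Ordinal.{0}) => (code (l.map cst)).1) (by
          refine Cardinal.mk_range_le.trans ?_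
          refine (Cardinal.mk_list_le_max _).trans (max_le (Cardinal.aleph0_le_aleph _) ?_)
          exact card_Iio_le hξ') (by
          rintro _ ⟨l, rfl⟩
          exact (code _).2)
      refine ⟨β, fun _ => ⟨hβ, fun l hl => ?_⟩⟩
      have hl' : ∀ x ∈ l, x.1 ∈ (Iio (ξ + 1) : Set Ordinal.{0}) := by
        intro x hx
        exact Order.lt_add_one_iff.2 (hl _ hx)
      refine hβ' _ ⟨l.pmap (fun x hx => ⟨x.1, hx⟩) hl', ?_⟩
      dsimp only
      rw [List.map_pmap]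
      congr 2
      exact List.pmap_eq_self.2 fun x hx => rfl
    · exact ⟨0, fun h => absurd h hξ⟩
  choose hb hhb using hcb
  -- the next elements of the clubs
  have hnx : ∀ ξ : Ordinal.{0}, ∃ β : Ordinal.{0}, ξ < ω_ (k + 1 : ℕ) →
      (β < ω_ (k + 1 : ℕ) ∧ ∀ μ ∈ ordPart c Y, μ < ω_ m → Club (ω_ (k + 1 : ℕ)) (Dv μ) →
        ∃ γ ∈ Dv μ, ξ < γ ∧ γ < β) := by
    intro ξ
    by_cases hξ : ξ < ω_ (k + 1 : ℕ)
    · classical
      let nx : Ordinal.{0} → Ordinal.{0} := fun μ =>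
        if h : Club (ω_ (k + 1 : ℕ)) (Dv μ) then (h.unbounded ξ hξ).choose else 0
      obtain ⟨β, hβ, hβ'⟩ := exists_bound (k := k)
        (S := nx '' (ordPart c Y ∩ Iio (ω_ m))) (Cardinal.mk_image_le.trans hYm) (by
          rintro _ ⟨μ, _, rfl⟩
          by_cases h : Club (ω_ (k + 1 : ℕ)) (Dv μ)
          · simp only [nx, h, dite_true]
            exact h.lt _ (h.unbounded ξ hξ).choose_spec.1
          · simp only [nx, h, dite_false]
            exact Ordinal.omega_pos _)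
      refine ⟨β, fun _ => ⟨hβ, fun μ h1 h2 h3 => ⟨_, (h3.unbounded ξ hξ).choose_spec.1,
        (h3.unbounded ξ hξ).choose_spec.2, ?_⟩⟩⟩
      have h4 := hβ' (nx μ) ⟨μ, ⟨h1, h2⟩, rfl⟩
      simp only [nx, h3, dite_true] at h4
      exact h4
    · exact ⟨0, fun h => absurd h hξ⟩
  choose hn hhn using hnx
  refine ⟨_, club_closure (k := k) (fun ξ => max (hb ξ) (hn ξ)) ?_, ?_⟩
  · intro ξ hξ
    exact max_lt (hhb ξ hξ).1 (hhn ξ hξ).1
  rintro δ ⟨hδ0, hδ, hδ'⟩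
  have hδE : ∀ f ∈ Y, δ ∈ E f := by
    intro f hf
    refine hν3 f ?_
    refine (hν2 f).closed δ hδ hδ0.ne' fun β hβ => ?_
    have hmem : ν f ∈ ordPart c Y := ⟨hν4 f, hY.cl 1 [f] (by simpa using hf)⟩
    obtain ⟨γ, h1, h2, h3⟩ := (hhn β (hβ.trans hδ)).2 _ hmem (hν1 f) (hν2 f)
    exact ⟨γ, h1, h2, h3.trans (lt_of_le_of_lt (le_max_right _ _) (hδ' β hβ))⟩
  have hδc : ∀ l : List Ξ, (∀ x ∈ l, x.1 < δ) → (code l).1 < δ := by
    intro l hl
    obtain ⟨ξ, hξ, hξ'⟩ : ∃ ξ < δ, ∀ x ∈ l, x.1 ≤ ξ := by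
      clear hδ'
      induction l with
      | nil => exact ⟨0, hδ0, by simp⟩
      | cons a l ih =>
        obtain ⟨ξ, h1, h2⟩ := ih (fun x hx => hl x (List.mem_cons_of_mem _ hx))
        refine ⟨max ξ a.1, max_lt h1 (hl a List.mem_cons_self), ?_⟩
        intro x hx
        rcases List.mem_cons.1 hx with rfl | hx
        · exact le_max_right _ _
        · exact (h2 x hx).trans (le_max_left _ _)
    exact ((hhb ξ (hξ.trans hδ)).2 l hξ').trans (lt_of_le_of_lt (le_max_left _ _) (hδ' ξ hξ))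
  let X : Set N := {x | ∃ f ∈ Y, ∃ ζ : Ξ, ζ.1 < δ ∧ f ζ = x}
  have hz : z.1 < δ := hδ0
  refine ⟨X, ?_, ?_, ?_, ?_⟩
  · intro i l hl
    choose! f hf ζ hζ hζ' using hl
    refine ⟨_, hY.cl (i + 2) (l.map f) ?_, code (l.map ζ), ?_, ?_⟩
    · intro x hx
      obtain ⟨y, hy, rfl⟩ := List.mem_map.1 hx
      exact hf y hy
    · apply hδc
      intro x hx
      obtain ⟨y, hy, rfl⟩ := List.mem_map.1 hx
      exact hζ y hy
    · change F i ((l.map f).mapIdx (fun j g => g (π j (code (l.map ζ))))) = F i l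
      congr 1
      apply List.ext_getElem
      · simp
      · intro j h1 h2
        have h3 : π j (code (l.map ζ)) = ζ l[j] := by
          rw [hcode _ j (by simpa using h2)]
          simp
        simp only [List.getElem_mapIdx, List.getElem_map, h3]
        exact hζ' _ (List.getElem_mem h2)
  · intro a ha
    exact ⟨_, hY.sub ⟨a, ha, rfl⟩, z, hz, rfl⟩
  · apply le_antisymm
    · rw [card_ordPart, ← mk_O]
      exact Cardinal.mk_set_le _
    · rw [← hY.card]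
      refine Cardinal.mk_le_mk_of_subset ?_
      rintro ξ ⟨h1, h2⟩
      exact ⟨h1, _, h2, z, hz, rfl⟩
  · intro ξ hξ
    constructor
    · rintro ⟨h1, f, hf, ζ, hζ, h2⟩
      exact hE2 f δ (hδE f hf) ζ hζ ξ h1 hξ h2
    · intro h
      exact ⟨hξ.trans (omega_lt _), _, hY.cl 0 [] (by simp), ⟨ξ, hξ⟩, h, rfl⟩

end Pool.Agent.SigOne
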